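import Pool.Agent.H.MP_b2d7dd_lc.TN.Rep2
import Pool.Agent.H.MP_b2d7dd_lc.TI.Tokz

/-!
# Module Chi: homomorphisms from integer coordinates

The same as TW/Chi for a general family `ex : ℕ → Tm` of exponents (the numbers `a < L` are used).
`Fam`: the exponent number `a` is an `NS` term of size at most `n + 1`, all of whose powers of
variables have exponents with smaller numbers.
-/

namespace Pool.Agent.TN

open Pool.Agent.TI Pool.Agent.TW Finset

/-- The function of the exponent number `a`. -/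
def ev (ex : ℕ → Tm) (a : ℕ) : Fn := vf (ex a)

/-- The possible pairs (variable, exponent function). -/
def atoms (N : List (List Bool)) (ex : ℕ → Tm) (L : ℕ) : Set (List Bool × Fn) :=
  {p | p.1 ∈ N ∧ ∃ a < L, p.2 = ev ex a}

/-- Families of exponents. -/
structure Fam (n : ℕ) (N : List (List Bool)) (L : ℕ) (ex : ℕ → Tm) : Prop where
  ns : ∀ a, NS (ex a)
  sz : ∀ a, (ex a).sz ≤ n + 1
  ats : ∀ a < L, Ae (atoms N ex a) 1 (ex a)
  len : N.length ≤ n
  le : L ≤ n

/-- Every relation between the exponent functions holds for the rows. -/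
def Coh (ex : ℕ → Tm) (L : ℕ) (ν : List (ℕ → ℤ)) : Prop :=
  ∀ k : ℕ → ℤ, ∑ a ∈ range L, k a • ev ex a = 0 → ∀ row ∈ ν, ∑ a ∈ range L, k a * row a = 0

/-- Every relation which holds for the rows is a relation between the exponent functions. -/
def Fai (ex : ℕ → Tm) (L : ℕ) (ν : List (ℕ → ℤ)) : Prop :=
  ∀ k : ℕ → ℤ, (∀ row ∈ ν, ∑ a ∈ range L, k a * row a = 0) → ∑ a ∈ range L, k a • ev ex a = 0

/-- The group generated by the exponent functions. -/
def Sp (ex : ℕ → Tm) (L : ℕ) : AddSubgroup Fn where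
  carrier := {f | ∃ k : ℕ → ℤ, f = ∑ a ∈ range L, k a • ev ex a}
  zero_mem' := ⟨0, by simp⟩
  add_mem' := by
    rintro f g ⟨k, rfl⟩ ⟨l, rfl⟩
    exact ⟨k + l, by simp [add_smul, Finset.sum_add_distrib]⟩
  neg_mem' := by
    rintro f ⟨k, rfl⟩
    exact ⟨-k, by simp [neg_smul]⟩

open Classical in
/-- The value of the power with base `w` and exponent function `f`. -/
noncomputable def chi {K : Type} [CommRing K] (W : List Bool → ℕ → Kˣ) (ν : List (ℕ → ℤ))
    (ex : ℕ → Tm) (L : ℕ) (w : List Bool) (f : Fn) : K :=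
  if h : ∃ k : ℕ → ℤ, f = ∑ a ∈ range L, k a • ev ex a then
    ↑(∏ b ∈ range ν.length, W w b ^ (∑ a ∈ range L, h.choose a * (ν.getD b 0) a))
  else 1

theorem chi_eq {K : Type} [CommRing K] (W : List Bool → ℕ → Kˣ) {ν : List (ℕ → ℤ)}
    {ex : ℕ → Tm} {L : ℕ} (hc : Coh ex L ν) (w : List Bool) (k : ℕ → ℤ) :
    chi W ν ex L w (∑ a ∈ range L, k a • ev ex a) =
      ↑(∏ b ∈ range ν.length, W w b ^ (∑ a ∈ range L, k a * (ν.getD b 0) a)) := by
  have h : ∃ k' : ℕ → ℤ, ∑ a ∈ range L, k a • ev ex a =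
      ∑ a ∈ range L, k' a • ev ex a := ⟨k, rfl⟩
  unfold chi
  rw [dif_pos h]
  have h1 : ∑ a ∈ range L, (h.choose a - k a) • ev ex a = 0 := by
    have h2 := h.choose_spec
    simp only [sub_smul, Finset.sum_sub_distrib]
    rw [← h2, sub_self]
  congr 1
  refine Finset.prod_congr rfl fun b hb => ?_
  have hrow : ν.getD b 0 ∈ ν := by
    rw [List.getD_eq_getElem _ _ (mem_range.1 hb)]
    exact List.getElem_mem _
  have h3 := hc (fun a => h.choose a - k a) h1 _ hrow
  simp only [sub_mul, Finset.sum_sub_distrib] at h3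
  rw [sub_eq_zero.1 h3]

/-- An exponent function as a combination. -/
theorem Chi_single {ex : ℕ → Tm} {L a : ℕ} (ha : a < L) :
    ev ex a = ∑ a' ∈ range L, (if a' = a then (1 : ℤ) else 0) • ev ex a' := by
  rw [Finset.sum_eq_single_of_mem a (mem_range.2 ha)]
  · rw [if_pos rfl, one_smul]
  · intro b _ hb
    rw [if_neg hb, zero_smul]

theorem chi_ev {K : Type} [CommRing K] (W : List Bool → ℕ → Kˣ) {ν : List (ℕ → ℤ)}
    {ex : ℕ → Tm} {L : ℕ} (hc : Coh ex L ν) (w : List Bool) {a : ℕ} (ha : a < L) :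
    chi W ν ex L w (ev ex a) = ↑(∏ b ∈ range ν.length, W w b ^ ((ν.getD b 0) a)) := by
  rw [Chi_single ha, chi_eq W hc w fun a' => if a' = a then (1 : ℤ) else 0]
  congr 1
  refine Finset.prod_congr rfl fun b _ => ?_
  rw [Finset.sum_eq_single_of_mem a (mem_range.2 ha)]
  · rw [if_pos rfl, one_mul]
  · intro b _ hb
    rw [if_neg hb, zero_mul]

theorem chi_chr {K : Type} [CommRing K] (W : List Bool → ℕ → Kˣ) {ν : List (ℕ → ℤ)}
    {ex : ℕ → Tm} {L : ℕ} (hc : Coh ex L ν) : Chr (Sp ex L) (chi W ν ex L) where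
  zero := fun w => by
    have h1 : (0 : Fn) = ∑ a ∈ range L, (0 : ℕ → ℤ) a • ev ex a := by simp
    rw [h1, chi_eq W hc w (0 : ℕ → ℤ)]
    simp
  add := by
    rintro w f ⟨k, rfl⟩ g ⟨l, rfl⟩
    have h1 : ∑ a ∈ range L, k a • ev ex a + ∑ a ∈ range L, l a • ev ex a =
        ∑ a ∈ range L, (fun a => k a + l a) a • ev ex a := by
      simp only [add_smul, Finset.sum_add_distrib]
    rw [h1, chi_eq W hc w k, chi_eq W hc w l, chi_eq W hc w fun a => k a + l a, ← Units.val_mul,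
      ← Finset.prod_mul_distrib]
    congr 1
    refine Finset.prod_congr rfl fun b _ => ?_
    rw [← zpow_add, ← Finset.sum_add_distrib]
    congr 1
    exact Finset.sum_congr rfl fun a _ => add_mul _ _ _

theorem ev_mem_Sp {ex : ℕ → Tm} {L a : ℕ} (ha : a < L) : ev ex a ∈ Sp ex L :=
  ⟨_, Chi_single ha⟩

/-- The atoms of the exponents up to the number `i` are in the group of the exponents before. -/
theorem Fam.at_atoms {n : ℕ} {N : List (List Bool)} {L : ℕ} {ex : ℕ → Tm} (h : Fam n N L ex)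
    {i a : ℕ} (hi : i < L) (ha : a ≤ i) : Ae (atoms N ex i) 1 (ex a) :=
  Ae.mono (fun p hp => by
    obtain ⟨h1, c, hc, h2⟩ := hp
    exact ⟨h1, c, by omega, h2⟩) (h.ats a (by omega))

theorem atoms_sub {N : List (List Bool)} {ex : ℕ → Tm} {L : ℕ} :
    atoms N ex L ⊆ {p | p.2 ∈ Sp ex L} := by
  rintro p ⟨-, c, hc, h2⟩
  change p.2 ∈ Sp ex L
  rw [h2]
  exact ev_mem_Sp hc

/-- The values of the exponents satisfy all relations. -/
theorem row_rel {K : Type} [CommRing K] (W : List Bool → ℕ → Kˣ) {ν : List (ℕ → ℤ)}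
    {n : ℕ} {N : List (List Bool)} {L : ℕ} {ex : ℕ → Tm} (h : Fam n N L ex) {i : ℕ}
    (hi : i < L) (hc : Coh ex i ν) (k : ℕ → ℤ)
    (hk : ∑ a ∈ range (i + 1), k a • ev ex a = 0) :
    ∑ a ∈ range (i + 1), (k a : K) * he (chi W ν ex i) 1 (ex a) = 0 :=
  he_rel (chi_chr W hc) (range (i + 1)) ex (fun a _ => h.ns a)
    (fun a ha => Ae.mono atoms_sub
      (h.at_atoms hi (Nat.lt_succ_iff.1 (mem_range.1 ha)))) k hk

end Pool.Agent.TN
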