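import Pool.Agent.H.MP_b2d7dd_lc.TN.Crd
import Pool.Agent.H.MP_b2d7dd_lc.TW.Cmb

/-!
# Module Cmb: linear combinations of hash values are rarely zero

The same as TW/Cmb (copy and adapt).
-/

namespace Pool.Agent.TN

open Pool.Agent.TI (Tm)
open Pool.Agent.TW (Fn vf SI irow wfun cnt cnt_fam laurent_zeros wun wun_val zv)
open Pool.Agent.H.MP_5be563_lc.PT Finset

/-- The exponents of the monomial `g`. -/
private noncomputable def Cmb_m (ν : List (ℕ → ℤ)) (ex : ℕ → Tm) (L : ℕ) (N : List (List Bool)) (c : ℕ)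
    (g : List Bool →₀ Fn) (q : ℕ) : ℤ :=
  if q / c < N.length ∧ N.idxOf (N.getD (q / c) []) = q / c ∧ q % c < ν.length then
    crd ν ex L (g (N.getD (q / c) [])) (q % c) else 0

private theorem Cmb_idx {N : List (List Bool)} {w : List Bool} (hw : w ∈ N) :
    N.getD (N.idxOf w) [] = w := by
  have h1 : N.idxOf w < N.length := List.idxOf_lt_length_iff.2 hw
  rw [List.getD_eq_getElem _ _ h1]
  exact List.getElem_idxOf h1

private theorem Cmb_m_eq {ν : List (ℕ → ℤ)} (ex : ℕ → Tm) (L : ℕ) {N : List (List Bool)} {c : ℕ}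
    (g : List Bool →₀ Fn) {w : List Bool} (hw : w ∈ N) {b : ℕ} (hb : b < ν.length)
    (hc : ν.length ≤ c) : Cmb_m ν ex L N c g (N.idxOf w * c + b) = crd ν ex L (g w) b := by
  have hbc : b < c := lt_of_lt_of_le hb hc
  have hc0 : 0 < c := by omega
  have h1 : (N.idxOf w * c + b) / c = N.idxOf w := by
    rw [mul_comm, Nat.mul_add_div hc0, Nat.div_eq_of_lt hbc, add_zero]
  have h2 : (N.idxOf w * c + b) % c = b := by
    rw [mul_comm, Nat.mul_add_mod, Nat.mod_eq_of_lt hbc]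
  unfold Cmb_m
  rw [h1, h2, Cmb_idx hw, if_pos]
  exact ⟨List.idxOf_lt_length_iff.2 hw, rfl, hb⟩

private theorem Cmb_m_out {ν : List (ℕ → ℤ)} (ex : ℕ → Tm) (L : ℕ) {N : List (List Bool)} {c : ℕ}
    (g : List Bool →₀ Fn) {q : ℕ}
    (hq : ∀ w ∈ N, ∀ b < ν.length, N.idxOf w * c + b ≠ q) : Cmb_m ν ex L N c g q = 0 := by
  unfold Cmb_m
  rw [if_neg]
  rintro ⟨h1, h2, h3⟩
  have h4 : N.getD (q / c) [] ∈ N := by
    rw [List.getD_eq_getElem _ _ h1]
    exact List.getElem_mem _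
  refine hq _ h4 _ h3 ?_
  rw [h2]
  exact Nat.div_add_mod' q c

private theorem Cmb_prod {ν : List (ℕ → ℤ)} (ex : ℕ → Tm) (L : ℕ) {N : List (List Bool)} {n : ℕ}
    (hN : N.length ≤ n) (hl : ν.length ≤ n) (g : List Bool →₀ Fn) {K : Type} [Field K]
    (V : ℕ → K) :
    ∏ w ∈ N.toFinset, ∏ b ∈ range ν.length, V (N.idxOf w * (n + 1) + b) ^ crd ν ex L (g w) b =
      ∏ q ∈ range ((n + 1) * (n + 1)), V q ^ Cmb_m ν ex L N (n + 1) g q := by
  rw [← Finset.prod_product' N.toFinset (range ν.length)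
    (fun w b => V (N.idxOf w * (n + 1) + b) ^ crd ν ex L (g w) b)]
  refine Finset.prod_of_injOn (fun x : List Bool × ℕ => N.idxOf x.1 * (n + 1) + x.2) ?_ ?_ ?_ ?_
  · rintro ⟨w, b⟩ h1 ⟨w', b'⟩ h2 h3
    have h1' := Finset.mem_product.1 (Finset.mem_coe.1 h1)
    have h2' := Finset.mem_product.1 (Finset.mem_coe.1 h2)
    simp only [List.mem_toFinset, Finset.mem_range] at h1' h2' h3
    have hb : b < n + 1 := by omega
    have hb' : b' < n + 1 := by omega
    have e1 : N.idxOf w = N.idxOf w' := by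
      have h4 : (N.idxOf w * (n + 1) + b) / (n + 1) = (N.idxOf w' * (n + 1) + b') / (n + 1) := by
        rw [h3]
      rwa [mul_comm, Nat.mul_add_div (Nat.succ_pos n), Nat.div_eq_of_lt hb, add_zero, mul_comm,
        Nat.mul_add_div (Nat.succ_pos n), Nat.div_eq_of_lt hb', add_zero] at h4
    have e2 : b = b' := by
      rw [e1] at h3
      omega
    have e3 : w = w' := by
      rw [← Cmb_idx h1'.1, ← Cmb_idx h2'.1, e1]
    rw [e2, e3]
  · rintro ⟨w, b⟩ h1
    have h1' := Finset.mem_product.1 (Finset.mem_coe.1 h1)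
    simp only [List.mem_toFinset, Finset.mem_range] at h1'
    have h2 : N.idxOf w < N.length := List.idxOf_lt_length_iff.2 h1'.1
    refine Finset.mem_coe.2 (Finset.mem_range.2 ?_)
    show N.idxOf w * (n + 1) + b < (n + 1) * (n + 1)
    have h3 : (N.idxOf w + 1) * (n + 1) ≤ (n + 1) * (n + 1) :=
      Nat.mul_le_mul_right _ (by omega)
    have h4 : (N.idxOf w + 1) * (n + 1) = N.idxOf w * (n + 1) + (n + 1) := by ring
    omega
  · intro q _ hq
    rw [Cmb_m_out ex L g, zpow_zero]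
    intro w hw b hb hbq
    refine hq ⟨(w, b), ?_, hbq⟩
    exact Finset.mem_coe.2 (Finset.mem_product.2 ⟨List.mem_toFinset.2 hw, Finset.mem_range.2 hb⟩)
  · rintro ⟨w, b⟩ h1
    have h1' := Finset.mem_product.1 h1
    simp only [List.mem_toFinset, Finset.mem_range] at h1'
    show V (N.idxOf w * (n + 1) + b) ^ crd ν ex L (g w) b =
      V (N.idxOf w * (n + 1) + b) ^ Cmb_m ν ex L N (n + 1) g (N.idxOf w * (n + 1) + b)
    rw [Cmb_m_eq ex L g h1'.1 h1'.2 (by omega)]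

private theorem Cmb_zv {e x : List Bool} {v : ℕ} (hr : 2 ^ v ≤ bval e + 2) (hx : x.length = v)
    (h0 : bval x ≠ 0) : zv e x ≠ 0 := by
  unfold zv
  intro h
  have h1 : (bval e + 2) ∣ bval x := (ZMod.natCast_eq_zero_iff _ _).1 h
  have h2 := Nat.le_of_dvd (Nat.pos_of_ne_zero h0) h1
  have h3 : bval x < 2 ^ v := by
    have h4 : ∃ ω : Fin v → Bool, List.ofFn ω = x := by
      subst hx
      exact ⟨fun i => x.get i, List.ofFn_get x⟩
    obtain ⟨ω, rfl⟩ := h4
    have := Pool.Agent.TI.XA_le ω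
    unfold Pool.Agent.TI.XA at this
    omega
  omega

theorem cnt_comb {ex : ℕ → Tm} {L : ℕ} {e : List Bool} {v n P : ℕ}
    (hp : (bval e + 2).Prime) (hr : 2 ^ v ≤ bval e + 2) {N : List (List Bool)}
    (hN : N.length ≤ n) {tab : List (List SI)} (hc : Coh ex L (tab.map irow))
    (hf : Fai ex L (tab.map irow)) (hP : ∀ row ∈ tab.map irow, ∀ a, |row a| ≤ P)
    (hl : tab.length ≤ n) {J : Type} (s : Finset J) (t : J → Tm)
    (hA : ∀ j ∈ s, Ae (atoms N ex L) 1 (t j)) (hsz : ∀ j ∈ s, (t j).sz ≤ n + 1)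
    (θ : J → ZMod (bval e + 2))
    (hθ : ∃ g, ∑ j ∈ s, θ j * ((re 1 (t j) g : ℤ) : ZMod (bval e + 2)) ≠ 0) :
    2 ^ v * cnt (((n + 1) * (n + 1)) * v) (fun Z =>
      ∑ j ∈ s, θ j * he (chi (wfun e v (n + 1) N Z) (tab.map irow) ex L) 1 (t j) = 0) ≤
      (2 * ((n + 1) * P) * ((n + 1) * (n + 1)) + (n + 1) * (n + 1)) *
        (2 ^ v) ^ ((n + 1) * (n + 1)) := by
  classical
  have := Fact.mk hp
  set ν := tab.map irow with hν
  have hνl : ν.length ≤ n := by
    rw [hν, List.length_map]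
    exact hl
  set G : Finset (List Bool →₀ Fn) := s.biUnion fun j => (re 1 (t j)).support with hG
  have hGs : ∀ g ∈ G, ∃ j ∈ s, g ∈ (re 1 (t j)).support := fun g hg => Finset.mem_biUnion.1 hg
  have hGsub : ∀ j ∈ s, (re 1 (t j)).support ⊆ G := fun j hj g hg =>
    Finset.mem_biUnion.2 ⟨j, hj, hg⟩
  have hA' : ∀ j ∈ s, Ae {p | p.2 ∈ Sp ex L} 1 (t j) := fun j hj =>
    Ae.mono atoms_sub (hA j hj)
  have hsup : ∀ g ∈ G, (∀ w, g w ∈ Sp ex L) ∧ ∀ w, g w ≠ 0 → w ∈ N := fun g hg => by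
    obtain ⟨j, hj, h1⟩ := hGs g hg
    have h2 := supp_atoms (hA j hj) h1
    exact h2
  have hbd : ∀ g ∈ G, ∀ w b, |crd ν ex L (g w) b| ≤ ((n + 1 : ℕ) : ℤ) * P := fun g hg w b => by
    obtain ⟨j, hj, h1⟩ := hGs g hg
    exact crd_bound hc hP (hA j hj) (hsz j hj) h1 w b
  set p : (List Bool →₀ Fn) → ZMod (bval e + 2) := fun g =>
    ∑ j ∈ s, θ j * ((re 1 (t j) g : ℤ) : ZMod (bval e + 2)) with hpdef
  have hp0 : ∃ g ∈ G, p g ≠ 0 := by
    obtain ⟨g, hg⟩ := hθ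
    refine ⟨g, ?_, hg⟩
    obtain ⟨j, hj, h1⟩ := Finset.exists_ne_zero_of_sum_ne_zero hg
    refine hGsub j hj (Finsupp.mem_support_iff.2 fun h2 => h1 ?_)
    rw [h2, Int.cast_zero, mul_zero]
  have hinj : Set.InjOn (fun (g : List Bool →₀ Fn) (q : Fin ((n + 1) * (n + 1))) =>
      Cmb_m ν ex L N (n + 1) g q.1) G := by
    intro g hg g' hg' hgg
    have h1 := hsup g (Finset.mem_coe.1 hg)
    have h2 := hsup g' (Finset.mem_coe.1 hg')
    ext1 w
    by_cases hw : w ∈ N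
    · refine crd_inj hc hf (h1.1 w) (h2.1 w) fun b hb => ?_
      have h3 : N.idxOf w < N.length := List.idxOf_lt_length_iff.2 hw
      have h4 : N.idxOf w * (n + 1) + b < (n + 1) * (n + 1) := by
        have h5 : (N.idxOf w + 1) * (n + 1) ≤ (n + 1) * (n + 1) :=
          Nat.mul_le_mul_right _ (by omega)
        have h6 : (N.idxOf w + 1) * (n + 1) = N.idxOf w * (n + 1) + (n + 1) := by ring
        omega
      have h7 := congrFun hgg ⟨_, h4⟩
      simp only at h7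
      rwa [Cmb_m_eq ex L g hw hb (by omega), Cmb_m_eq ex L g' hw hb (by omega)] at h7
    · have h3 : g w = 0 := by
        by_contra h4
        exact hw (h1.2 w h4)
      have h4 : g' w = 0 := by
        by_contra h4
        exact hw (h2.2 w h4)
      rw [h3, h4]
  have hD : ∀ g ∈ G, ∀ q : Fin ((n + 1) * (n + 1)),
      |Cmb_m ν ex L N (n + 1) g q.1| ≤ (((n + 1) * P : ℕ) : ℤ) := by
    intro g hg q
    unfold Cmb_m
    split_ifs with h1
    · push_cast
      have := hbd g hg (N.getD (q.1 / (n + 1)) []) (q.1 % (n + 1))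
      push_cast at this
      exact this
    · rw [abs_zero]
      positivity
  have hz := laurent_zeros hr G (fun g (q : Fin ((n + 1) * (n + 1))) =>
    Cmb_m ν ex L N (n + 1) g q.1) hinj hD p hp0
  refine le_trans (Nat.mul_le_mul_left _ ?_) hz
  rw [cnt_fam]
  refine Nat.card_le_card_of_injective (fun ρ : {ρ : Fin ((n + 1) * (n + 1)) → Fin v → Bool //
    ∑ j ∈ s, θ j * he (chi (wfun e v (n + 1) N (Pool.Agent.TI.join ρ)) ν ex L) 1 (t j) = 0} =>
    (⟨ρ.1, ?_⟩ : {ω : Fin ((n + 1) * (n + 1)) → Fin v → Bool //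
      (∃ q, bval (List.ofFn (ω q)) = 0) ∨
      ∑ g ∈ G, p g * ∏ q : Fin ((n + 1) * (n + 1)),
        ((bval (List.ofFn (ω q)) : ℕ) : ZMod (bval e + 2)) ^ (Cmb_m ν ex L N (n + 1) g q.1) = 0}))
    fun a b hab => Subtype.ext (Subtype.mk.inj hab)
  obtain ⟨ω, hω⟩ := ρ
  show (∃ q, bval (List.ofFn (ω q)) = 0) ∨ ∑ g ∈ G, p g * ∏ q : Fin ((n + 1) * (n + 1)),
        ((bval (List.ofFn (ω q)) : ℕ) : ZMod (bval e + 2)) ^ (Cmb_m ν ex L N (n + 1) g q.1) = 0
  by_cases h0 : ∃ q, bval (List.ofFn (ω q)) = 0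
  · exact Or.inl h0
  right
  push Not at h0
  refine Eq.trans ?_ hω
  rw [he_sum (chi_chr _ hc) s t hA' θ G hGsub]
  refine Finset.sum_congr rfl fun g hg => ?_
  congr 1
  set Z := Pool.Agent.TI.join ω with hZ
  have hb : ∀ q : Fin ((n + 1) * (n + 1)), Pool.Agent.TE.bl v Z q.1 = List.ofFn (ω q) := fun q =>
    Pool.Agent.TE.bl_join ω q.1 q.2
  have h5 : ∀ q ∈ range ((n + 1) * (n + 1)),
      ((wun e (Pool.Agent.TE.bl v Z q) : (ZMod (bval e + 2))ˣ) : ZMod (bval e + 2)) =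
        zv e (Pool.Agent.TE.bl v Z q) := by
    intro q hq
    refine wun_val hp ?_
    have hq' := Finset.mem_range.1 hq
    have h6 := hb ⟨q, hq'⟩
    simp only at h6
    rw [h6]
    exact Cmb_zv hr (by simp) (h0 _)
  -- the left side
  have h6 : ∏ q : Fin ((n + 1) * (n + 1)),
      ((bval (List.ofFn (ω q)) : ℕ) : ZMod (bval e + 2)) ^ (Cmb_m ν ex L N (n + 1) g q.1) =
      ∏ q ∈ range ((n + 1) * (n + 1)),
        (zv e (Pool.Agent.TE.bl v Z q)) ^ (Cmb_m ν ex L N (n + 1) g q) := by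
    rw [Finset.prod_range]
    refine Finset.prod_congr rfl fun q _ => ?_
    rw [hb q]
    rfl
  rw [h6]
  have h7 : ∏ q ∈ range ((n + 1) * (n + 1)),
        (zv e (Pool.Agent.TE.bl v Z q)) ^ (Cmb_m ν ex L N (n + 1) g q) =
      ∏ q ∈ range ((n + 1) * (n + 1)),
        ((wun e (Pool.Agent.TE.bl v Z q) : (ZMod (bval e + 2))ˣ) : ZMod (bval e + 2)) ^
          (Cmb_m ν ex L N (n + 1) g q) := by
    refine Finset.prod_congr rfl fun q hq => ?_
    rw [h5 q hq]
  rw [h7, ← Cmb_prod ex L hN hνl g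
    (fun q => ((wun e (Pool.Agent.TE.bl v Z q) : (ZMod (bval e + 2))ˣ) : ZMod (bval e + 2)))]
  rw [Finsupp.prod_of_support_subset g (s := N.toFinset) ?_ _ (fun w _ => (chi_chr _ hc).zero w)]
  · refine Finset.prod_congr rfl fun w _ => ?_
    rw [chi_crd, Units.coe_prod]
    refine Finset.prod_congr rfl fun b _ => ?_
    rw [Units.val_zpow_eq_zpow_val]
    rfl
  · intro w hw
    exact List.mem_toFinset.2 ((hsup g hg).2 w (Finsupp.mem_support_iff.1 hw))

end Pool.Agent.TN
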