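import Pool.Agent.H.MP_b2d7dd_lc.TN.Chi

/-!
# Module Crd: coordinates

The same as TW/Crd.
-/

namespace Pool.Agent.TN

open Pool.Agent.TI Pool.Agent.TW Finset

open Classical in
/-- The coordinates of a function. -/
noncomputable def crd (ν : List (ℕ → ℤ)) (ex : ℕ → Tm) (L : ℕ) (f : Fn) (b : ℕ) : ℤ :=
  if h : ∃ k : ℕ → ℤ, f = ∑ a ∈ range L, k a • ev ex a then
    ∑ a ∈ range L, h.choose a * (ν.getD b 0) a
  else 0

theorem chi_crd {K : Type} [CommRing K] (W : List Bool → ℕ → Kˣ) (ν : List (ℕ → ℤ))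
    (ex : ℕ → Tm) (L : ℕ) (w : List Bool) (f : Fn) :
    chi W ν ex L w f = ↑(∏ b ∈ range ν.length, W w b ^ crd ν ex L f b) := by
  unfold chi crd
  by_cases h : ∃ k : ℕ → ℤ, f = ∑ a ∈ range L, k a • ev ex a
  · rw [dif_pos h]
    congr 1
    refine Finset.prod_congr rfl fun b _ => ?_
    rw [dif_pos h]
  · rw [dif_neg h, Finset.prod_eq_one, Units.val_one]
    intro b _
    rw [dif_neg h, zpow_zero]

theorem crd_eq {ν : List (ℕ → ℤ)} {ex : ℕ → Tm} {L : ℕ} (hc : Coh ex L ν) (k : ℕ → ℤ)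
    (b : ℕ) : crd ν ex L (∑ a ∈ range L, k a • ev ex a) b =
      ∑ a ∈ range L, k a * (ν.getD b 0) a := by
  have h : ∃ k' : ℕ → ℤ, ∑ a ∈ range L, k a • ev ex a =
      ∑ a ∈ range L, k' a • ev ex a := ⟨k, rfl⟩
  unfold crd
  rw [dif_pos h]
  have h1 : ∑ a ∈ range L, (h.choose a - k a) • ev ex a = 0 := by
    have h2 := h.choose_spec
    simp only [sub_smul, Finset.sum_sub_distrib]
    rw [← h2, sub_self]
  by_cases hb : b < ν.length
  · have hrow : ν.getD b 0 ∈ ν := by
      rw [List.getD_eq_getElem _ _ hb]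
      exact List.getElem_mem _
    have h3 := hc (fun a => h.choose a - k a) h1 _ hrow
    simp only [sub_mul, Finset.sum_sub_distrib] at h3
    exact sub_eq_zero.1 h3
  · have h4 : ν.getD b 0 = 0 := List.getD_eq_default _ _ (not_lt.1 hb)
    rw [h4]
    simp

theorem crd_zero {ν : List (ℕ → ℤ)} {ex : ℕ → Tm} {L : ℕ} (hc : Coh ex L ν) (b : ℕ) :
    crd ν ex L 0 b = 0 := by
  have h1 : (0 : Fn) = ∑ a ∈ range L, (0 : ℕ → ℤ) a • ev ex a := by simp
  rw [h1, crd_eq hc]
  simp

theorem crd_inj {ν : List (ℕ → ℤ)} {ex : ℕ → Tm} {L : ℕ} (hc : Coh ex L ν) (hf : Fai ex L ν)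
    {f f' : Fn} (h : f ∈ Sp ex L) (h' : f' ∈ Sp ex L)
    (he : ∀ b < ν.length, crd ν ex L f b = crd ν ex L f' b) : f = f' := by
  obtain ⟨k, rfl⟩ := h
  obtain ⟨l, rfl⟩ := h'
  have h1 : ∀ row ∈ ν, ∑ a ∈ range L, (k a - l a) * row a = 0 := by
    intro row hrow
    obtain ⟨b, hb, hbr⟩ := List.getElem_of_mem hrow
    have h2 := he b hb
    rw [crd_eq hc, crd_eq hc, List.getD_eq_getElem _ _ hb, hbr] at h2
    simp only [sub_mul, Finset.sum_sub_distrib]
    rw [h2, sub_self]
  have h3 := hf (fun a => k a - l a) h1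
  simp only [sub_smul, Finset.sum_sub_distrib] at h3
  exact sub_eq_zero.1 h3

/-- Sums of atoms. -/
private theorem Crd_list {ν : List (ℕ → ℤ)} {N : List (List Bool)} {ex : ℕ → Tm} {L P : ℕ}
    (hP : ∀ row ∈ ν, ∀ a, |row a| ≤ P) (w : List Bool) :
    ∀ l : List (List Bool × Fn), (∀ p ∈ l, p ∈ atoms N ex L) →
      ∃ k : ℕ → ℤ, ((l.map fun p => Finsupp.single p.1 p.2).sum : List Bool →₀ Fn) w =
        ∑ a ∈ range L, k a • ev ex a ∧
        ∀ b, |∑ a ∈ range L, k a * (ν.getD b 0) a| ≤ l.length * P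
  | [], _ => ⟨0, by simp, fun b => by simp⟩
  | p :: l, hl => by
    obtain ⟨k, hk1, hk2⟩ := Crd_list hP w l fun q hq => hl q (List.mem_cons_of_mem _ hq)
    obtain ⟨-, a, ha, hpa⟩ := hl p List.mem_cons_self
    have hrow : ∀ b, |(ν.getD b 0) a| ≤ (P : ℤ) := by
      intro b
      by_cases hb : b < ν.length
      · rw [List.getD_eq_getElem _ _ hb]
        exact hP _ (List.getElem_mem _) a
      · rw [List.getD_eq_default _ _ (not_lt.1 hb)]
        simp
    by_cases hw : p.1 = w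
    · refine ⟨fun a' => (if a' = a then (1 : ℤ) else 0) + k a', ?_, fun b => ?_⟩
      · rw [List.map_cons, List.sum_cons, Finsupp.add_apply, hk1, hw, Finsupp.single_eq_same, hpa,
          Chi_single ha]
        simp only [add_smul, Finset.sum_add_distrib]
      · have h1 : ∑ a' ∈ range L, ((if a' = a then (1 : ℤ) else 0) + k a') * (ν.getD b 0) a' =
            (ν.getD b 0) a + ∑ a' ∈ range L, k a' * (ν.getD b 0) a' := by
          simp only [add_mul, Finset.sum_add_distrib]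
          congr 1
          rw [Finset.sum_eq_single_of_mem a (mem_range.2 ha)]
          · rw [if_pos rfl, one_mul]
          · intro c _ hc
            rw [if_neg hc, zero_mul]
        rw [h1, List.length_cons]
        push_cast
        calc |(ν.getD b 0) a + ∑ a' ∈ range L, k a' * (ν.getD b 0) a'|
            ≤ |(ν.getD b 0) a| + |∑ a' ∈ range L, k a' * (ν.getD b 0) a'| := abs_add_le _ _
          _ ≤ P + l.length * P := add_le_add (hrow b) (hk2 b)
          _ = (l.length + 1) * P := by ring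
    · refine ⟨k, ?_, fun b => ?_⟩
      · rw [List.map_cons, List.sum_cons, Finsupp.add_apply, hk1,
          Finsupp.single_eq_of_ne (Ne.symm hw), zero_add]
      · refine (hk2 b).trans ?_
        rw [List.length_cons]
        push_cast
        nlinarith [Int.natCast_nonneg P]

theorem crd_bound {ν : List (ℕ → ℤ)} {N : List (List Bool)} {ex : ℕ → Tm} {L : ℕ}
    (hc : Coh ex L ν) {P : ℕ} (hP : ∀ row ∈ ν, ∀ a, |row a| ≤ P) {t : Tm}
    (ht : Ae (atoms N ex L) 1 t) {m : ℕ} (hm : t.sz ≤ m) {g : List Bool →₀ Fn}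
    (hg : g ∈ (re 1 t).support) (w : List Bool) (b : ℕ) :
    |crd ν ex L (g w) b| ≤ m * P := by
  obtain ⟨l, hl1, hl2, rfl⟩ := re_supp ht g hg
  obtain ⟨k, hk1, hk2⟩ := Crd_list hP w l hl2
  rw [hk1, crd_eq hc]
  refine (hk2 b).trans ?_
  have h1 : (l.length : ℤ) ≤ m := by exact_mod_cast hl1.trans hm
  exact mul_le_mul_of_nonneg_right h1 (Int.natCast_nonneg P)

/-- The support and the exponents of the monomials of a term. -/
theorem supp_atoms {N : List (List Bool)} {ex : ℕ → Tm} {L : ℕ} {t : Tm}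
    (ht : Ae (atoms N ex L) 1 t) {g : List Bool →₀ Fn} (hg : g ∈ (re 1 t).support) :
    (∀ w, g w ∈ Sp ex L) ∧ ∀ w, g w ≠ 0 → w ∈ N := by
  obtain ⟨l, -, hl2, rfl⟩ := re_supp ht g hg
  refine ⟨fun w => ?_, fun w => ?_⟩
  · obtain ⟨k, hk1, -⟩ := Crd_list (ν := []) (P := 0) (by simp) w l hl2
    exact ⟨k, hk1⟩
  · clear hg
    induction l with
    | nil => intro h; simp at h
    | cons p l ih =>
      intro h
      rw [List.map_cons, List.sum_cons, Finsupp.add_apply] at h
      by_cases hw : p.1 = w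
      · rw [← hw]
        exact (hl2 p List.mem_cons_self).1
      · rw [Finsupp.single_eq_of_ne (Ne.symm hw), zero_add] at h
        exact ih (fun q hq => hl2 q (List.mem_cons_of_mem _ hq)) h

end Pool.Agent.TN
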