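import Pool.Agent.H.MP_b2d7dd_lc.TN.Exs

/-!
# Module Cx: the lists of the exponents

State of the machine: the stack contains for every term the number of its first token (the tokens
are numbered from the right) and the list of the numbers of its variables to which a further
exponent would apply; the second component contains for every token the list of the numbers of (the
first tokens of) the exponents applied to it so far, the outermost exponent first.
`cx_term`: induction on `u` for all `c`, `i` and all states. In the case of a power `s ^ t` the number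
`i + sz t - 1` of `t` is added to the lists of the open variables of `s` (all of them have numbers
`≥ i + sz t`). `cx_spec`: `cx_term` for `t` and for `s` (`placed_pair`). `fam_exs`: `cx_spec`,
`placed_at`, `exs_ns`, `exs_sz` (`Ae A 1` of a product is the conjunction).
-/

namespace Pool.Agent.TN

open Pool.Agent.TI Pool.Agent.TW Finset

/-- The number `r` is added to the lists of the numbers in `L`. -/
def cadd (r : ℕ) (L : List ℕ) (cx : List (List ℕ)) : List (List ℕ) :=
  (List.range cx.length).map fun a =>
    bif decide (a ∈ L) then r :: cx.getD a [] else cx.getD a []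

/-- One step. -/
def cstep (q : Tok) (s : List (ℕ × List ℕ) × List (List ℕ)) :
    List (ℕ × List ℕ) × List (List ℕ) :=
  bif decide (q.1 = 0) then ((s.2.length, []) :: s.1, s.2 ++ [[]])
  else bif decide (q.1 = 4) then ((s.2.length, [s.2.length]) :: s.1, s.2 ++ [[]])
  else bif decide (q.1 = 3) then
    ((s.2.length, (s.1.headD (0, [])).2) :: s.1.tail.tail,
      cadd (s.1.tail.headD (0, [])).1 (s.1.headD (0, [])).2 s.2 ++ [[]])
  else
    ((s.2.length, (s.1.headD (0, [])).2 ++ (s.1.tail.headD (0, [])).2) :: s.1.tail.tail,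
      s.2 ++ [[]])

/-- The lists of the exponents. -/
def cxl (T : List Tok) : List (List ℕ) := (T.foldr cstep ([], [])).2

/-- the number `r` is added to the lists of the numbers in `L`, for entries with numbers from `k` -/
private def Cx_mod (r : ℕ) (L : List ℕ) (k : ℕ) (B : List (List ℕ)) : List (List ℕ) :=
  (List.range B.length).map fun j =>
    bif decide (k + j ∈ L) then r :: B.getD j [] else B.getD j []

private theorem Cx_mod_length (r : ℕ) (L : List ℕ) (k : ℕ) (B : List (List ℕ)) :
    (Cx_mod r L k B).length = B.length := by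
  simp [Cx_mod]

private theorem Cx_mod_getD (r : ℕ) (L : List ℕ) (k : ℕ) (B : List (List ℕ)) {j : ℕ}
    (hj : j < B.length) : (Cx_mod r L k B).getD j [] =
      if k + j ∈ L then r :: B.getD j [] else B.getD j [] := by
  rw [List.getD_eq_getElem _ _ (by rw [Cx_mod_length]; exact hj)]
  simp only [Cx_mod, List.getElem_map, List.getElem_range, Bool.cond_decide]

private theorem Cx_cadd (r : ℕ) (L : List ℕ) (A B : List (List ℕ))
    (hL : ∀ a ∈ L, A.length ≤ a) : cadd r L (A ++ B) = A ++ Cx_mod r L A.length B := by
  refine List.ext_getElem ?_ fun i h1 h2 => ?_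
  · rw [List.length_append, Cx_mod_length, cadd, List.length_map, List.length_range,
      List.length_append]
  · have hlen : i < A.length + B.length := by
      simpa [Cx_mod_length] using h2
    simp only [cadd, List.getElem_map, List.getElem_range, Bool.cond_decide]
    by_cases hi : i < A.length
    · rw [if_neg fun h => absurd (hL i h) (not_le.2 hi), List.getElem_append_left hi,
        List.getD_append _ _ _ _ hi, List.getD_eq_getElem _ _ hi]
    · rw [List.getElem_append_right (not_lt.1 hi), List.getD_append_right _ _ _ _ (not_lt.1 hi)]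
      simp only [Cx_mod, List.getElem_map, List.getElem_range, Bool.cond_decide]
      rw [Nat.add_sub_cancel' (not_lt.1 hi)]

/-- the property of the entry number `j` -/
private def Cx_Q (X : List Tm) (T : List Tok) (i : ℕ) (c u : Tm) (lv : List ℕ)
    (tl : List (List ℕ)) (j : ℕ) : Prop :=
  ∃ ts : List (ℕ × Tm), tl.getD j [] = ts.map (fun p => p.1 + p.2.sz - 1) ∧
    (exs c u).getD j .one =
      ts.foldl (fun c p => .mul c p.2) (if (i + j) ∈ lv then c else .one) ∧
    ∀ p ∈ ts, Placed X T p.1 .one p.2 ∧ p.1 + p.2.sz ≤ i + j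

private theorem Cx_left {A B C : List (List ℕ)} {j k : ℕ} (hA : A.length = k) (hj : j < k) :
    (A ++ (B ++ C)).getD j [] = A.getD j [] :=
  List.getD_append _ _ _ _ (by omega)

private theorem Cx_mid {A B C : List (List ℕ)} {j k l : ℕ} (hA : A.length = k)
    (hB : B.length = l) (hj : j < l) : (A ++ (B ++ C)).getD (k + j) [] = B.getD j [] := by
  rw [List.getD_append_right _ _ _ _ (by omega), List.getD_append _ _ _ _ (by omega)]
  congr 1
  omega

private theorem Cx_end {A B : List (List ℕ)} {k l : ℕ} (hA : A.length = k)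
    (hB : B.length = l) : (A ++ (B ++ [[]])).getD (k + l) [] = [] := by
  rw [List.getD_append_right _ _ _ _ (by omega), List.getD_append_right _ _ _ _ (by omega)]
  have : k + l - A.length - B.length = 0 := by omega
  rw [this]
  rfl

private theorem Cx_eleft {A B C : List Tm} {j k : ℕ} (hA : A.length = k) (hj : j < k) :
    (A ++ B ++ C).getD j .one = A.getD j .one := by
  rw [List.append_assoc]
  exact List.getD_append _ _ _ _ (by omega)

private theorem Cx_emid {A B C : List Tm} {j k l : ℕ} (hA : A.length = k)
    (hB : B.length = l) (hj : j < l) : (A ++ B ++ C).getD (k + j) .one = B.getD j .one := by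
  rw [List.append_assoc, List.getD_append_right _ _ _ _ (by omega),
    List.getD_append _ _ _ _ (by omega)]
  congr 1
  omega

private theorem Cx_eend {A B : List Tm} {k l : ℕ} (hA : A.length = k)
    (hB : B.length = l) : (A ++ B ++ [Tm.one]).getD (k + l) .one = .one := by
  rw [List.append_assoc, List.getD_append_right _ _ _ _ (by omega),
    List.getD_append_right _ _ _ _ (by omega)]
  have : k + l - A.length - B.length = 0 := by omega
  rw [this]
  rfl

/-- the parts of a sum or of a product -/
private theorem Cx_two {X : List Tm} {T : List Tok} {i : ℕ} {c s t u : Tm}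
    (hu : exs c u = exs c t ++ exs c s ++ [.one]) (hsz : u.sz = s.sz + t.sz + 1)
    {lt ls : List ℕ} {tt ts : List (List ℕ)} (ht : tt.length = t.sz) (hs : ts.length = s.sz)
    (hlt : ∀ a ∈ lt, i ≤ a ∧ a < i + t.sz)
    (hls : ∀ a ∈ ls, i + t.sz ≤ a ∧ a < i + t.sz + s.sz)
    (h1 : ∀ j < t.sz, Cx_Q X T i c t lt tt j) (h2 : ∀ j < s.sz, Cx_Q X T (i + t.sz) c s ls ts j) :
    (∀ a ∈ ls ++ lt, i ≤ a ∧ a < i + u.sz) ∧
      ∀ j < u.sz, Cx_Q X T i c u (ls ++ lt) (tt ++ (ts ++ [[]])) j := by
  have hel := exs_length c t
  have hes := exs_length c s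
  refine ⟨fun a ha => ?_, fun j hj => ?_⟩
  · rcases List.mem_append.1 ha with h | h
    · have := hls a h
      omega
    · have := hlt a h
      omega
  · rcases lt_trichotomy j (t.sz + s.sz) with h | h | h
    · by_cases hjt : j < t.sz
      · obtain ⟨l, q1, q2, q3⟩ := h1 j hjt
        refine ⟨l, by rw [Cx_left ht hjt, q1], ?_, q3⟩
        rw [hu, Cx_eleft hel hjt, q2]
        congr 1
        have : (i + j ∈ ls ++ lt) ↔ (i + j ∈ lt) := by
          rw [List.mem_append]
          refine ⟨fun h => h.resolve_left fun h' => ?_, Or.inr⟩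
          have := hls _ h'
          omega
        simp only [this]
      · obtain ⟨j', rfl⟩ := Nat.exists_eq_add_of_le (not_lt.1 hjt)
        have hj' : j' < s.sz := by omega
        obtain ⟨l, q1, q2, q3⟩ := h2 j' hj'
        refine ⟨l, by rw [Cx_mid ht hs hj', q1], ?_, fun p hp => ?_⟩
        · rw [hu, Cx_emid hel hes hj', q2]
          congr 1
          have : (i + (t.sz + j') ∈ ls ++ lt) ↔ (i + t.sz + j' ∈ ls) := by
            rw [List.mem_append, ← add_assoc]
            refine ⟨fun h => h.resolve_right fun h' => ?_, Or.inl⟩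
            have := hlt _ h'
            omega
          simp only [this]
        · have := q3 p hp
          rw [← add_assoc]
          exact this
    · subst h
      refine ⟨[], by rw [Cx_end ht hs]; rfl, ?_, fun p hp => absurd hp List.not_mem_nil⟩
      rw [hu, Cx_eend hel hes, if_neg]
      · rfl
      · intro h
        rcases List.mem_append.1 h with h | h
        · have := hls _ h
          omega
        · have := hlt _ h
          omega
    · omega

theorem cx_term {X : List Tm} {T : List Tok} (u : Tm) : ∀ (c : Tm) (i : ℕ)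
    (_ : Placed X T i c u) (stk : List (ℕ × List ℕ)) (cx0 : List (List ℕ)) (_ : cx0.length = i),
    ∃ (lv : List ℕ) (tl : List (List ℕ)),
      u.toks.foldr cstep (stk, cx0) = ((i + u.sz - 1, lv) :: stk, cx0 ++ tl) ∧
      tl.length = u.sz ∧ (∀ a ∈ lv, i ≤ a ∧ a < i + u.sz) ∧
      ∀ j < u.sz, ∃ ts : List (ℕ × Tm), tl.getD j [] = ts.map (fun p => p.1 + p.2.sz - 1) ∧
        (exs c u).getD j .one =
          ts.foldl (fun c p => .mul c p.2) (if (i + j) ∈ lv then c else .one) ∧
        ∀ p ∈ ts, Placed X T p.1 .one p.2 ∧ p.1 + p.2.sz ≤ i + j := by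
  induction u with
  | one =>
    intro c i _ stk cx0 h0
    refine ⟨[], [[]], ?_, rfl, fun a ha => absurd ha List.not_mem_nil, fun j hj => ?_⟩
    · have h1 : cstep (0, []) (stk, cx0) = ((cx0.length, []) :: stk, cx0 ++ [[]]) := rfl
      rw [Tm.toks, List.foldr_cons, List.foldr_nil, h1, h0]
      rfl
    · have hj0 : j = 0 := by
        simp only [Tm.sz] at hj
        omega
      subst hj0
      exact ⟨[], rfl, rfl, fun p hp => absurd hp List.not_mem_nil⟩
  | var w =>
    intro c i _ stk cx0 h0
    refine ⟨[i], [[]], ?_, rfl, fun a ha => ?_, fun j hj => ?_⟩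
    · have h1 : cstep (4, w) (stk, cx0) = ((cx0.length, [cx0.length]) :: stk, cx0 ++ [[]]) := rfl
      rw [Tm.toks, List.foldr_cons, List.foldr_nil, h1, h0]
      rfl
    · rw [List.mem_singleton] at ha
      subst ha
      simp only [Tm.sz]
      omega
    · have hj0 : j = 0 := by
        simp only [Tm.sz] at hj
        omega
      subst hj0
      refine ⟨[], rfl, ?_, fun p hp => absurd hp List.not_mem_nil⟩
      rw [if_pos (by simp)]
      rfl
  | add s t ihs iht =>
    intro c i hP stk cx0 h0
    obtain ⟨hPt, hPs⟩ := hP.add_iff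
    obtain ⟨lt, tt, a1, a2, a3, a4⟩ := iht c i hPt stk cx0 h0
    obtain ⟨ls, ts, b1, b2, b3, b4⟩ := ihs c (i + t.sz) hPs ((i + t.sz - 1, lt) :: stk)
      (cx0 ++ tt) (by rw [List.length_append, h0, a2])
    obtain ⟨d1, d2⟩ := Cx_two (u := .add s t) (by rfl) (by rfl) a2 b2 a3 b3 a4 b4
    refine ⟨ls ++ lt, tt ++ (ts ++ [[]]), ?_, ?_, d1, d2⟩
    · have h1 : ∀ (p q : ℕ × List ℕ) (st : List (ℕ × List ℕ)) (cx : List (List ℕ)),
          cstep (1, []) (p :: q :: st, cx) = ((cx.length, p.2 ++ q.2) :: st, cx ++ [[]]) :=
        fun _ _ _ _ => rfl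
      rw [Tm.toks, List.foldr_cons, List.foldr_append, a1, b1, h1]
      have h2 : (cx0 ++ tt ++ ts).length = i + (Tm.add s t).sz - 1 := by
        rw [List.length_append, List.length_append, h0, a2, b2]
        simp only [Tm.sz]
        omega
      rw [h2]
      simp only [List.append_assoc]
    · rw [List.length_append, List.length_append, a2, b2]
      simp only [Tm.sz, List.length_singleton]
      omega
  | mul s t ihs iht =>
    intro c i hP stk cx0 h0
    obtain ⟨hPt, hPs⟩ := hP.mul_iff
    obtain ⟨lt, tt, a1, a2, a3, a4⟩ := iht c i hPt stk cx0 h0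
    obtain ⟨ls, ts, b1, b2, b3, b4⟩ := ihs c (i + t.sz) hPs ((i + t.sz - 1, lt) :: stk)
      (cx0 ++ tt) (by rw [List.length_append, h0, a2])
    obtain ⟨d1, d2⟩ := Cx_two (u := .mul s t) (by rfl) (by rfl) a2 b2 a3 b3 a4 b4
    refine ⟨ls ++ lt, tt ++ (ts ++ [[]]), ?_, ?_, d1, d2⟩
    · have h1 : ∀ (p q : ℕ × List ℕ) (st : List (ℕ × List ℕ)) (cx : List (List ℕ)),
          cstep (2, []) (p :: q :: st, cx) = ((cx.length, p.2 ++ q.2) :: st, cx ++ [[]]) :=
        fun _ _ _ _ => rfl
      rw [Tm.toks, List.foldr_cons, List.foldr_append, a1, b1, h1]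
      have h2 : (cx0 ++ tt ++ ts).length = i + (Tm.mul s t).sz - 1 := by
        rw [List.length_append, List.length_append, h0, a2, b2]
        simp only [Tm.sz]
        omega
      rw [h2]
      simp only [List.append_assoc]
    · rw [List.length_append, List.length_append, a2, b2]
      simp only [Tm.sz, List.length_singleton]
      omega
  | pow s t ihs iht =>
    intro c i hP stk cx0 h0
    obtain ⟨hPt, hPs⟩ := hP.pow_iff
    obtain ⟨lt, tt, a1, a2, a3, a4⟩ := iht .one i hPt stk cx0 h0
    obtain ⟨ls, ts, b1, b2, b3, b4⟩ := ihs (.mul c t) (i + t.sz) hPs ((i + t.sz - 1, lt) :: stk)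
      (cx0 ++ tt) (by rw [List.length_append, h0, a2])
    have hlen : (cx0 ++ tt).length = i + t.sz := by rw [List.length_append, h0, a2]
    have hmod := Cx_mod_length (i + t.sz - 1) ls (i + t.sz) ts
    have hel := exs_length .one t
    have hes := exs_length (.mul c t) s
    refine ⟨ls, tt ++ (Cx_mod (i + t.sz - 1) ls (i + t.sz) ts ++ [[]]), ?_, ?_,
      fun a ha => ?_, fun j hj => ?_⟩
    · have h1 : ∀ (p q : ℕ × List ℕ) (st : List (ℕ × List ℕ)) (cx : List (List ℕ)),
          cstep (3, []) (p :: q :: st, cx) =
            ((cx.length, p.2) :: st, cadd q.1 p.2 cx ++ [[]]) := fun _ _ _ _ => rfl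
      rw [Tm.toks, List.foldr_cons, List.foldr_append, a1, b1, h1]
      have h2 : (cx0 ++ tt ++ ts).length = i + (Tm.pow s t).sz - 1 := by
        rw [List.length_append, hlen, b2]
        simp only [Tm.sz]
        omega
      rw [h2, Cx_cadd _ _ _ _ (fun a ha => by rw [hlen]; exact (b3 a ha).1), hlen]
      simp only [List.append_assoc]
    · rw [List.length_append, List.length_append, hmod, a2, b2]
      simp only [Tm.sz, List.length_singleton]
      omega
    · have := b3 a ha
      simp only [Tm.sz]
      omega
    · simp only [Tm.sz] at hj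
      rcases lt_trichotomy j (t.sz + s.sz) with h | h | h
      · by_cases hjt : j < t.sz
        · obtain ⟨l, q1, q2, q3⟩ := a4 j hjt
          refine ⟨l, by rw [Cx_left a2 hjt, q1], ?_, q3⟩
          rw [exs, Cx_eleft hel hjt, q2, ite_self, if_neg]
          intro h'
          have := b3 _ h'
          omega
        · obtain ⟨j', rfl⟩ := Nat.exists_eq_add_of_le (not_lt.1 hjt)
          have hj' : j' < s.sz := by omega
          obtain ⟨l, q1, q2, q3⟩ := b4 j' hj'
          have q3' : ∀ p ∈ l, Placed X T p.1 .one p.2 ∧ p.1 + p.2.sz ≤ i + (t.sz + j') := by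
            intro p hp
            rw [← add_assoc]
            exact q3 p hp
          have hg : (tt ++ (Cx_mod (i + t.sz - 1) ls (i + t.sz) ts ++ [[]])).getD (t.sz + j') [] =
              if i + t.sz + j' ∈ ls then (i + t.sz - 1) :: ts.getD j' [] else ts.getD j' [] := by
            rw [Cx_mid a2 (hmod.trans b2) hj', Cx_mod_getD _ _ _ _ (by omega)]
          by_cases hm : i + t.sz + j' ∈ ls
          · refine ⟨(i, t) :: l, ?_, ?_, ?_⟩
            · rw [hg, if_pos hm, q1]
              rfl
            · rw [exs, Cx_emid hel hes hj', q2, if_pos hm, if_pos (by rw [← add_assoc]; exact hm)]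
              rfl
            · intro p hp
              rcases List.mem_cons.1 hp with rfl | hp
              · exact ⟨hPt, by simp only; omega⟩
              · exact q3' p hp
          · refine ⟨l, ?_, ?_, q3'⟩
            · rw [hg, if_neg hm, q1]
            · rw [exs, Cx_emid hel hes hj', q2, if_neg hm, if_neg (by rw [← add_assoc]; exact hm)]
      · subst h
        refine ⟨[], by rw [Cx_end a2 (hmod.trans b2)]; rfl, ?_,
          fun p hp => absurd hp List.not_mem_nil⟩
        rw [exs, Cx_eend hel hes, if_neg]
        · rfl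
        · intro h
          have := b3 _ h
          omega
      · omega

theorem cx_spec (s t : Tm) {a : ℕ} (ha : a < s.sz + t.sz) :
    ∃ ts : List (ℕ × Tm),
      (cxl (s.toks ++ t.toks)).getD a [] = ts.map (fun p => p.1 + p.2.sz - 1) ∧
      (exs .one t ++ exs .one s).getD a .one = ts.foldl (fun c p => .mul c p.2) .one ∧
      ∀ p ∈ ts, Placed (exs .one t ++ exs .one s) (s.toks ++ t.toks) p.1 .one p.2 ∧
        p.1 + p.2.sz ≤ a := by
  obtain ⟨hPt, hPs⟩ := placed_pair s t
  obtain ⟨lt, tt, a1, a2, a3, a4⟩ := cx_term t .one 0 hPt [] [] rfl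
  obtain ⟨ls, ts, b1, b2, b3, b4⟩ := cx_term s .one t.sz hPs [(0 + t.sz - 1, lt)]
    ([] ++ tt) (by rw [List.nil_append, a2])
  have hel := exs_length .one t
  have hes := exs_length .one s
  have hc : cxl (s.toks ++ t.toks) = tt ++ ts := by
    rw [cxl, List.foldr_append, a1, b1, List.nil_append]
  rw [hc]
  by_cases hat : a < t.sz
  · obtain ⟨l, q1, q2, q3⟩ := a4 a hat
    refine ⟨l, ?_, ?_, fun p hp => ?_⟩
    · rw [List.getD_append _ _ _ _ (by omega), q1]
    · rw [List.getD_append _ _ _ _ (by omega), q2, ite_self]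
    · have := q3 p hp
      rw [zero_add] at this
      exact this
  · obtain ⟨j, rfl⟩ := Nat.exists_eq_add_of_le (not_lt.1 hat)
    obtain ⟨l, q1, q2, q3⟩ := b4 j (by omega)
    have e : t.sz + j - t.sz = j := by omega
    refine ⟨l, ?_, ?_, q3⟩
    · rw [List.getD_append_right _ _ _ _ (by omega), a2, e, q1]
    · rw [List.getD_append_right _ _ _ _ (by omega), hel, e, q2, ite_self]

private theorem Cx_fold {A : Set (List Bool × Fn)} (ts : List (ℕ × Tm)) (c : Tm)
    (hc : Ae A 1 c) (h : ∀ p ∈ ts, Ae A 1 p.2) :
    Ae A 1 (ts.foldl (fun c p => .mul c p.2) c) := by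
  induction ts generalizing c with
  | nil => exact hc
  | cons q ts ih =>
    exact ih (.mul c q.2) ⟨hc, h q List.mem_cons_self⟩ fun p hp => h p (List.mem_cons_of_mem _ hp)

private theorem Cx_mem {s t : Tm} (a : ℕ) : (exs .one t ++ exs .one s).getD a .one = .one ∨
    (exs .one t ++ exs .one s).getD a .one ∈ exs .one t ∨
    (exs .one t ++ exs .one s).getD a .one ∈ exs .one s := by
  by_cases h : a < (exs .one t ++ exs .one s).length
  · right
    rw [List.getD_eq_getElem _ _ h]
    exact List.mem_append.1 (List.getElem_mem h)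
  · left
    exact List.getD_eq_default _ _ (not_lt.1 h)

theorem fam_exs {s t : Tm} (hs : NS s) (ht : NS t) {n : ℕ} (hn : s.sz + t.sz ≤ n) :
    Fam n (names (s.toks ++ t.toks)) (s.sz + t.sz)
      (fun a => (exs .one t ++ exs .one s).getD a .one) where
  ns := fun a => by
    rcases Cx_mem (s := s) (t := t) a with h | h | h
    · simp only [h]
      trivial
    · exact exs_ns (c := .one) trivial ht _ h
    · exact exs_ns (c := .one) trivial hs _ h
  sz := fun a => by
    have h1 := Tm.sz_pos s
    have h2 := Tm.sz_pos t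
    rcases Cx_mem (s := s) (t := t) a with h | h | h
    · simp only [h, Tm.sz]
      omega
    · have h3 := exs_sz .one t _ h
      simp only [Tm.sz] at h3 ⊢
      omega
    · have h3 := exs_sz .one s _ h
      simp only [Tm.sz] at h3 ⊢
      omega
  ats := fun a ha => by
    obtain ⟨ts, -, q2, q3⟩ := cx_spec s t ha
    show Ae _ 1 ((exs .one t ++ exs .one s).getD a .one)
    rw [q2]
    refine Cx_fold ts .one trivial fun p hp => ?_
    obtain ⟨h1, h2⟩ := q3 p hp
    have h3 := placed_at h1
    rw [vf_one] at h3
    refine Ae.mono ?_ h3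
    rintro q ⟨g1, b, g2, g3⟩
    exact ⟨g1, b, by omega, g3⟩
  len := by
    have h1 : (names (s.toks ++ t.toks)).length ≤ (s.toks ++ t.toks).length := by
      unfold names
      rw [List.length_map]
      exact List.length_filter_le _ _
    rw [List.length_append, Tm.length_toks, Tm.length_toks] at h1
    omega
  le := hn

end Pool.Agent.TN
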