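import Pool.Agent.H.MP_b2d7dd_lc.TN.Cx
import Pool.Agent.H.MP_b2d7dd_lc.TI.MachP

/-!
# Module CxP: the lists of the exponents are computed in polynomial time

Sizes of the state of `cstep` after the tokens `T` (`m = T.length`): the stack has at most `m`
entries, the sum of the lengths of its lists is at most `m` (for a power the list of the exponent is
dropped, otherwise they are concatenated), all numbers are less than `m`; the second component has `m`
lists, each of length at most `m`, all numbers less than `m`. (`List.headD` of an empty stack gives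
`(0, [])`.) `Poly.foldr`, `Poly.map`, `Poly.range`, `Poly.memb` or `Poly.mem`.
-/

namespace Pool.Agent.TN

open Pool.Agent.TI Pool.Agent.H.MP_5be563_lc.PT

variable {α : Type} [Enc α]

theorem poly_cadd {fr : α → ℕ} {fL : α → List ℕ} {fc : α → List (List ℕ)} (hr : Poly fr)
    (hL : Poly fL) (hc : Poly fc) : Poly (fun a => cadd (fr a) (fL a) (fc a)) := by
  unfold cadd
  fun_prop

@[fun_prop]
theorem CxP_cadd {fr : α → ℕ} {fL : α → List ℕ} {fc : α → List (List ℕ)} (hr : Poly fr)
    (hL : Poly fL) (hc : Poly fc) : Poly (fun a => cadd (fr a) (fL a) (fc a)) :=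
  poly_cadd hr hL hc

theorem CxP_step {fq : α → Tok} {fs : α → List (ℕ × List ℕ) × List (List ℕ)} (hq : Poly fq)
    (hs : Poly fs) : Poly (fun a => cstep (fq a) (fs a)) := by
  unfold cstep
  fun_prop

/-- The lists and numbers are bounded by `m`. -/
def CxP_inv (m : ℕ) (s : List (ℕ × List ℕ) × List (List ℕ)) : Prop :=
  s.1.length ≤ m ∧ (s.1.map fun p => p.2.length).sum ≤ m ∧
    (∀ p ∈ s.1, p.1 ≤ m ∧ ∀ k ∈ p.2, k ≤ m) ∧
    s.2.length = m ∧ ∀ x ∈ s.2, x.length ≤ m ∧ ∀ k ∈ x, k ≤ m

theorem CxP_cadd_mem {m r : ℕ} {L : List ℕ} {cx : List (List ℕ)} (hr : r ≤ m + 1)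
    (h : ∀ x ∈ cx, x.length ≤ m ∧ ∀ k ∈ x, k ≤ m) :
    (cadd r L cx).length = cx.length ∧
      ∀ x ∈ cadd r L cx, x.length ≤ m + 1 ∧ ∀ k ∈ x, k ≤ m + 1 := by
  unfold cadd
  refine ⟨by simp, ?_⟩
  intro x hx
  obtain ⟨a, ha, rfl⟩ := List.mem_map.1 hx
  have ha' : a < cx.length := List.mem_range.1 ha
  rw [List.getD_eq_getElem _ _ ha']
  obtain ⟨h1, h2⟩ := h _ (List.getElem_mem ha')
  cases decide (a ∈ L)
  · rw [cond_false]
    exact ⟨by omega, fun k hk => (h2 k hk).trans (Nat.le_succ _)⟩
  · rw [cond_true]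
    refine ⟨by rw [List.length_cons]; omega, ?_⟩
    intro k hk
    rcases List.mem_cons.1 hk with rfl | hk
    · exact hr
    · exact (h2 k hk).trans (Nat.le_succ _)

theorem CxP_snoc {m : ℕ} {cx : List (List ℕ)}
    (h : cx.length = m ∧ ∀ x ∈ cx, x.length ≤ m + 1 ∧ ∀ k ∈ x, k ≤ m + 1) :
    (cx ++ [[]]).length = m + 1 ∧
      ∀ x ∈ cx ++ [[]], x.length ≤ m + 1 ∧ ∀ k ∈ x, k ≤ m + 1 := by
  refine ⟨by simp [h.1], ?_⟩
  intro x hx
  rcases List.mem_append.1 hx with hx | hx
  · exact h.2 x hx
  · rw [List.mem_singleton.1 hx]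
    exact ⟨Nat.zero_le _, fun k hk => absurd hk (by simp)⟩

theorem CxP_inv_step {m : ℕ} {s : List (ℕ × List ℕ) × List (List ℕ)} (h : CxP_inv m s)
    (q : Tok) : CxP_inv (m + 1) (cstep q s) := by
  obtain ⟨stk, cx⟩ := s
  obtain ⟨h1, h2, h3, h4, h5⟩ := h
  simp only at h1 h2 h3 h4 h5
  have h5' : ∀ x ∈ cx, x.length ≤ m + 1 ∧ ∀ k ∈ x, k ≤ m + 1 := fun x hx =>
    ⟨(h5 x hx).1.trans (Nat.le_succ _), fun k hk => ((h5 x hx).2 k hk).trans (Nat.le_succ _)⟩
  have h3' : ∀ p ∈ stk, p.1 ≤ m + 1 ∧ ∀ k ∈ p.2, k ≤ m + 1 := fun p hp =>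
    ⟨(h3 p hp).1.trans (Nat.le_succ _), fun k hk => ((h3 p hp).2 k hk).trans (Nat.le_succ _)⟩
  -- the top of the stack
  have hd1 : ∀ k ∈ (stk.headD (0, [])).2, k ≤ m := by
    cases stk with
    | nil => intro k hk; exact absurd hk (by simp)
    | cons p stk => exact (h3 p (by simp)).2
  have hd2 : (stk.tail.headD (0, [])).1 ≤ m ∧ ∀ k ∈ (stk.tail.headD (0, [])).2, k ≤ m := by
    cases stk with
    | nil => exact ⟨Nat.zero_le _, fun k hk => absurd hk (by simp)⟩
    | cons p stk =>
      cases stk with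
      | nil => exact ⟨Nat.zero_le _, fun k hk => absurd hk (by simp)⟩
      | cons p' stk => exact h3 p' (by simp)
  have hsum : (stk.headD (0, [])).2.length + (stk.tail.headD (0, [])).2.length +
      (stk.tail.tail.map fun p => p.2.length).sum ≤ m := by
    cases stk with
    | nil => simp
    | cons p stk =>
      cases stk with
      | nil => simpa using h2
      | cons p' stk =>
        simp only [List.map_cons, List.sum_cons] at h2
        simp only [List.headD_cons, List.tail_cons]
        omega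
  have htt : stk.tail.tail.length ≤ m := by
    rw [List.length_tail, List.length_tail]
    omega
  have hmem : ∀ p ∈ stk.tail.tail, p ∈ stk := fun p hp =>
    List.mem_of_mem_tail (List.mem_of_mem_tail hp)
  unfold cstep
  by_cases c0 : q.1 = 0
  · simp only [c0, decide_true, cond_true]
    refine ⟨by simp only [List.length_cons]; omega, ?_, ?_, CxP_snoc ⟨h4, h5'⟩⟩
    · simp only [List.map_cons, List.sum_cons, List.length_nil]
      omega
    · intro p hp
      rcases List.mem_cons.1 hp with rfl | hp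
      · exact ⟨by omega, fun k hk => absurd hk (by simp)⟩
      · exact h3' p hp
  · by_cases c4 : q.1 = 4
    · simp only [decide_eq_false c0, decide_eq_true c4, cond_false, cond_true]
      refine ⟨by simp only [List.length_cons]; omega, ?_, ?_, CxP_snoc ⟨h4, h5'⟩⟩
      · simp only [List.map_cons, List.sum_cons, List.length_nil, List.length_cons]
        omega
      · intro p hp
        rcases List.mem_cons.1 hp with rfl | hp
        · refine ⟨by omega, fun k hk => ?_⟩
          rw [List.mem_singleton.1 hk]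
          omega
        · exact h3' p hp
    · by_cases c3 : q.1 = 3
      · simp only [decide_eq_false c0, decide_eq_false c4, decide_eq_true c3, cond_false,
          cond_true]
        obtain ⟨k1, k2⟩ := CxP_cadd_mem (L := (stk.headD (0, [])).2)
          (hd2.1.trans (Nat.le_succ _)) h5
        refine ⟨by simp only [List.length_cons]; omega, ?_, ?_, CxP_snoc ⟨k1.trans h4, k2⟩⟩
        · simp only [List.map_cons, List.sum_cons]
          omega
        · intro p hp
          rcases List.mem_cons.1 hp with rfl | hp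
          · exact ⟨by omega, fun k hk => (hd1 k hk).trans (Nat.le_succ _)⟩
          · exact h3' p (hmem p hp)
      · simp only [c0, c4, c3, decide_false, cond_false]
        refine ⟨by simp only [List.length_cons]; omega, ?_, ?_, CxP_snoc ⟨h4, h5'⟩⟩
        · simp only [List.map_cons, List.sum_cons, List.length_append]
          omega
        · intro p hp
          rcases List.mem_cons.1 hp with rfl | hp
          · refine ⟨by omega, fun k hk => ?_⟩
            rcases List.mem_append.1 hk with hk | hk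
            · exact (hd1 k hk).trans (Nat.le_succ _)
            · exact (hd2.2 k hk).trans (Nat.le_succ _)
          · exact h3' p (hmem p hp)

theorem CxP_inv_foldr (T : List Tok) : CxP_inv T.length (T.foldr cstep ([], [])) := by
  induction T with
  | nil => exact ⟨le_rfl, le_rfl, fun p hp => absurd hp (by simp), rfl,
      fun x hx => absurd hx (by simp)⟩
  | cons q T ih =>
    rw [List.foldr_cons, List.length_cons]
    exact CxP_inv_step ih q

theorem CxP_sz_nats {m : ℕ} {l : List ℕ} (h1 : l.length ≤ m) (h2 : ∀ k ∈ l, k ≤ m) :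
    sz l ≤ m * (2 * m + 2) + 1 := by
  refine (sz_le_of_forall l (2 * m + 1) fun k hk => ?_).trans ?_
  · rw [sz_nat]
    have := h2 k hk
    omega
  · exact Nat.add_le_add_right (Nat.mul_le_mul_right _ h1) _

theorem CxP_sz {m : ℕ} {s : List (ℕ × List ℕ) × List (List ℕ)} (h : CxP_inv m s) :
    sz s ≤ 10 * (m + 1) ^ 3 := by
  obtain ⟨stk, cx⟩ := s
  obtain ⟨h1, h2, h3, h4, h5⟩ := h
  simp only at h1 h2 h3 h4 h5
  have e1 : sz cx ≤ m * (m * (2 * m + 2) + 1 + 1) + 1 := by
    refine (sz_le_of_forall cx (m * (2 * m + 2) + 1) fun x hx =>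
      CxP_sz_nats (h5 x hx).1 (h5 x hx).2).trans ?_
    rw [h4]
  have e2 : sz stk ≤ m * ((2 * m + 1) + (m * (2 * m + 2) + 1) + 1 + 1) + 1 := by
    refine (sz_le_of_forall stk ((2 * m + 1) + (m * (2 * m + 2) + 1) + 1) fun p hp => ?_).trans
      (Nat.add_le_add_right (Nat.mul_le_mul_right _ h1) _)
    rw [sz_prod, sz_nat]
    have hl : p.2.length ≤ m := by
      have : p.2.length ∈ stk.map fun p => p.2.length := List.mem_map.2 ⟨p, hp, rfl⟩
      exact (List.single_le_sum (by simp) _ this).trans h2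
    have := CxP_sz_nats hl (h3 p hp).2
    have := (h3 p hp).1
    omega
  rw [sz_pair]
  have e3 : 10 * (m + 1) ^ 3 = 10 * m ^ 3 + 30 * m ^ 2 + 30 * m + 10 := by ring
  have e4 : m * (m * (2 * m + 2) + 1 + 1) + 1 = 2 * m ^ 3 + 2 * m ^ 2 + 2 * m + 1 := by ring
  have e5 : m * ((2 * m + 1) + (m * (2 * m + 2) + 1) + 1 + 1) + 1 =
      2 * m ^ 3 + 4 * m ^ 2 + 4 * m + 1 := by ring
  rw [e4] at e1
  rw [e5] at e2
  rw [e3]
  omega

theorem poly_cxl {fT : α → List Tok} (hT : Poly fT) : Poly (fun a => cxl (fT a)) := by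
  have hstep : Poly (fun p : α × (List (ℕ × List ℕ) × List (List ℕ)) × Tok =>
      cstep p.2.2 p.2.1) := CxP_step (by fun_prop) (by fun_prop)
  have key := Poly.foldr (f := fun p : α × (List (ℕ × List ℕ) × List (List ℕ)) × Tok =>
      cstep p.2.2 p.2.1) (l := fT) (s0 := fun _ => ([], []))
    (B := fun a => 10 * (sz (fT a) + 1) ^ 3) hstep hT (by fun_prop)
    ((PBdd.const 10).mul ((hT.sz_le.add (PBdd.const 1)).pow 3)) (by
      intro a l₁ l₂ h
      have h1 : l₂.length ≤ sz (fT a) := by
        have h2 := length_lt_sz (fT a)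
        rw [h, List.length_append] at h2
        rw [h]
        omega
      refine (CxP_sz (CxP_inv_foldr l₂)).trans ?_
      exact Nat.mul_le_mul_left _ (Nat.pow_le_pow_left (Nat.add_le_add_right h1 1) 3))
  exact Poly.snd.comp key

end Pool.Agent.TN
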