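import Pool.Agent.H.MP_b2d7dd_lc.TI.Defs

/-!
# Definitions used in the statement

Terms in which no sum is raised to a power. The terms, their values, their strings and the class
coRP are defined in `Pool.Agent.TI` (module TI/Defs).
-/

namespace Pool.Agent.TN

open Pool.Agent.TI

/-- There is no addition outside of the exponents. -/
def SumFree : Tm → Prop
  | .one => True
  | .var _ => True
  | .add _ _ => False
  | .mul s t => SumFree s ∧ SumFree t
  | .pow s _ => SumFree s

/-- No sum is raised to a power: the bases of the exponentiations are built from variables and `1`
by multiplication and exponentiation (the exponents are arbitrary terms of this kind, of any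
height). -/
def NS : Tm → Prop
  | .one => True
  | .var _ => True
  | .add s t => NS s ∧ NS t
  | .mul s t => NS s ∧ NS t
  | .pow s t => SumFree s ∧ NS s ∧ NS t

/-- The strings of the identities `s = t` which hold in `N_HS`, where no sum is raised to a power
in `s` and `t`. -/
def identitiesNS : Set (List Bool) :=
  {x | ∃ s t : Tm, NS s ∧ NS t ∧ Valid s t ∧ x = s.code ++ t.code}

end Pool.Agent.TN
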