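import Pool.Agent.H.MP_b2d7dd_lc.TN.Chi

/-!
# Module Exs: the exponents of the variables

For every token of a term (last token first) `exs c u` gives the product of the exponents applied to
it, where `c` = the exponents from outside (for tokens which are not variables: `1`).
`Placed X T i c u`: the tokens of `u` are the tokens number `i`, ..., `i + sz u - 1` of `T` (from the
right), and the list `X` has there the entries `exs c u`. The placements of the parts:
`Placed.add_left` etc. `placed_at`: induction on `u` for all `c`, `i` (`names T` contains the names of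
the variables of `u`; `vf (.mul c t) = vf c * vf t`).
-/

namespace Pool.Agent.TN

open Pool.Agent.TI Pool.Agent.TW Finset

/-- The products of the exponents around the tokens. -/
def exs (c : Tm) : Tm → List Tm
  | .one => [.one]
  | .var _ => [c]
  | .add s t => exs c t ++ exs c s ++ [.one]
  | .mul s t => exs c t ++ exs c s ++ [.one]
  | .pow s t => exs .one t ++ exs (.mul c t) s ++ [.one]

theorem exs_length (c u : Tm) : (exs c u).length = u.sz := by
  induction u generalizing c with
  | one => rfl
  | var w => rfl
  | add s t ihs iht =>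
    simp only [exs, List.length_append, ihs, iht, Tm.sz, List.length_singleton]
    omega
  | mul s t ihs iht =>
    simp only [exs, List.length_append, ihs, iht, Tm.sz, List.length_singleton]
    omega
  | pow s t ihs iht =>
    simp only [exs, List.length_append, ihs, iht, Tm.sz, List.length_singleton]
    omega

/-- The term `u` with outer exponents `c` is placed at the number `i`. -/
def Placed (X : List Tm) (T : List Tok) (i : ℕ) (c u : Tm) : Prop :=
  (∃ pre T' : List Tok, T = pre ++ (u.toks ++ T') ∧ T'.length = i) ∧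
    ∀ j < u.sz, X.getD (i + j) .one = (exs c u).getD j .one

/-- The parts of an entry list. -/
private theorem Exs_split {X A B C : List Tm} {i a b : ℕ} (ha : A.length = a) (hb : B.length = b)
    (h : ∀ j < b + a + 1, X.getD (i + j) .one = (A ++ B ++ C).getD j .one) :
    (∀ j < a, X.getD (i + j) .one = A.getD j .one) ∧
      ∀ j < b, X.getD (i + a + j) .one = B.getD j .one := by
  constructor
  · intro j hj
    rw [h j (by omega), List.append_assoc, List.getD_append _ _ _ _ (by omega)]
  · intro j hj
    rw [add_assoc, h (a + j) (by omega), List.append_assoc,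
      List.getD_append_right _ _ _ _ (by omega), List.getD_append _ _ _ _ (by omega)]
    congr 1
    omega

/-- The parts of a token list. -/
private theorem Exs_toks {T : List Tok} {i : ℕ} {q : Tok} {s t : Tm}
    (h : ∃ pre T' : List Tok, T = pre ++ ((q :: (s.toks ++ t.toks)) ++ T') ∧ T'.length = i) :
    (∃ pre T' : List Tok, T = pre ++ (t.toks ++ T') ∧ T'.length = i) ∧
      ∃ pre T' : List Tok, T = pre ++ (s.toks ++ T') ∧ T'.length = i + t.sz := by
  obtain ⟨pre, T', h1, h2⟩ := h
  constructor
  · refine ⟨pre ++ (q :: s.toks), T', ?_, h2⟩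
    rw [h1]
    simp
  · refine ⟨pre ++ [q], t.toks ++ T', ?_, ?_⟩
    · rw [h1]
      simp
    · rw [List.length_append, Tm.length_toks, h2, add_comm]

theorem Placed.add_iff {X : List Tm} {T : List Tok} {i : ℕ} {c s t : Tm}
    (h : Placed X T i c (.add s t)) :
    Placed X T i c t ∧ Placed X T (i + t.sz) c s := by
  obtain ⟨h1, h2⟩ := h
  obtain ⟨h3, h4⟩ := Exs_toks h1
  obtain ⟨h5, h6⟩ := Exs_split (exs_length c t) (exs_length c s) h2
  exact ⟨⟨h3, h5⟩, h4, h6⟩

theorem Placed.mul_iff {X : List Tm} {T : List Tok} {i : ℕ} {c s t : Tm}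
    (h : Placed X T i c (.mul s t)) :
    Placed X T i c t ∧ Placed X T (i + t.sz) c s := by
  obtain ⟨h1, h2⟩ := h
  obtain ⟨h3, h4⟩ := Exs_toks h1
  obtain ⟨h5, h6⟩ := Exs_split (exs_length c t) (exs_length c s) h2
  exact ⟨⟨h3, h5⟩, h4, h6⟩

theorem Placed.pow_iff {X : List Tm} {T : List Tok} {i : ℕ} {c s t : Tm}
    (h : Placed X T i c (.pow s t)) :
    Placed X T i .one t ∧ Placed X T (i + t.sz) (.mul c t) s := by
  obtain ⟨h1, h2⟩ := h
  obtain ⟨h3, h4⟩ := Exs_toks h1
  obtain ⟨h5, h6⟩ := Exs_split (exs_length .one t) (exs_length (.mul c t) s) h2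
  exact ⟨⟨h3, h5⟩, h4, h6⟩

/-- The two terms of an identity. -/
theorem placed_pair (s t : Tm) :
    Placed (exs .one t ++ exs .one s) (s.toks ++ t.toks) 0 .one t ∧
      Placed (exs .one t ++ exs .one s) (s.toks ++ t.toks) t.sz .one s := by
  have h1 := exs_length .one t
  refine ⟨⟨⟨s.toks, [], by simp, rfl⟩, ?_⟩, ⟨[], t.toks, rfl, Tm.length_toks t⟩, ?_⟩
  · intro j hj
    rw [zero_add, List.getD_append _ _ _ _ (by omega)]
  · intro j hj
    rw [List.getD_append_right _ _ _ _ (by omega)]
    congr 1
    omega

theorem vf_one : vf .one = 1 := by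
  funext x
  simp [vf, Tm.val]

theorem vf_mul (s t : Tm) : vf (.mul s t) = vf s * vf t := by
  funext x
  simp [vf, Tm.val]

theorem placed_at {X : List Tm} {T : List Tok} {i : ℕ} {c u : Tm} (h : Placed X T i c u) :
    Ae {p | p.1 ∈ names T ∧ ∃ a < i + u.sz, p.2 = vf (X.getD a .one)} (vf c) u := by
  induction u generalizing c i with
  | one => trivial
  | var w =>
    obtain ⟨⟨pre, T', h1, -⟩, h2⟩ := h
    refine ⟨?_, i, ?_, ?_⟩
    · rw [h1, names_append, names_append, Tm.names_toks]
      simp [Tm.vars]
    · simp [Tm.sz]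
    · have h3 := h2 0 (by simp [Tm.sz])
      rw [add_zero] at h3
      rw [h3]
      rfl
  | add s t ihs iht =>
    obtain ⟨h1, h2⟩ := h.add_iff
    refine ⟨Ae.mono ?_ (ihs h2), Ae.mono ?_ (iht h1)⟩
    · rintro p ⟨q1, a, q2, q3⟩
      exact ⟨q1, a, by simp only [Tm.sz]; omega, q3⟩
    · rintro p ⟨q1, a, q2, q3⟩
      exact ⟨q1, a, by simp only [Tm.sz]; omega, q3⟩
  | mul s t ihs iht =>
    obtain ⟨h1, h2⟩ := h.mul_iff
    refine ⟨Ae.mono ?_ (ihs h2), Ae.mono ?_ (iht h1)⟩
    · rintro p ⟨q1, a, q2, q3⟩
      exact ⟨q1, a, by simp only [Tm.sz]; omega, q3⟩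
    · rintro p ⟨q1, a, q2, q3⟩
      exact ⟨q1, a, by simp only [Tm.sz]; omega, q3⟩
  | pow s t ihs _ =>
    obtain ⟨-, h2⟩ := h.pow_iff
    have h3 := ihs h2
    rw [vf_mul] at h3
    refine Ae.mono ?_ h3
    rintro p ⟨q1, a, q2, q3⟩
    exact ⟨q1, a, by simp only [Tm.sz]; omega, q3⟩

theorem exs_ns {c u : Tm} (hc : NS c) (hu : NS u) : ∀ x ∈ exs c u, NS x := by
  induction u generalizing c with
  | one =>
    intro x hx
    rw [exs, List.mem_singleton] at hx
    rw [hx]
    trivial
  | var w =>
    intro x hx
    rw [exs, List.mem_singleton] at hx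
    rw [hx]
    exact hc
  | add s t ihs iht =>
    intro x hx
    rw [exs, List.mem_append, List.mem_append, List.mem_singleton] at hx
    rcases hx with (hx | hx) | hx
    · exact iht hc hu.2 x hx
    · exact ihs hc hu.1 x hx
    · rw [hx]
      trivial
  | mul s t ihs iht =>
    intro x hx
    rw [exs, List.mem_append, List.mem_append, List.mem_singleton] at hx
    rcases hx with (hx | hx) | hx
    · exact iht hc hu.2 x hx
    · exact ihs hc hu.1 x hx
    · rw [hx]
      trivial
  | pow s t ihs iht =>
    intro x hx
    rw [exs, List.mem_append, List.mem_append, List.mem_singleton] at hx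
    rcases hx with (hx | hx) | hx
    · exact iht (c := .one) trivial hu.2.2 x hx
    · exact ihs (c := .mul c t) ⟨hc, hu.2.2⟩ hu.2.1 x hx
    · rw [hx]
      trivial

theorem exs_sz (c u : Tm) : ∀ x ∈ exs c u, x.sz ≤ c.sz + u.sz := by
  induction u generalizing c with
  | one =>
    intro x hx
    rw [exs, List.mem_singleton] at hx
    rw [hx]
    exact Nat.le_add_left _ _
  | var w =>
    intro x hx
    rw [exs, List.mem_singleton] at hx
    rw [hx]
    exact Nat.le_add_right _ _
  | add s t ihs iht =>
    intro x hx
    rw [exs, List.mem_append, List.mem_append, List.mem_singleton] at hx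
    simp only [Tm.sz]
    rcases hx with (hx | hx) | hx
    · have := iht c x hx
      omega
    · have := ihs c x hx
      omega
    · rw [hx]
      simp only [Tm.sz]
      omega
  | mul s t ihs iht =>
    intro x hx
    rw [exs, List.mem_append, List.mem_append, List.mem_singleton] at hx
    simp only [Tm.sz]
    rcases hx with (hx | hx) | hx
    · have := iht c x hx
      omega
    · have := ihs c x hx
      omega
    · rw [hx]
      simp only [Tm.sz]
      omega
  | pow s t ihs iht =>
    intro x hx
    rw [exs, List.mem_append, List.mem_append, List.mem_singleton] at hx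
    have h0 := Tm.sz_pos c
    simp only [Tm.sz]
    rcases hx with (hx | hx) | hx
    · have h1 := iht .one x hx
      simp only [Tm.sz] at h1
      omega
    · have h1 := ihs (.mul c t) x hx
      simp only [Tm.sz] at h1
      omega
    · rw [hx]
      simp only [Tm.sz]
      omega

end Pool.Agent.TN
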