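import Pool.Agent.H.MP_b2d7dd_lc.TN.Snd
import Pool.Agent.H.MP_b2d7dd_lc.TN.Cmb

/-!
# Module FinC: the last comparison

The same as TW/FinC (copy and adapt; `pair_at`).
-/

namespace Pool.Agent.TN

open Pool.Agent.TI (Tm Tok names Valid)
open Pool.Agent.TE (bl)
open Pool.Agent.TW (Fn vf SI irow wfun eN eP vv Qw SS cnt)
open Pool.Agent.H.MP_5be563_lc.PT Finset

theorem FinC_rep {s t : Tm} (hs : NS s) (ht : NS t) (hst : ¬ Valid s t) :
    ∃ g, re 1 s g ≠ re 1 t g := by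
  by_contra hall
  push Not at hall
  apply hst
  have h1 : re 1 s = re 1 t := Finsupp.ext hall
  have h2 := (re_rel (Finset.univ : Finset Bool) (fun b => if b then s else t)
    (fun j _ => by cases j <;> simpa) (fun b => if b then 1 else -1)).2 (by simp [h1])
  intro x hx
  have h3 := congrFun h2 ⟨x, hx⟩
  have h4 : ((s.val x : ℕ) : ℤ) - (t.val x : ℕ) = 0 := by
    rw [Fintype.sum_bool] at h3
    simp only [if_true, one_smul, Pi.add_apply, Pi.zero_apply, Bool.false_eq_true, if_false,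
      neg_smul, Pi.neg_apply] at h3
    unfold vf at h3
    rw [← h3]
    ring
  omega

theorem FinC_coef {n r : ℕ} {s t : Tm} (hs : NS s) (ht : NS t) (hst : ¬ Valid s t)
    (h1 : s.sz ≤ n + 1) (h2 : t.sz ≤ n + 1) (hr : 2 ^ (n + 1) < r) :
    ∃ g, ((re 1 s g : ℤ) : ZMod r) - ((re 1 t g : ℤ) : ZMod r) ≠ 0 := by
  obtain ⟨g, hg⟩ := FinC_rep hs ht hst
  refine ⟨g, ?_⟩
  intro h
  rw [← Int.cast_sub, ZMod.intCast_zmod_eq_zero_iff_dvd] at h
  obtain ⟨a1, a2⟩ := re_bound s 1 g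
  obtain ⟨b1, b2⟩ := re_bound t 1 g
  have c1 : (2 : ℤ) ^ s.sz ≤ 2 ^ (n + 1) := pow_le_pow_right₀ (by norm_num) h1
  have c2 : (2 : ℤ) ^ t.sz ≤ 2 ^ (n + 1) := pow_le_pow_right₀ (by norm_num) h2
  have c3 : (2 : ℤ) ^ (n + 1) < (r : ℤ) := by exact_mod_cast hr
  have h4 : re 1 s g - re 1 t g = 0 := by
    apply Int.eq_zero_of_abs_lt_dvd h
    rw [abs_lt]
    constructor <;> linarith
  exact hg (sub_eq_zero.1 h4)

private theorem FinC_names (T : List Tok) : (names T).length ≤ T.length := by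
  unfold names
  rw [List.length_map]
  exact List.length_filter_le _ _

theorem final_cnt {n : ℕ} {s t : Tm} (hs : NS s) (ht : NS t) (hn : s.sz + t.sz ≤ n)
    (hst : ¬ Valid s t) {e : List Bool} (he : 2 ^ vv n ≤ bval e) (hp : (bval e + 2).Prime)
    {tab : List (List SI)} (hc : Coh (exF s t) (s.sz + t.sz) (tab.map irow))
    (hf : Fai (exF s t) (s.sz + t.sz) (tab.map irow))
    (hP : ∀ row ∈ tab.map irow, ∀ a, |row a| ≤ (2 ^ eP n : ℕ)) (hl : tab.length ≤ n) :
    8 * cnt (SS n) (fun zz =>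
      fin1 n e (names (s.toks ++ t.toks)) (s.toks ++ t.toks) tab zz = true) ≤ 2 ^ SS n := by
  have hzs : s.sz ≤ n + 1 := by omega
  have hzt : t.sz ≤ n + 1 := by omega
  have hvn : n + 1 ≤ vv n := by
    unfold vv Pool.Agent.TW.uu
    omega
  have hr : 2 ^ (n + 1) < bval e + 2 := by
    have h1 : (2 : ℕ) ^ (n + 1) ≤ 2 ^ vv n := Nat.pow_le_pow_right (by norm_num) hvn
    omega
  have hN : (names (s.toks ++ t.toks)).length ≤ n := by
    refine (FinC_names _).trans ?_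
    rw [List.length_append, Tm.length_toks, Tm.length_toks]
    exact hn
  obtain ⟨hAs, hAt⟩ := pair_at s t
  obtain ⟨g, hg⟩ := FinC_coef (r := bval e + 2) hs ht hst hzs hzt hr
  have key := cnt_comb (J := Bool) (v := vv n) (n := n) (P := 2 ^ eP n) hp (by omega) hN
    hc hf hP hl Finset.univ (fun j => if j then s else t)
    (fun j _ => by cases j <;> simpa) (fun j _ => by cases j <;> simpa)
    (fun j => if j then 1 else -1) ⟨g, by
      rw [Fintype.sum_bool]
      simpa [sub_eq_add_neg] using hg⟩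
  set N := names (s.toks ++ t.toks) with hNd
  set A := Qw n * vv n with hA
  set C := cnt A (fun Z =>
      Pool.Agent.TN.he (chi (wfun e (vv n) (n + 1) N Z) (tab.map irow) (exF s t) (s.sz + t.sz)) 1 s =
      Pool.Agent.TN.he (chi (wfun e (vv n) (n + 1) N Z) (tab.map irow) (exF s t) (s.sz + t.sz)) 1 t) with hC
  have e1 : C ≤ cnt (((n + 1) * (n + 1)) * vv n) (fun Z =>
      ∑ j ∈ (Finset.univ : Finset Bool), (if j then (1 : ZMod (bval e + 2)) else -1) *
        Pool.Agent.TN.he (chi (wfun e (vv n) (n + 1) N Z) (tab.map irow) (exF s t) (s.sz + t.sz)) 1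
          (if j then s else t) = 0) := by
    rw [hC, hA]
    refine Pool.Agent.TW.cnt_mono fun Z _ hZ => ?_
    rw [Fintype.sum_bool]
    simp [hZ]
  have e2 : 2 ^ vv n * C ≤ Pool.Agent.TW.Aa n * 2 ^ A := by
    refine (Nat.mul_le_mul_left _ e1).trans (key.trans (le_of_eq ?_))
    unfold Pool.Agent.TW.Aa Qw
    rw [hA, ← pow_mul, mul_comm (vv n)]
    rfl
  have e3 : 8 * C ≤ 2 ^ A := by
    have h1 : 2 ^ vv n * (8 * C) ≤ 2 ^ vv n * 2 ^ A := by
      calc 2 ^ vv n * (8 * C) = 8 * (2 ^ vv n * C) := by ring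
        _ ≤ 8 * (Pool.Agent.TW.Aa n * 2 ^ A) := Nat.mul_le_mul_left _ e2
        _ = (8 * Pool.Agent.TW.Aa n) * 2 ^ A := by ring
        _ ≤ 2 ^ vv n * 2 ^ A := Nat.mul_le_mul_right _ (Pool.Agent.TW.par_fin n)
    exact Nat.le_of_mul_le_mul_left h1 (by positivity)
  have e4 : SS n = A + (Pool.Agent.TW.Rr n - 1) * A := by
    unfold SS Pool.Agent.TW.Rr
    rw [← hA]
    have : 6 * (n + 1) = 1 + (6 * (n + 1) - 1) := by omega
    conv_lhs => rw [this, add_mul, one_mul]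
  have e5 : cnt (SS n) (fun zz => fin1 n e N (s.toks ++ t.toks) tab zz = true) ≤
      C * 2 ^ ((Pool.Agent.TW.Rr n - 1) * A) := by
    rw [hC, ← Pool.Agent.TW.cnt_take, e4]
    refine Pool.Agent.TW.cnt_mono fun zz _ hz => ?_
    have h1 := (fin1_iff s t e N hc zz).1 hz
    unfold bl at h1
    rw [zero_mul, List.drop_zero] at h1
    exact h1
  calc 8 * cnt (SS n) (fun zz => fin1 n e N (s.toks ++ t.toks) tab zz = true)
      ≤ 8 * (C * 2 ^ ((Pool.Agent.TW.Rr n - 1) * A)) := Nat.mul_le_mul_left _ e5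
    _ = (8 * C) * 2 ^ ((Pool.Agent.TW.Rr n - 1) * A) := by ring
    _ ≤ 2 ^ A * 2 ^ ((Pool.Agent.TW.Rr n - 1) * A) := Nat.mul_le_mul_right _ e3
    _ = 2 ^ SS n := by rw [e4, pow_add]

end Pool.Agent.TN
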