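import Pool.Agent.H.MP_b2d7dd_lc.TN.Rep
import Pool.Agent.H.MP_b2d7dd_lc.TW.GrC

/-!
# Module GrC: the functions of the terms without powers of sums are tame

The same as TW/GrC (copy and adapt). `V_0` = closure of the constant function one, `V_(n+1)` =
closure of `Mon V_n`; all `V_n` are tame (`tame_closure`), increasing and closed under
multiplication. For `SumFree s`, `NS s` and `f ∈ V_n`, `f ≥ 0` the function `x ↦ (s.val x) ^ f x` is a
monomial with exponents in some `V_m` (induction on `s`; for a power `s' ^ t` use the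
function `f * vf t`); so for every `NS` term `vf t ∈ V_n` for some `n`.
-/

namespace Pool.Agent.TN

open Pool.Agent.TI Pool.Agent.TW Filter

/-- The group generated by the functions of the terms. -/
def VV : AddSubgroup Fn := AddSubgroup.closure {f | ∃ t : Tm, NS t ∧ f = vf t}

/-- The functions of the terms and the powers of the terms without sums. -/
theorem GrC_mem (t : Tm) : (NS t → ∃ n, vf t ∈ GrC.V n) ∧
    (SumFree t → NS t → ∀ n, ∀ f ∈ GrC.V n, (∀ x, 0 ≤ f x) →
      ∃ m, (fun x : X => (t.val x.1 : ℤ) ^ (f x).toNat) ∈ Mon (GrC.V m)) := by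
  induction t with
  | one =>
    refine ⟨fun _ => ⟨0, ?_⟩, fun _ _ n f _ _ => ⟨n, ?_⟩⟩
    · have h : vf .one = 1 := by
        funext x
        simp [vf, Tm.val]
      rw [h]
      exact GrC.one_mem_V0
    · have h : (fun x : X => ((Tm.one.val x.1 : ℕ) : ℤ) ^ (f x).toNat) = 1 := by
        funext x
        simp [Tm.val]
      rw [h]
      exact GrC.one_mem_mon _
  | var w =>
    refine ⟨fun _ => ⟨1, ?_⟩, fun _ _ n f hf h0 => ⟨n, ?_⟩⟩
    · have h : vf (.var w) = fun x : X => (x.1 w : ℤ) ^ ((1 : Fn) x).toNat := by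
        funext x
        simp [vf, Tm.val]
      rw [h]
      exact AddSubgroup.subset_closure
        (GrC.single_mem GrC.one_mem_V0 (fun _ => zero_le_one) w)
    · exact GrC.single_mem hf h0 w
  | add s t ihs iht =>
    refine ⟨fun h => ?_, fun h => h.elim⟩
    obtain ⟨n, hn⟩ := ihs.1 h.1
    obtain ⟨m, hm⟩ := iht.1 h.2
    refine ⟨max n m, ?_⟩
    have h : vf (.add s t) = vf s + vf t := by
      funext x
      simp [vf, Tm.val]
    rw [h]
    exact (GrC.V _).add_mem (GrC.V_mono (le_max_left _ _) hn) (GrC.V_mono (le_max_right _ _) hm)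
  | mul s t ihs iht =>
    refine ⟨fun h => ?_, fun h hN n f hf h0 => ?_⟩
    · obtain ⟨n, hn⟩ := ihs.1 h.1
      obtain ⟨m, hm⟩ := iht.1 h.2
      refine ⟨max n m, ?_⟩
      have h : vf (.mul s t) = vf s * vf t := by
        funext x
        simp [vf, Tm.val]
      rw [h]
      exact GrC.V_mul _ (GrC.V_mono (le_max_left _ _) hn) (GrC.V_mono (le_max_right _ _) hm)
    · obtain ⟨m1, h1⟩ := ihs.2 h.1 hN.1 n f hf h0
      obtain ⟨m2, h2⟩ := iht.2 h.2 hN.2 n f hf h0
      refine ⟨max m1 m2, ?_⟩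
      have h3 : (fun x : X => (((Tm.mul s t).val x.1 : ℕ) : ℤ) ^ (f x).toNat) =
          (fun x : X => (s.val x.1 : ℤ) ^ (f x).toNat) *
            fun x : X => (t.val x.1 : ℤ) ^ (f x).toNat := by
        funext x
        simp [Tm.val, mul_pow]
      rw [h3]
      exact GrC.mon_mul (GrC.mon_mono (GrC.V_mono (le_max_left _ _)) h1)
        (GrC.mon_mono (GrC.V_mono (le_max_right _ _)) h2)
  | pow s t ihs iht =>
    refine ⟨fun h => ?_, fun h hN n f hf h0 => ?_⟩
    · obtain ⟨n, hn⟩ := iht.1 h.2.2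
      obtain ⟨m, hm⟩ := ihs.2 h.1 h.2.1 n (vf t) hn (GrC.vf_nonneg t)
      refine ⟨m + 1, ?_⟩
      have h3 : vf (.pow s t) = fun x : X => (s.val x.1 : ℤ) ^ (vf t x).toNat := by
        funext x
        simp [vf, Tm.val]
      rw [h3]
      exact AddSubgroup.subset_closure hm
    · obtain ⟨k, hk⟩ := iht.1 hN.2.2
      obtain ⟨m, hm⟩ := ihs.2 hN.1 hN.2.1 (max n k) (vf t * f)
        (GrC.V_mul _ (GrC.V_mono (le_max_right _ _) hk) (GrC.V_mono (le_max_left _ _) hf))
        (fun x => mul_nonneg (GrC.vf_nonneg t x) (h0 x))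
      refine ⟨m, ?_⟩
      have h3 : (fun x : X => (((Tm.pow s t).val x.1 : ℕ) : ℤ) ^ (f x).toNat) =
          fun x : X => (s.val x.1 : ℤ) ^ ((vf t * f) x).toNat := by
        funext x
        have h4 : ((vf t * f) x).toNat = t.val x.1 * (f x).toNat := by
          rw [Pi.mul_apply, Int.toNat_mul (GrC.vf_nonneg t x) (h0 x)]
          rfl
        rw [h4, pow_mul]
        simp [Tm.val]
      rw [h3]
      exact hm

theorem GrC_VV {d : Fn} (hd : d ∈ VV) : ∃ n, d ∈ GrC.V n := by
  unfold VV at hd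
  induction hd using AddSubgroup.closure_induction with
  | mem a ha =>
    obtain ⟨t, ht, rfl⟩ := ha
    exact (GrC_mem t).1 ht
  | zero => exact ⟨0, (GrC.V 0).zero_mem⟩
  | add x y _ _ hx hy =>
    obtain ⟨n, hn⟩ := hx
    obtain ⟨m, hm⟩ := hy
    exact ⟨max n m, (GrC.V _).add_mem (GrC.V_mono (le_max_left _ _) hn)
      (GrC.V_mono (le_max_right _ _) hm)⟩
  | neg x _ hx =>
    obtain ⟨n, hn⟩ := hx
    exact ⟨n, (GrC.V n).neg_mem hn⟩

theorem tame_VV : Tame VV := by
  constructor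
  · intro d hd h0
    obtain ⟨n, hn⟩ := GrC_VV hd
    exact (GrC.tame_V n).sgn d hn h0
  · intro d hd d' hd' h0 h0'
    obtain ⟨n, hn⟩ := GrC_VV hd
    obtain ⟨m, hm⟩ := GrC_VV hd'
    exact (GrC.tame_V (max n m)).cmp d (GrC.V_mono (le_max_left _ _) hn) d'
      (GrC.V_mono (le_max_right _ _) hm) h0 h0'

theorem vf_mem_VV {t : Tm} (ht : NS t) : vf t ∈ VV :=
  AddSubgroup.subset_closure ⟨t, ht, rfl⟩

end Pool.Agent.TN
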