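import Pool.Agent.H.MP_b2d7dd_lc.TN.Nxt
import Pool.Agent.H.MP_b2d7dd_lc.TN.Det
import Pool.Agent.H.MP_b2d7dd_lc.TW.LiftP

/-!
# Module Snd: true identities are always accepted

The same as TW/Snd (copy and adapt); `T = s.toks ++ t.toks`, the family is `exF s t`, its length
`s.sz + t.sz`; `fam_exs`, `hrow_rel`, `hrow_length`, `NB_le'`, `par_coh`, `stack_val`.
-/

namespace Pool.Agent.TN

open Pool.Agent.TI (Tm Tok names Valid)
open Pool.Agent.TE (bl)
open Pool.Agent.TW (Fn vf SI irow wfun eN eP vv Qw SS kk bval_pow2 par_coh ltab_len pivots_len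
  mem_ltab Run2_two beqv_bmod_iff pow2)
open Pool.Agent.H.MP_5be563_lc.PT Finset

theorem nxt_coh {n : ℕ} {s t : Tm} (hs : NS s) (ht : NS t) (hn : s.sz + t.sz ≤ n) {i : ℕ}
    (hi : i < s.sz + t.sz) {e : List Bool} (he : 2 ^ vv n ≤ bval e) (N : List (List Bool))
    {tab : List (List SI)} (hc : Coh (exF s t) i (tab.map irow)) (zz : List Bool) :
    Coh (exF s t) (i + 1)
      ((nxt n e N (cxl (s.toks ++ t.toks)) (s.toks ++ t.toks) i tab zz).map irow) := by
  have hF : Fam n (names (s.toks ++ t.toks)) (s.sz + t.sz) (exF s t) := fam_exs hs ht hn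
  have hL : i + 1 ≤ n := by omega
  unfold nxt
  refine coh_ltab hF.ns hF.sz (kk n) ?_ ?_ _ ?_ ?_
  · rw [bval_pow2]
    exact NB_le' hL
  · rw [bval_pow2, bval_pow2]
    exact par_coh hL (by omega)
  · intro v hv
    obtain ⟨j, -, rfl⟩ := List.mem_map.1 hv
    rw [hrow_length]
  · intro v hv κ hκ
    obtain ⟨j, -, rfl⟩ := List.mem_map.1 hv
    exact hrow_rel e (vv n) (n + 1) N _ _ hF hi hc κ hκ

theorem nxt_bound (n : ℕ) (e : List Bool) (N : List (List Bool)) (cx : List (List ℕ))
    (T : List Tok) (i : ℕ) (tab : List (List SI)) (zz : List Bool) :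
    (nxt n e N cx T i tab zz).length ≤ i + 1 ∧
      ∀ row ∈ (nxt n e N cx T i tab zz).map irow, ∀ a, |row a| ≤ (2 ^ eP n : ℕ) := by
  unfold nxt
  refine ⟨(ltab_len _ _ _ _ _ _).1.trans (pivots_len _ _ _).1, ?_⟩
  intro row hrow a
  obtain ⟨l, hl, rfl⟩ := List.mem_map.1 hrow
  have h1 := (mem_ltab hl).2 a
  rw [bval_pow2] at h1
  exact h1

theorem tabI_bound (n : ℕ) (e : List Bool) (N : List (List Bool)) (cx : List (List ℕ))
    (T : List Tok) (z : List Bool) (i : ℕ) : (tabI n e N cx T z i).length ≤ i ∧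
      ∀ row ∈ (tabI n e N cx T z i).map irow, ∀ a, |row a| ≤ (2 ^ eP n : ℕ) := by
  cases i with
  | zero =>
    refine ⟨le_rfl, ?_⟩
    intro row hrow
    exact absurd hrow (by simp [tabI])
  | succ i => exact nxt_bound n e N cx T i _ _

theorem tabI_coh {n : ℕ} {s t : Tm} (hs : NS s) (ht : NS t) (hn : s.sz + t.sz ≤ n)
    {e : List Bool} (he : 2 ^ vv n ≤ bval e) (N : List (List Bool)) (z : List Bool) (i : ℕ)
    (hi : i ≤ s.sz + t.sz) :
    Coh (exF s t) i
      ((tabI n e N (cxl (s.toks ++ t.toks)) (s.toks ++ t.toks) z i).map irow) := by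
  induction i with
  | zero =>
    intro κ _ row hrow
    exact absurd hrow (by simp [tabI])
  | succ i ih => exact nxt_coh hs ht hn (by omega) he N (ih (by omega)) _

theorem fin1_iff {n : ℕ} (s t : Tm) (e : List Bool) (N : List (List Bool))
    {tab : List (List SI)} (hc : Coh (exF s t) (s.sz + t.sz) (tab.map irow)) (zz : List Bool) :
    fin1 n e N (s.toks ++ t.toks) tab zz = true ↔
      he (chi (wfun e (vv n) (n + 1) N (bl (Qw n * vv n) zz 0)) (tab.map irow) (exF s t)
        (s.sz + t.sz)) 1 s =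
      he (chi (wfun e (vv n) (n + 1) N (bl (Qw n * vv n) zz 0)) (tab.map irow) (exF s t)
        (s.sz + t.sz)) 1 t := by
  have h1 := stack_val e (vv n) (n + 1) N (bl (Qw n * vv n) zz 0) s t hc
  obtain ⟨h2, h3, -⟩ := Run2_two h1 []
  unfold fin1
  rw [beqv_bmod_iff, h2, h3]

/-- The atoms of the two terms. -/
theorem pair_at (s t : Tm) :
    Ae (atoms (names (s.toks ++ t.toks)) (exF s t) (s.sz + t.sz)) 1 s ∧
      Ae (atoms (names (s.toks ++ t.toks)) (exF s t) (s.sz + t.sz)) 1 t := by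
  obtain ⟨h1, h2⟩ := placed_pair s t
  have h3 := placed_at h1
  have h4 := placed_at h2
  rw [vf_one] at h3 h4
  refine ⟨Ae.mono ?_ h4, Ae.mono ?_ h3⟩
  · rintro p ⟨q1, a, q2, q3⟩
    exact ⟨q1, a, by omega, q3⟩
  · rintro p ⟨q1, a, q2, q3⟩
    exact ⟨q1, a, by omega, q3⟩

theorem test0_valid {n : ℕ} {s t : Tm} (hs : NS s) (ht : NS t) (hn : s.sz + t.sz ≤ n)
    (hv : Valid s t) (e z : List Bool) : test0 n (s.toks ++ t.toks) e z = true := by
  unfold test0
  cases hb : ble (pow2 (vv n)) e with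
  | false => rfl
  | true =>
    rw [cond_true]
    have he := (ble_iff _ _).1 hb
    rw [bval_pow2] at he
    have hlen : (s.toks ++ t.toks).length = s.sz + t.sz := by
      rw [List.length_append, Tm.length_toks, Tm.length_toks]
    rw [hlen]
    have hc := tabI_coh hs ht hn he (names (s.toks ++ t.toks)) z (s.sz + t.sz) le_rfl
    rw [fin1_iff s t e (names (s.toks ++ t.toks)) hc]
    have hvf : vf s = vf t := by
      funext x
      show ((s.val x.1 : ℕ) : ℤ) = ((t.val x.1 : ℕ) : ℤ)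
      rw [hv x.1 x.2]
    obtain ⟨ps, pt⟩ := pair_at s t
    have h1 := he_rel (chi_chr (wfun e (vv n) (n + 1) (names (s.toks ++ t.toks))
        (bl (Qw n * vv n) (bl (SS n) z (s.sz + t.sz)) 0)) hc) (Finset.univ : Finset Bool)
      (fun b => bif b then s else t) (by
        rintro (_ | _) _
        · exact ht
        · exact hs) (by
        rintro (_ | _) _
        · exact Ae.mono atoms_sub pt
        · exact Ae.mono atoms_sub ps) (fun b => bif b then 1 else -1) (by
        rw [Fintype.sum_bool]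
        simp [hvf])
    rw [Fintype.sum_bool] at h1
    simp only [cond_true, cond_false, Int.cast_one, Int.cast_neg] at h1
    linear_combination h1

end Pool.Agent.TN
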