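import Pool.Agent.H.MP_b2d7dd_lc.TN.NxtP
import Pool.Agent.H.MP_b2d7dd_lc.TN.CxP
import Pool.Agent.H.MP_b2d7dd_lc.TN.Snd
import Pool.Agent.H.MP_b2d7dd_lc.TW.TabP

/-!
# Module TabP: the test runs in polynomial time

The same as TW/TabP (copy and adapt). `tabI n e N cx T z i` is a `List.foldl` over `List.range i`
(`Poly.foldl`, PT/Typed; sizes: `tabI_bound`, `ltab_len`).
-/

namespace Pool.Agent.TN

open Pool.Agent.TI (Tm Tok names tokz unpair pairCode)
open Pool.Agent.TE (bl)
open Pool.Agent.TW (SI ltab pivots pow2 eN eP vv Qw Rr kk SS AA KK md Aa NB ltab_len poly_par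
  poly_pow2 poly_bl)
open Pool.Agent.H.MP_5be563_lc.PT

variable {α : Type} [Enc α]

private theorem TabP_fold (n : ℕ) (e : List Bool) (N : List (List Bool))
    (cx : List (List ℕ)) (T : List Tok) (z : List Bool) (l : List ℕ) :
    l.foldr (fun _ s => (s.1 + 1, nxt n e N cx T s.1 s.2 (bl (SS n) z s.1)))
      ((0 : ℕ), ([] : List (List SI))) = (l.length, tabI n e N cx T z l.length) := by
  induction l with
  | nil => rfl
  | cons q l ih =>
    rw [List.foldr_cons, ih]
    rfl

private theorem TabP_SI (x : SI) (c : ℕ) (h : x.2.length ≤ c) : sz x ≤ 4 * c + 5 := by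
  have h1 := sz_prod x
  have h2 := sz_bool_le x.1
  have h3 := sz_le_of_forall x.2 3 (fun b _ => sz_bool_le b)
  omega

private theorem TabP_sz (n : ℕ) (e : List Bool) (N : List (List Bool)) (cx : List (List ℕ))
    (T : List Tok) (z : List Bool) (i : ℕ) :
    sz (tabI n e N cx T z i) ≤ i * (i * (8 * e.length + 86) + 2) + 1 := by
  have hlen := (tabI_bound n e N cx T z i).1
  refine (sz_le_of_forall (tabI n e N cx T z i) (i * (8 * e.length + 86) + 1) ?_).trans ?_
  · intro l hl
    cases i with
    | zero => exact absurd hl (by simp [tabI])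
    | succ i =>
      have h1 := (ltab_len e (pow2 (eN n)) (pow2 (eP n)) (kk n) (i + 1)
        (pivots e (i + 1) ((List.range (Rr n)).map fun j =>
          hrow e (vv n) (n + 1) N (tabI n e N cx T z i) cx T i
            (bl (Qw n * vv n) (bl (SS n) z i) j)))).2 l hl
      refine (sz_le_of_forall l (8 * e.length + 85) fun x hx => ?_).trans ?_
      · have h2 := TabP_SI x _ (h1.2 x hx)
        omega
      · rw [h1.1]
  · exact Nat.add_le_add_right (Nat.mul_le_mul_right _ hlen) 1

theorem poly_tabI {fn : α → ℕ} {fe : α → List Bool} {fN : α → List (List Bool)}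
    {fx : α → List (List ℕ)} {fT : α → List Tok} {fz : α → List Bool} {fi : α → ℕ}
    (hn : Poly fn) (he : Poly fe) (hN : Poly fN) (hx : Poly fx) (hT : Poly fT) (hz : Poly fz)
    (hi : Poly fi) :
    Poly (fun a => tabI (fn a) (fe a) (fN a) (fx a) (fT a) (fz a) (fi a)) := by
  have hn' : Poly (fun p : α × (ℕ × List (List SI)) × ℕ => fn p.1) := Poly.comp hn Poly.fst
  have he' : Poly (fun p : α × (ℕ × List (List SI)) × ℕ => fe p.1) := Poly.comp he Poly.fst
  have hN' : Poly (fun p : α × (ℕ × List (List SI)) × ℕ => fN p.1) := Poly.comp hN Poly.fst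
  have hx' : Poly (fun p : α × (ℕ × List (List SI)) × ℕ => fx p.1) := Poly.comp hx Poly.fst
  have hT' : Poly (fun p : α × (ℕ × List (List SI)) × ℕ => fT p.1) := Poly.comp hT Poly.fst
  have hz' : Poly (fun p : α × (ℕ × List (List SI)) × ℕ => fz p.1) := Poly.comp hz Poly.fst
  have hc : Poly (fun p : α × (ℕ × List (List SI)) × ℕ => p.2.1.1 + 1) := by
    fun_prop
  have ht : Poly (fun p : α × (ℕ × List (List SI)) × ℕ => p.2.1.2) := by
    fun_prop
  have hl : Poly (fun p : α × (ℕ × List (List SI)) × ℕ => p.2.1.1) := by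
    fun_prop
  have hS : Poly (fun p : α × (ℕ × List (List SI)) × ℕ => SS (fn p.1)) :=
    (poly_par hn').2.2.2.2.2.2.1
  have hb : Poly (fun p : α × (ℕ × List (List SI)) × ℕ =>
      bl (SS (fn p.1)) (fz p.1) p.2.1.1) := poly_bl hS hz' hl
  have hy : Poly (fun p : α × (ℕ × List (List SI)) × ℕ =>
      nxt (fn p.1) (fe p.1) (fN p.1) (fx p.1) (fT p.1) p.2.1.1 p.2.1.2
        (bl (SS (fn p.1)) (fz p.1) p.2.1.1)) := poly_nxt hn' he' hN' hx' hT' hl ht hb
  have key := Poly.foldr (f := fun p : α × (ℕ × List (List SI)) × ℕ =>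
      (p.2.1.1 + 1, nxt (fn p.1) (fe p.1) (fN p.1) (fx p.1) (fT p.1) p.2.1.1 p.2.1.2
        (bl (SS (fn p.1)) (fz p.1) p.2.1.1)))
    (l := fun a => List.range (fi a)) (s0 := fun _ => ((0 : ℕ), ([] : List (List SI))))
    (B := fun a => (2 * sz (fi a) + 1) +
      (sz (fi a) * (sz (fi a) * (8 * sz (fe a) + 86) + 2) + 1) + 1)
    (Poly.pair hc hy) (Poly.range hi) (by fun_prop)
    (by
      have h1 := hi.sz_le
      have h2 := he.sz_le
      exact ((((PBdd.const 2).mul h1).add (PBdd.const 1)).add
        ((h1.mul ((h1.mul (((PBdd.const 8).mul h2).add (PBdd.const 86))).add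
        (PBdd.const 2))).add (PBdd.const 1))).add (PBdd.const 1))
    (by
      intro a l₁ l₂ h
      simp only
      rw [TabP_fold, sz_pair, sz_nat]
      have h3 : l₂.length ≤ sz (fi a) := by
        have h1 := congrArg List.length h
        rw [List.length_range, List.length_append] at h1
        rw [sz_nat]
        omega
      have h2 := TabP_sz (fn a) (fe a) (fN a) (fx a) (fT a) (fz a) l₂.length
      have h4 : (fe a).length ≤ sz (fe a) := (length_lt_sz (fe a)).le
      have h5 : l₂.length * (l₂.length * (8 * (fe a).length + 86) + 2) ≤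
          sz (fi a) * (sz (fi a) * (8 * sz (fe a) + 86) + 2) := by gcongr
      omega)
  have h2 : Poly (fun a => ((List.range (fi a)).foldr (fun _ s => (s.1 + 1,
      nxt (fn a) (fe a) (fN a) (fx a) (fT a) s.1 s.2 (bl (SS (fn a)) (fz a) s.1)))
      ((0 : ℕ), ([] : List (List SI)))).2) := Poly.comp Poly.snd key
  refine (show (fun a => tabI (fn a) (fe a) (fN a) (fx a) (fT a) (fz a) (fi a)) = _ from ?_) ▸ h2
  funext a
  rw [TabP_fold, List.length_range]

private theorem TabP_fin1 {fn : α → ℕ} {fe : α → List Bool} {fN : α → List (List Bool)}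
    {fT : α → List Tok} {ft : α → List (List SI)} {fz : α → List Bool} (hn : Poly fn)
    (he : Poly fe) (hN : Poly fN) (hT : Poly fT) (ht : Poly ft) (hz : Poly fz) :
    Poly (fun a => fin1 (fn a) (fe a) (fN a) (fT a) (ft a) (fz a)) := by
  have hv := (poly_par hn).2.2.1
  have hQ := (poly_par hn).2.2.2.1
  have hn1 : Poly (fun a => fn a + 1) := Poly.succ hn
  have hb : Poly (fun a => bl (Qw (fn a) * vv (fn a)) (fz a) 0) :=
    poly_bl (Poly.mul hQ hv) hz (H.MP_5be563_lc.PT.Poly.const 0)
  have hr := poly_mrun he hv hn1 hN hb ht hT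
  have hr1 : Poly (fun a => (mrun (fe a) (vv (fn a)) (fn a + 1) (fN a)
      (bl (Qw (fn a) * vv (fn a)) (fz a) 0) (ft a) (fT a)).1) := Poly.comp Poly.fst hr
  have hmd : Poly (fun a => md (fe a)) := Pool.Agent.TW.Poly.md he
  unfold fin1
  exact Pool.Agent.TI.Poly.beqv
    (Pool.Agent.TI.Poly.bmod (Poly.headD hr1 (by fun_prop)) hmd)
    (Pool.Agent.TI.Poly.bmod (Poly.headD (Poly.tail hr1) (by fun_prop)) hmd)

private theorem TabP_test0 {fn : α → ℕ} {fT : α → List Tok} {fe fz : α → List Bool}
    (hn : Poly fn) (hT : Poly fT) (he : Poly fe) (hz : Poly fz) :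
    Poly (fun a => test0 (fn a) (fT a) (fe a) (fz a)) := by
  have hN := Pool.Agent.TI.Poly.names hT
  have hv := (poly_par hn).2.2.1
  have hS := (poly_par hn).2.2.2.2.2.2.1
  have hl : Poly (fun a => (fT a).length) := Poly.length hT
  have h1 := TabP_fin1 hn he hN hT (poly_tabI hn he hN (poly_cxl hT) hT hz hl)
    (poly_bl hS hz hl)
  have h2 := poly_pow2 hv
  unfold test0
  exact Poly.cond (Poly.ble h2 he) h1 (H.MP_5be563_lc.PT.Poly.const true)

theorem poly_test1 {fn : α → ℕ} {fT : α → List Tok} {fz : α → List Bool} (hn : Poly fn)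
    (hT : Poly fT) (hz : Poly fz) : Poly (fun a => test1 (fn a) (fT a) (fz a)) := by
  have hv : Poly (fun a => 2 * vv (fn a)) :=
    Poly.mul (H.MP_5be563_lc.PT.Poly.const 2) (poly_par hn).2.2.1
  unfold test1
  exact TabP_test0 hn hT (Poly.take hv hz) (Poly.drop hv hz)

private theorem TabP_acceptT {fn : α → ℕ} {fT : α → List Tok} {fr : α → List Bool}
    (hn : Poly fn) (hT : Poly fT) (hr : Poly fr) :
    Poly (fun a => acceptT (fn a) (fT a) (fr a)) := by
  have hn' : Poly (fun p : α × ℕ => fn p.1) := Poly.comp hn Poly.fst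
  have hr' : Poly (fun p : α × ℕ => fr p.1) := Poly.comp hr Poly.fst
  have hT' : Poly (fun p : α × ℕ => fT p.1) := Poly.comp hT Poly.fst
  have hp : Poly (fun p : α × ℕ => p.2) := Poly.snd
  have hA := (poly_par hn').2.2.2.2.2.2.2.1
  have hK := (poly_par hn).2.2.2.2.2.2.2.2
  have h1 : Poly (fun p : α × ℕ => test1 (fn p.1) (fT p.1) (bl (AA (fn p.1)) (fr p.1) p.2)) :=
    poly_test1 hn' hT' (poly_bl hA hr' hp)
  unfold acceptT
  exact Poly.and (poly_shapeN hT) (Poly.all (f := fun a j =>
    test1 (fn a) (fT a) (bl (AA (fn a)) (fr a) j)) h1 (Poly.range hK))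

theorem poly_accept : Poly (fun y : List Bool => accept (unpair y).1 (unpair y).2) := by
  have hu : Poly (fun y : List Bool => unpair y) := Pool.Agent.TI.Poly.unpair Poly.id
  have h1 : Poly (fun y : List Bool => (unpair y).1) := Poly.comp Poly.fst hu
  have h2 : Poly (fun y : List Bool => (unpair y).2) := Poly.comp Poly.snd hu
  have h1' : Poly (fun p : List Bool × List Tok => (unpair p.1).1.length) :=
    Poly.length (Poly.comp (f := fun y : List Bool => (unpair y).1)
      (g := fun p : List Bool × List Tok => p.1) h1 Poly.fst)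
  have h2' : Poly (fun p : List Bool × List Tok => (unpair p.1).2) :=
    Poly.comp (f := fun y : List Bool => (unpair y).2)
      (g := fun p : List Bool × List Tok => p.1) h2 Poly.fst
  have h := Poly.ocase (f := fun _ : List Bool => false)
    (g := fun y T => acceptT (unpair y).1.length T (unpair y).2) (Pool.Agent.TI.Poly.tokz h1)
    (H.MP_5be563_lc.PT.Poly.const false) (TabP_acceptT h1' Poly.snd h2')
  refine (show (fun y : List Bool => accept (unpair y).1 (unpair y).2) = _ from ?_) ▸ h
  funext y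
  unfold accept
  cases tokz (unpair y).1 <;> rfl

theorem tm_accept : Nonempty (Turing.TM2ComputableInPolyTime pairCode Computability.encodeBool
    (fun z : List Bool × List Bool => accept z.1 z.2)) := by
  have h := Pool.Agent.TI.tm_pair poly_accept
  simpa only [Pool.Agent.TI.unpair_pairCode] using h

end Pool.Agent.TN
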