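import Pool.Agent.H.MP_b2d7dd_lc.TN.Run
import Pool.Agent.H.MP_b2d7dd_lc.TN.Shp
import Pool.Agent.H.MP_b2d7dd_lc.TW.Nxt

/-!
# Module Nxt: the test

The parameters are those of TW/Nxt (for inputs of length `n`). `nxt` = one stage: the table for the
tokens number `0, ..., i` from the table for the tokens before `i` and the random bits `zz`. `tabI` = all
stages. `fin1` = the comparison of the two terms. `test1` = one round. `accept` = all rounds.
-/

namespace Pool.Agent.TN

open Pool.Agent.TI (Tm Tok names tokz bmod beqv)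
open Pool.Agent.TE (bl)
open Pool.Agent.TW (SI ltab pivots pow2 eN eP vv Qw Rr kk SS AA KK md Aa NB)
open Pool.Agent.H.MP_5be563_lc.PT

/-- One stage. -/
def nxt (n : ℕ) (e : List Bool) (N : List (List Bool)) (cx : List (List ℕ)) (T : List Tok)
    (i : ℕ) (tab : List (List SI)) (zz : List Bool) : List (List SI) :=
  ltab e (pow2 (eN n)) (pow2 (eP n)) (kk n) (i + 1)
    (pivots e (i + 1) ((List.range (Rr n)).map fun j =>
      hrow e (vv n) (n + 1) N tab cx T i (bl (Qw n * vv n) zz j)))

/-- All stages. -/
def tabI (n : ℕ) (e : List Bool) (N : List (List Bool)) (cx : List (List ℕ)) (T : List Tok)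
    (z : List Bool) : ℕ → List (List SI)
  | 0 => []
  | i + 1 => nxt n e N cx T i (tabI n e N cx T z i) (bl (SS n) z i)

/-- The two terms have the same value. -/
def fin1 (n : ℕ) (e : List Bool) (N : List (List Bool)) (T : List Tok) (tab : List (List SI))
    (zz : List Bool) : Bool :=
  beqv
    (bmod ((mrun e (vv n) (n + 1) N (bl (Qw n * vv n) zz 0) tab T).1.headD []) (md e))
    (bmod ((mrun e (vv n) (n + 1) N (bl (Qw n * vv n) zz 0) tab T).1.tail.headD []) (md e))

/-- The test for given bits of the modulus and of the stages. -/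
def test0 (n : ℕ) (T : List Tok) (e z : List Bool) : Bool :=
  bif ble (pow2 (vv n)) e then
    fin1 n e (names T) T (tabI n e (names T) (cxl T) T z T.length) (bl (SS n) z T.length)
  else true

/-- One round. -/
def test1 (n : ℕ) (T : List Tok) (z : List Bool) : Bool :=
  test0 n T (z.take (2 * vv n)) (z.drop (2 * vv n))

/-- The test on tokens. -/
def acceptT (n : ℕ) (T : List Tok) (r : List Bool) : Bool :=
  shapeN T && (List.range (KK n)).all fun j => test1 n T (bl (AA n) r j)

/-- The test. -/
def accept (x r : List Bool) : Bool :=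
  match tokz x with
  | none => false
  | some T => acceptT x.length T r

/-- The bound for the minors. -/
theorem NB_le' {n L : ℕ} (h : L ≤ n) : NB L (2 ^ (n + 1)) ≤ 2 ^ eN n := by
  unfold NB eN
  have h1 : L.factorial ≤ (2 ^ L) ^ L :=
    (Nat.factorial_le_pow L).trans (Nat.pow_le_pow_left Nat.lt_two_pow_self.le L)
  calc L.factorial * (2 ^ (n + 1)) ^ L ≤ (2 ^ L) ^ L * (2 ^ (n + 1)) ^ L :=
        Nat.mul_le_mul_right _ h1
    _ = 2 ^ (L * L + (n + 1) * L) := by rw [← pow_mul, ← pow_mul, ← pow_add]
    _ ≤ 2 ^ (3 * ((n + 1) * (n + 1))) := by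
        refine Nat.pow_le_pow_right (by norm_num) ?_
        have h2 : L * L ≤ n * n := Nat.mul_le_mul h h
        have h3 : (n + 1) * L ≤ (n + 1) * n := Nat.mul_le_mul_left _ h
        nlinarith

end Pool.Agent.TN
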