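import Pool.Agent.H.MP_b2d7dd_lc.TN.Nxt
import Pool.Agent.H.MP_b2d7dd_lc.TW.NxtP

/-!
# Module NxtP: one stage runs in polynomial time

Compare TW/RunP and TW/NxtP (`poly_par`, `poly_pow2`, `poly_bl`, `poly_tval` can be used).
`mrun`: the stack has at most `T.length` entries, each of length at most `e.length + 4`
(`length_tval_le`, `length_rad_le`, `length_rmu_le`; the entries are results of these functions,
`[true]`, or copies of earlier entries). `cxl`: the stack has at most `T.length` entries
`(number, list)`, numbers less than `T.length`, lists of length at most ... the lists `L` have at most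
`T.length` elements in total (they are concatenated, never copied); every list of `cx` gets at most one
new element in a step, all the numbers are less than `T.length`.
-/

namespace Pool.Agent.TN

open Pool.Agent.TI (Tm Tok names tokz)
open Pool.Agent.TE (bl)
open Pool.Agent.TW (SI tval rad rmu length_tval_le length_rad_le length_rmu_le poly_tval poly_bl
  poly_par poly_pow2 poly_ltab poly_pivots vv Qw Rr)
open Pool.Agent.H.MP_5be563_lc.PT

variable {α : Type} [Enc α]

private theorem NxtP_c {β : Type} [Enc β] (b : β) : Poly (fun _ : α => b) :=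
  Pool.Agent.H.MP_5be563_lc.PT.Poly.const b

private theorem NxtP_head {e : List Bool} {l : List (List Bool)}
    (h : ∀ x ∈ l, x.length ≤ e.length + 4) : (l.headD [true]).length ≤ e.length + 4 := by
  cases l with
  | nil => simp
  | cons a l => exact h a List.mem_cons_self

theorem mrun_len (e : List Bool) (v c : ℕ) (N : List (List Bool)) (Z : List Bool)
    (tab : List (List SI)) (T : List Tok) :
    (mrun e v c N Z tab T).1.length ≤ T.length ∧ (mrun e v c N Z tab T).2.length = T.length ∧
      (∀ x ∈ (mrun e v c N Z tab T).1, x.length ≤ e.length + 4) ∧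
      (∀ x ∈ (mrun e v c N Z tab T).2, x.length ≤ e.length + 4) := by
  induction T with
  | nil =>
    refine ⟨le_rfl, rfl, ?_, ?_⟩
    · intro x hx
      exact absurd hx (by simp [mrun])
    · intro x hx
      exact absurd hx (by simp [mrun])
  | cons q T ih =>
    obtain ⟨h1, h2, h3, h4⟩ := ih
    have hcons : mrun e v c N Z tab (q :: T) = rstep e v c N Z tab q (mrun e v c N Z tab T) := rfl
    rw [hcons]
    revert h1 h2 h3 h4
    generalize mrun e v c N Z tab T = s
    intro h1 h2 h3 h4
    have hu : ∃ u : List Bool, u.length ≤ e.length + 4 ∧ rstep e v c N Z tab q s =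
        (u :: (bif decide (q.1 = 0) || decide (q.1 = 4) then s.1 else s.1.tail.tail),
          s.2 ++ [u]) := by
      refine ⟨_, ?_, rfl⟩
      by_cases c0 : q.1 = 0
      · simp [c0]
      · by_cases c4 : q.1 = 4
        · simp only [c4, decide_true, cond_true]
          exact length_tval_le _ _ _ _ _ _ _ _
        · by_cases c1 : q.1 = 1
          · simp only [c1, decide_true, cond_true]
            exact length_rad_le _ _ _
          · by_cases c2 : q.1 = 2
            · simp only [c2, decide_true, cond_true]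
              exact length_rmu_le _ _ _
            · simp only [c0, c4, c1, c2, decide_false, cond_false]
              exact NxtP_head h3
    obtain ⟨u, hu1, hu2⟩ := hu
    rw [hu2]
    have hsub : ∀ x ∈ (bif decide (q.1 = 0) || decide (q.1 = 4) then s.1 else s.1.tail.tail),
        x ∈ s.1 := by
      intro x hx
      cases hb : (decide (q.1 = 0) || decide (q.1 = 4))
      · rw [hb, cond_false] at hx
        exact List.mem_of_mem_tail (List.mem_of_mem_tail hx)
      · rw [hb, cond_true] at hx
        exact hx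
    have hlen : (bif decide (q.1 = 0) || decide (q.1 = 4) then s.1 else s.1.tail.tail).length ≤
        s.1.length := by
      cases hb : (decide (q.1 = 0) || decide (q.1 = 4))
      · rw [cond_false, List.length_tail, List.length_tail]
        omega
      · rw [cond_true]
    refine ⟨?_, ?_, ?_, ?_⟩
    · rw [List.length_cons, List.length_cons]
      omega
    · rw [List.length_append, List.length_singleton, List.length_cons, h2]
    · intro x hx
      rcases List.mem_cons.1 hx with rfl | hx
      · exact hu1
      · exact h3 x (hsub x hx)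
    · intro x hx
      rcases List.mem_append.1 hx with hx | hx
      · exact h4 x hx
      · rw [List.mem_singleton.1 hx]
        exact hu1

private theorem NxtP_rstep {fe : α → List Bool} {fv fc : α → ℕ} {fN : α → List (List Bool)}
    {fZ : α → List Bool} {ft : α → List (List SI)} {fq : α → Tok}
    {fs : α → List (List Bool) × List (List Bool)}
    (he : Poly fe) (hv : Poly fv) (hc : Poly fc) (hN : Poly fN) (hZ : Poly fZ) (ht : Poly ft)
    (hq : Poly fq) (hs : Poly fs) :
    Poly (fun a => rstep (fe a) (fv a) (fc a) (fN a) (fZ a) (ft a) (fq a) (fs a)) := by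
  have hl : Poly (fun a => (fs a).2.length) := by fun_prop
  have h1 : Poly (fun a => (fs a).1.headD [true]) := by fun_prop
  have h2 : Poly (fun a => (fs a).1.tail.headD [true]) := by fun_prop
  have h3 : Poly (fun a => tval (fe a) (fv a) (fc a) (fN a) (fZ a) (ft a) (fs a).2.length
      (fq a).2) := poly_tval he hv hc hN hZ ht hl (by fun_prop)
  have hq1 : Poly (fun a => (fq a).1) := by fun_prop
  have hq0 : Poly (fun a => decide ((fq a).1 = 0)) := Poly.isZero hq1
  have hq4 : Poly (fun a => decide ((fq a).1 = 4)) := Poly.nateq hq1 (NxtP_c 4)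
  have hu : Poly (fun a => bif decide ((fq a).1 = 0) then [true]
      else bif decide ((fq a).1 = 4) then tval (fe a) (fv a) (fc a) (fN a) (fZ a) (ft a)
        (fs a).2.length (fq a).2
      else bif decide ((fq a).1 = 1) then
        rad (fe a) ((fs a).1.headD [true]) ((fs a).1.tail.headD [true])
      else bif decide ((fq a).1 = 2) then
        rmu (fe a) ((fs a).1.headD [true]) ((fs a).1.tail.headD [true])
      else (fs a).1.headD [true]) :=
    Poly.cond hq0 (NxtP_c _) (Poly.cond hq4 h3 (Poly.cond (Poly.nateq hq1 (NxtP_c 1))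
      (Pool.Agent.TW.Poly.rad he h1 h2) (Poly.cond (Poly.nateq hq1 (NxtP_c 2))
        (Pool.Agent.TW.Poly.rmu he h1 h2) h1)))
  have hr : Poly (fun a => bif decide ((fq a).1 = 0) || decide ((fq a).1 = 4) then (fs a).1
      else (fs a).1.tail.tail) :=
    Poly.cond (Poly.or hq0 hq4) (by fun_prop) (by fun_prop)
  have h5 : Poly (fun a => (fs a).2) := by fun_prop
  have h7 := Poly.pair (Poly.lcons hu hr) (Poly.append h5
    (Poly.lcons hu (NxtP_c ([] : List (List Bool)))))
  exact h7

private theorem NxtP_sz (e : List Bool) (v c : ℕ) (N : List (List Bool)) (Z : List Bool)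
    (tab : List (List SI)) (T l₁ l₂ : List Tok) (h : T = l₁ ++ l₂) :
    sz (mrun e v c N Z tab l₂) ≤ 2 * (sz T * (4 * (sz e + 4) + 2) + 1) + 3 := by
  obtain ⟨h1, h2, h3, h4⟩ := mrun_len e v c N Z tab l₂
  have hT : l₂.length ≤ sz T := by
    have h5 := length_lt_sz T
    have h6 : l₂.length ≤ T.length := by
      rw [h, List.length_append]
      omega
    omega
  have he := length_lt_sz e
  have hK : ∀ l : List (List Bool), l.length ≤ sz T → (∀ x ∈ l, x.length ≤ e.length + 4) →
      sz l ≤ sz T * (4 * (sz e + 4) + 2) + 1 := by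
    intro l hl hx
    refine (sz_le_of_forall l (4 * (sz e + 4) + 1) fun x hm => ?_).trans ?_
    · have h5 := hx x hm
      have h6 := (sz_bool_list x).2
      omega
    · exact Nat.add_le_add_right (Nat.mul_le_mul_right _ hl) 1
  have k1 := hK _ (h1.trans hT) h3
  have k2 := hK _ (h2.le.trans hT) h4
  rw [sz_prod]
  omega

theorem poly_mrun {fe : α → List Bool} {fv fc : α → ℕ} {fN : α → List (List Bool)}
    {fZ : α → List Bool} {ft : α → List (List SI)} {fT : α → List Tok}
    (he : Poly fe) (hv : Poly fv) (hc : Poly fc) (hN : Poly fN) (hZ : Poly fZ) (ht : Poly ft)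
    (hT : Poly fT) :
    Poly (fun a => mrun (fe a) (fv a) (fc a) (fN a) (fZ a) (ft a) (fT a)) := by
  have hf : Poly (fun p : α × (List (List Bool) × List (List Bool)) × Tok =>
      rstep (fe p.1) (fv p.1) (fc p.1) (fN p.1) (fZ p.1) (ft p.1) p.2.2 p.2.1) :=
    NxtP_rstep (he.comp Poly.fst) (hv.comp Poly.fst) (hc.comp Poly.fst) (hN.comp Poly.fst)
      (hZ.comp Poly.fst) (ht.comp Poly.fst) (by fun_prop) (by fun_prop)
  exact Poly.foldr
    (f := fun p : α × (List (List Bool) × List (List Bool)) × Tok =>
      rstep (fe p.1) (fv p.1) (fc p.1) (fN p.1) (fZ p.1) (ft p.1) p.2.2 p.2.1)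
    (l := fT) (s0 := fun _ => (([], []) : List (List Bool) × List (List Bool)))
    (B := fun a => 2 * (sz (fT a) * (4 * (sz (fe a) + 4) + 2) + 1) + 3) hf hT
    (NxtP_c _)
    (((PBdd.const 2).mul ((hT.sz_le.mul (((PBdd.const 4).mul (he.sz_le.add
      (PBdd.const 4))).add (PBdd.const 2))).add (PBdd.const 1))).add
      (PBdd.const 3)) (by
      intro a l₁ l₂ h
      exact NxtP_sz (fe a) (fv a) (fc a) (fN a) (fZ a) (ft a) (fT a) l₁ l₂ h)

private theorem NxtP_hlen (e : List Bool) (tops : List (List Bool)) (l : List ℕ) :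
    (hent e tops l).length ≤ e.length + 4 := by
  cases l with
  | nil => simp [hent]
  | cons b l => exact length_rmu_le _ _ _

theorem poly_hent {fe : α → List Bool} {ft : α → List (List Bool)} {fl : α → List ℕ}
    (he : Poly fe) (ht : Poly ft) (hl : Poly fl) :
    Poly (fun a => hent (fe a) (ft a) (fl a)) := by
  have hf : Poly (fun p : α × List Bool × ℕ =>
      rmu (fe p.1) p.2.1 ((ft p.1).getD p.2.2 [true])) :=
    Pool.Agent.TW.Poly.rmu (he.comp Poly.fst) (Poly.comp Poly.fst Poly.snd)
      (Poly.getD (Poly.comp Poly.snd Poly.snd) (ht.comp Poly.fst) (NxtP_c _))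
  unfold hent
  exact Poly.foldr (f := fun p : α × List Bool × ℕ =>
      rmu (fe p.1) p.2.1 ((ft p.1).getD p.2.2 [true]))
    (l := fl) (s0 := fun _ => [true])
    (B := fun a => 4 * (sz (fe a) + 4) + 1) hf hl (NxtP_c _)
    (((PBdd.const 4).mul (he.sz_le.add (PBdd.const 4))).add (PBdd.const 1)) (by
      intro a l₁ l₂ _
      have h1 := NxtP_hlen (fe a) (ft a) l₂
      refine (sz_bool_list _).2.trans ?_
      have h2 := length_lt_sz (fe a)
      refine Nat.add_le_add_right (Nat.mul_le_mul_left 4 (h1.trans ?_)) 1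
      omega)

theorem poly_hrow {fe : α → List Bool} {fv fc : α → ℕ} {fN : α → List (List Bool)}
    {fZ : α → List Bool} {ft : α → List (List SI)} {fx : α → List (List ℕ)}
    {fT : α → List Tok} {fi : α → ℕ} (he : Poly fe) (hv : Poly fv) (hc : Poly fc)
    (hN : Poly fN) (ht : Poly ft) (hx : Poly fx) (hT : Poly fT) (hi : Poly fi)
    (hZ : Poly fZ) :
    Poly (fun a => hrow (fe a) (fv a) (fc a) (fN a) (ft a) (fx a) (fT a) (fi a) (fZ a)) := by
  have h0 : Poly (fun a => (fT a).drop ((fT a).length - fi a)) :=
    Poly.drop (Poly.sub (Poly.length hT) hi) hT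
  have h1 : Poly (fun a => (mrun (fe a) (fv a) (fc a) (fN a) (fZ a) (ft a)
      ((fT a).drop ((fT a).length - fi a))).2) :=
    Poly.comp Poly.snd (poly_mrun he hv hc hN hZ ht h0)
  have h2 : Poly (fun p : α × ℕ => (fx p.1).getD p.2 []) :=
    Poly.getD Poly.snd (hx.comp Poly.fst) (NxtP_c _)
  have hf : Poly (fun p : α × ℕ => hent (fe p.1)
      (mrun (fe p.1) (fv p.1) (fc p.1) (fN p.1) (fZ p.1) (ft p.1)
        ((fT p.1).drop ((fT p.1).length - fi p.1))).2 ((fx p.1).getD p.2 [])) :=
    poly_hent (he.comp Poly.fst) (h1.comp Poly.fst) h2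
  unfold hrow
  exact Pool.Agent.H.MP_5be563_lc.PT.Poly.map (f := fun a j => hent (fe a)
      (mrun (fe a) (fv a) (fc a) (fN a) (fZ a) (ft a)
        ((fT a).drop ((fT a).length - fi a))).2 ((fx a).getD j []))
    (l := fun a => List.range (fi a + 1)) hf (Poly.range (Poly.add hi (NxtP_c 1)))

theorem poly_nxt {fn : α → ℕ} {fe : α → List Bool} {fN : α → List (List Bool)}
    {fx : α → List (List ℕ)} {fT : α → List Tok} {fi : α → ℕ} {ft : α → List (List SI)}
    {fz : α → List Bool} (hn : Poly fn) (he : Poly fe) (hN : Poly fN) (hx : Poly fx)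
    (hT : Poly fT) (hi : Poly fi) (ht : Poly ft) (hz : Poly fz) :
    Poly (fun a => nxt (fn a) (fe a) (fN a) (fx a) (fT a) (fi a) (ft a) (fz a)) := by
  obtain ⟨h1, h2, h3, h4, h5, h6, -, -, -⟩ := poly_par hn
  obtain ⟨g1, g2, g3, g4, g5, g6, -, -, -⟩ := poly_par (f := fun p : α × ℕ => fn p.1) (by fun_prop)
  unfold nxt
  refine poly_ltab he (poly_pow2 h1) (poly_pow2 h2) h6 (Poly.add hi (NxtP_c 1)) ?_
  refine poly_pivots he (Poly.add hi (NxtP_c 1)) ?_
  refine H.MP_5be563_lc.PT.Poly.map (f := fun a j => hrow (fe a) (vv (fn a)) (fn a + 1) (fN a)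
    (ft a) (fx a) (fT a) (fi a) (bl (Qw (fn a) * vv (fn a)) (fz a) j)) ?_ (Poly.range h5)
  exact poly_hrow (he.comp Poly.fst) g3 (Poly.add (hn.comp Poly.fst) (NxtP_c 1))
    (hN.comp Poly.fst) (ht.comp Poly.fst) (hx.comp Poly.fst) (hT.comp Poly.fst)
    (hi.comp Poly.fst) (poly_bl (Poly.mul g4 g3) (hz.comp Poly.fst) Poly.snd)

end Pool.Agent.TN
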