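import Pool.Agent.H.MP_b2d7dd_lc.TN.Defs
import Pool.Agent.H.MP_b2d7dd_lc.TW.Rep

/-!
# Module Rep: terms as sums of monomials

The same as TW/Rep, with an accumulator `f`: for a term `t`, `re f t` stands for `t ^ f` (used with
`f = 1`, or for terms without sums). `re 1 t` = the coefficients of the monomials of `t`. The
exponent functions of the variables are products of the functions of all the exponents of the powers
around the variable.
-/

namespace Pool.Agent.TN

open Pool.Agent.TI Pool.Agent.TW Finset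

/-- The coefficients of the monomials. -/
noncomputable def re (f : Fn) : Tm → (List Bool →₀ Fn) →₀ ℤ
  | .one => Finsupp.single 0 1
  | .var w => Finsupp.single (Finsupp.single w f) 1
  | .add s t => re f s + re f t
  | .mul s t => (re f s).sum fun g c => (re f t).sum fun g' c' => Finsupp.single (g + g') (c * c')
  | .pow s t => re (f * vf t) s

/-- The pairs (variable, exponent function) are in `A`. -/
def Ae (A : Set (List Bool × Fn)) (f : Fn) : Tm → Prop
  | .one => True
  | .var w => (w, f) ∈ A
  | .add s t => Ae A f s ∧ Ae A f t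
  | .mul s t => Ae A f s ∧ Ae A f t
  | .pow s t => Ae A (f * vf t) s

/-- The value for given values of the powers of the variables. -/
def he {K : Type} [CommRing K] (χ : List Bool → Fn → K) (f : Fn) : Tm → K
  | .one => 1
  | .var w => χ w f
  | .add s t => he χ f s + he χ f t
  | .mul s t => he χ f s * he χ f t
  | .pow s t => he χ (f * vf t) s

theorem Ae.mono {A A' : Set (List Bool × Fn)} (h : A ⊆ A') {t : Tm} {f : Fn} (ht : Ae A f t) :
    Ae A' f t := by
  induction t generalizing f with
  | one => trivial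
  | var w => exact h ht
  | add s t ihs iht => exact ⟨ihs ht.1, iht ht.2⟩
  | mul s t ihs iht => exact ⟨ihs ht.1, iht ht.2⟩
  | pow s t ihs _ => exact ihs ht

private theorem Rep_single {g g' : List Bool →₀ Fn} {c : ℤ}
    (h : g ∈ (Finsupp.single g' c).support) : g = g' := by
  have h1 := Finsupp.support_single_subset h
  rwa [Finset.mem_singleton] at h1

private theorem Rep_mul_supp {s t : Tm} {f : Fn} {g : List Bool →₀ Fn}
    (h : g ∈ (re f (.mul s t)).support) :
    ∃ a ∈ (re f s).support, ∃ b ∈ (re f t).support, g = a + b := by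
  classical
  have h1 : g ∈ ((re f s).sum fun g c => (re f t).sum fun g' c' =>
      Finsupp.single (g + g') (c * c')).support := h
  have h2 := Finsupp.support_sum h1
  rw [Finset.mem_biUnion] at h2
  obtain ⟨a, ha, h3⟩ := h2
  have h4 := Finsupp.support_sum h3
  rw [Finset.mem_biUnion] at h4
  obtain ⟨b, hb, h5⟩ := h4
  exact ⟨a, ha, b, hb, Rep_single h5⟩

theorem re_supp {A : Set (List Bool × Fn)} {t : Tm} {f : Fn} (h : Ae A f t) :
    ∀ g ∈ (re f t).support, ∃ l : List (List Bool × Fn), l.length ≤ t.sz ∧ (∀ p ∈ l, p ∈ A) ∧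
      g = (l.map fun p => Finsupp.single p.1 p.2).sum := by
  classical
  induction t generalizing f with
  | one =>
    intro g hg
    exact ⟨[], Nat.zero_le _, by simp, by simpa using Rep_single (c := 1) hg⟩
  | var w =>
    intro g hg
    refine ⟨[(w, f)], le_refl 1, ?_, by simpa using Rep_single (c := 1) hg⟩
    intro p hp
    rw [List.mem_singleton] at hp
    rw [hp]
    exact h
  | add s t ihs iht =>
    intro g hg
    have hg' : g ∈ (re f s + re f t).support := hg
    rcases Finset.mem_union.1 (Finsupp.support_add hg') with h1 | h1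
    · obtain ⟨l, hl, hA, e⟩ := ihs h.1 g h1
      exact ⟨l, hl.trans (by simp only [Tm.sz]; omega), hA, e⟩
    · obtain ⟨l, hl, hA, e⟩ := iht h.2 g h1
      exact ⟨l, hl.trans (by simp only [Tm.sz]; omega), hA, e⟩
  | mul s t ihs iht =>
    intro g hg
    obtain ⟨a, ha, b, hb, e⟩ := Rep_mul_supp hg
    obtain ⟨l, hl, hA, e1⟩ := ihs h.1 a ha
    obtain ⟨l', hl', hA', e2⟩ := iht h.2 b hb
    refine ⟨l ++ l', ?_, ?_, ?_⟩
    · rw [List.length_append]
      simp only [Tm.sz]
      omega
    · intro p hp
      rcases List.mem_append.1 hp with hp | hp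
      · exact hA p hp
      · exact hA' p hp
    · rw [List.map_append, List.sum_append, ← e1, ← e2, e]
  | pow s t ihs _ =>
    intro g hg
    obtain ⟨l, hl, hA, e⟩ := ihs (f := f * vf t) h g hg
    exact ⟨l, hl.trans (by simp only [Tm.sz]; omega), hA, e⟩

theorem re_mem {S : AddSubgroup Fn} {t : Tm} {f : Fn} (h : Ae {p | p.2 ∈ S} f t) :
    ∀ g ∈ (re f t).support, ∀ w, g w ∈ S := by
  classical
  intro g hg w
  obtain ⟨l, -, hA, e⟩ := re_supp h g hg
  rw [e]
  clear e hg
  induction l with
  | nil =>
    rw [List.map_nil, List.sum_nil, Finsupp.zero_apply]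
    exact S.zero_mem
  | cons p l ih =>
    rw [List.map_cons, List.sum_cons, Finsupp.add_apply]
    refine S.add_mem ?_ (ih fun q hq => hA q (List.mem_cons_of_mem _ hq))
    have h1 : p.2 ∈ S := hA p List.mem_cons_self
    rw [Finsupp.single_apply]
    split_ifs
    · exact h1
    · exact S.zero_mem

/-- the sum of the coefficients -/
private noncomputable def Rep_tot (f : (List Bool →₀ Fn) →₀ ℤ) : ℤ := f.sum fun _ c => c

private theorem Rep_tot_single (g : List Bool →₀ Fn) (c : ℤ) :
    Rep_tot (Finsupp.single g c) = c := Finsupp.sum_single_index rfl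

private theorem Rep_tot_add (f g : (List Bool →₀ Fn) →₀ ℤ) :
    Rep_tot (f + g) = Rep_tot f + Rep_tot g :=
  Finsupp.sum_add_index' (fun _ => rfl) (fun _ _ _ => rfl)

private theorem Rep_tot_mul (f : Fn) (s t : Tm) :
    Rep_tot (re f (.mul s t)) = Rep_tot (re f s) * Rep_tot (re f t) := by
  have h1 : Rep_tot (re f (.mul s t)) = ((re f s).sum fun g c => (re f t).sum fun g' c' =>
      Finsupp.single (g + g') (c * c')).sum fun _ c => c := rfl
  rw [h1, Finsupp.sum_sum_index (fun _ => rfl) (fun _ _ _ => rfl)]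
  have h2 : ∀ (g : List Bool →₀ Fn) (c : ℤ), ((re f t).sum fun g' c' =>
      Finsupp.single (g + g') (c * c')).sum (fun _ c => c) = c * Rep_tot (re f t) := by
    intro g c
    rw [Finsupp.sum_sum_index (fun _ => rfl) (fun _ _ _ => rfl)]
    have h3 : ∀ (g' : List Bool →₀ Fn) (c' : ℤ),
        (Finsupp.single (g + g') (c * c')).sum (fun _ c => c) = c * c' :=
      fun g' c' => Finsupp.sum_single_index rfl
    simp only [h3]
    unfold Rep_tot
    rw [Finsupp.mul_sum]
  simp only [h2]
  unfold Rep_tot
  rw [Finsupp.sum_mul]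

private theorem Rep_single_nonneg (g' g : List Bool →₀ Fn) (c : ℤ) (hc : 0 ≤ c) :
    0 ≤ Finsupp.single g' c g := by
  classical
  rw [Finsupp.single_apply]
  split_ifs
  · exact hc
  · exact le_refl 0

private theorem Rep_nonneg (t : Tm) (f : Fn) (g : List Bool →₀ Fn) : 0 ≤ re f t g := by
  classical
  induction t generalizing f g with
  | one => exact Rep_single_nonneg _ _ _ zero_le_one
  | var w => exact Rep_single_nonneg _ _ _ zero_le_one
  | add s t ihs iht =>
    have h1 : re f (.add s t) g = re f s g + re f t g := rfl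
    rw [h1]
    exact add_nonneg (ihs f g) (iht f g)
  | mul s t ihs iht =>
    have h1 : re f (.mul s t) g = ((re f s).sum fun g c => (re f t).sum fun g' c' =>
      Finsupp.single (g + g') (c * c')) g := rfl
    rw [h1, Finsupp.sum_apply]
    refine Finset.sum_nonneg fun a _ => ?_
    change 0 ≤ ((re f t).sum fun g' c' => Finsupp.single (a + g') (re f s a * c')) g
    rw [Finsupp.sum_apply]
    refine Finset.sum_nonneg fun b _ => ?_
    exact Rep_single_nonneg _ _ _ (mul_nonneg (ihs f a) (iht f b))
  | pow s t ihs _ => exact ihs (f * vf t) g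

private theorem Rep_tot_le (t : Tm) (f : Fn) :
    Rep_tot (re f t) ≤ 2 ^ t.sz ∧ 0 ≤ Rep_tot (re f t) := by
  have hnn : ∀ (t : Tm) (f : Fn), 0 ≤ Rep_tot (re f t) :=
    fun t f => Finset.sum_nonneg fun g _ => Rep_nonneg t f g
  refine ⟨?_, hnn t f⟩
  induction t generalizing f with
  | one =>
    have h1 : Rep_tot (re f .one) = 1 := Rep_tot_single _ _
    rw [h1]
    norm_num [Tm.sz]
  | var w =>
    have h1 : Rep_tot (re f (.var w)) = 1 := Rep_tot_single _ _
    rw [h1]
    norm_num [Tm.sz]
  | add s t ihs iht =>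
    have h1 : Rep_tot (re f (.add s t)) = Rep_tot (re f s) + Rep_tot (re f t) := Rep_tot_add _ _
    have h2 : (2 : ℤ) ^ s.sz ≤ 2 ^ (s.sz + t.sz) := pow_le_pow_right₀ (by norm_num) (by omega)
    have h3 : (2 : ℤ) ^ t.sz ≤ 2 ^ (s.sz + t.sz) := pow_le_pow_right₀ (by norm_num) (by omega)
    have h4 : (2 : ℤ) ^ (Tm.add s t).sz = 2 * 2 ^ (s.sz + t.sz) := by
      simp only [Tm.sz]
      rw [pow_succ]
      ring
    have h5 := ihs f
    have h6 := iht f
    rw [h1, h4]
    linarith
  | mul s t ihs iht =>
    have h2 : Rep_tot (re f s) * Rep_tot (re f t) ≤ 2 ^ s.sz * 2 ^ t.sz :=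
      mul_le_mul (ihs f) (iht f) (hnn t f) (by positivity)
    have h3 : (2 : ℤ) ^ (Tm.mul s t).sz = 2 * (2 ^ s.sz * 2 ^ t.sz) := by
      simp only [Tm.sz]
      rw [pow_succ, pow_add]
      ring
    have h4 : (0 : ℤ) ≤ 2 ^ s.sz * 2 ^ t.sz := by positivity
    rw [Rep_tot_mul, h3]
    linarith
  | pow s t ihs _ =>
    have h1 : Rep_tot (re f (.pow s t)) = Rep_tot (re (f * vf t) s) := rfl
    have h2 : (2 : ℤ) ^ s.sz ≤ 2 ^ (Tm.pow s t).sz :=
      pow_le_pow_right₀ (by norm_num) (by simp only [Tm.sz]; omega)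
    rw [h1]
    exact (ihs (f * vf t)).trans h2

theorem re_bound (t : Tm) (f : Fn) (g : List Bool →₀ Fn) :
    0 ≤ re f t g ∧ re f t g ≤ 2 ^ t.sz := by
  refine ⟨Rep_nonneg t f g, ?_⟩
  have h1 := Rep_tot_le t f
  by_cases hg : g ∈ (re f t).support
  · refine le_trans ?_ h1.1
    exact Finset.single_le_sum (f := fun g => re f t g) (fun a _ => Rep_nonneg t f a) hg
  · rw [Finsupp.notMem_support_iff] at hg
    rw [hg]
    positivity

private theorem Rep_prod_add {K : Type} [CommRing K] {S : AddSubgroup Fn}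
    {χ : List Bool → Fn → K} (hχ : Chr S χ) {g g' : List Bool →₀ Fn}
    (hg : ∀ w, g w ∈ S) (hg' : ∀ w, g' w ∈ S) :
    (g + g').prod χ = g.prod χ * g'.prod χ := by
  classical
  rw [Finsupp.prod_of_support_subset (g + g') (s := g.support ∪ g'.support) Finsupp.support_add χ
      (fun i _ => hχ.zero i),
    Finsupp.prod_of_support_subset g (s := g.support ∪ g'.support) Finset.subset_union_left χ
      (fun i _ => hχ.zero i),
    Finsupp.prod_of_support_subset g' (s := g.support ∪ g'.support) Finset.subset_union_right χ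
      (fun i _ => hχ.zero i), ← Finset.prod_mul_distrib]
  refine Finset.prod_congr rfl fun w _ => ?_
  rw [Finsupp.add_apply]
  exact hχ.add w _ (hg w) _ (hg' w)

theorem he_re {K : Type} [CommRing K] {S : AddSubgroup Fn} {χ : List Bool → Fn → K}
    (hχ : Chr S χ) {t : Tm} {f : Fn} (ht : Ae {p | p.2 ∈ S} f t) :
    he χ f t = (re f t).sum fun g c => (c : K) * g.prod χ := by
  classical
  have h0 : ∀ g : List Bool →₀ Fn, ((0 : ℤ) : K) * g.prod χ = 0 := fun g => by
    rw [Int.cast_zero, zero_mul]
  have ha : ∀ (g : List Bool →₀ Fn) (c c' : ℤ),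
      ((c + c' : ℤ) : K) * g.prod χ = (c : K) * g.prod χ + (c' : K) * g.prod χ :=
    fun g c c' => by rw [Int.cast_add, add_mul]
  have hsg : ∀ (w : List Bool) (f : Fn),
      (Finsupp.single (Finsupp.single w f) (1 : ℤ)).sum (fun g c => (c : K) * g.prod χ) = χ w f := by
    intro w f
    rw [Finsupp.sum_single_index (h0 _), Int.cast_one, one_mul,
      Finsupp.prod_single_index (hχ.zero w)]
  induction t generalizing f with
  | one =>
    change (1 : K) = (Finsupp.single (0 : List Bool →₀ Fn) (1 : ℤ)).sum _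
    rw [Finsupp.sum_single_index (h0 _), Int.cast_one, one_mul, Finsupp.prod_zero_index]
  | var w => exact (hsg w f).symm
  | add s t ihs iht =>
    change he χ f s + he χ f t = (re f s + re f t).sum _
    rw [Finsupp.sum_add_index' h0 ha, ihs ht.1, iht ht.2]
  | mul s t ihs iht =>
    change he χ f s * he χ f t = ((re f s).sum fun g c => (re f t).sum fun g' c' =>
      Finsupp.single (g + g') (c * c')).sum _
    rw [Finsupp.sum_sum_index h0 ha, ihs ht.1, iht ht.2]
    rw [Finsupp.sum_mul]
    refine Finset.sum_congr rfl fun g hg => ?_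
    change ((re f s g : ℤ) : K) * g.prod χ * (re f t).sum (fun g c => (c : K) * g.prod χ) =
      ((re f t).sum fun g' c' => Finsupp.single (g + g') (re f s g * c')).sum
        (fun g c => (c : K) * g.prod χ)
    rw [Finsupp.sum_sum_index h0 ha, Finsupp.mul_sum]
    refine Finset.sum_congr rfl fun g' hg' => ?_
    change ((re f s g : ℤ) : K) * g.prod χ * (((re f t g' : ℤ) : K) * g'.prod χ) =
      (Finsupp.single (g + g') (re f s g * re f t g')).sum (fun g c => (c : K) * g.prod χ)
    rw [Finsupp.sum_single_index (h0 _), Rep_prod_add hχ (re_mem ht.1 g hg) (re_mem ht.2 g' hg'),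
      Int.cast_mul]
    ring
  | pow s t ihs _ => exact ihs (f := f * vf t) ht

/-- Without sums there is exactly one monomial. -/
theorem re_sumFree {t : Tm} (ht : SumFree t) (f : Fn) :
    ∃ g : List Bool →₀ Fn, re f t = Finsupp.single g 1 := by
  induction t generalizing f with
  | one => exact ⟨0, rfl⟩
  | var w => exact ⟨Finsupp.single w f, rfl⟩
  | add s t _ _ => exact absurd ht (by simp [SumFree])
  | mul s t ihs iht =>
    obtain ⟨g, hg⟩ := ihs ht.1 f
    obtain ⟨g', hg'⟩ := iht ht.2 f
    refine ⟨g + g', ?_⟩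
    change ((re f s).sum fun g c => (re f t).sum fun g' c' =>
      Finsupp.single (g + g') (c * c')) = _
    rw [hg, hg', Finsupp.sum_single_index, Finsupp.sum_single_index, mul_one]
    · rw [mul_zero, Finsupp.single_zero]
    · rw [Finsupp.sum_single_index] <;> rw [zero_mul, Finsupp.single_zero]
  | pow s t ihs _ => exact ihs ht (f * vf t)

end Pool.Agent.TN
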