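import Pool.Agent.H.MP_b2d7dd_lc.TN.Rep
import Pool.Agent.H.MP_b2d7dd_lc.TN.GrC
import Pool.Agent.H.MP_b2d7dd_lc.TW.GrI

/-!
# Module Rep2: relations between functions and between their monomials

The same as TW/Rep2. With `χ w f = (x w : ℚ) ^ (f x)` (`S = ⊤`): `he χ f s = (s.val x) ^ (f x)` for
`SumFree s`, and `he χ 1 t = t.val x` for `NS t`. The exponents of the monomials of an `NS` term are
in `VV` (products of functions of `NS` terms: `vf (.mul s t) = vf s * vf t`; prove
`Ae {p | p.2 ∈ VV} (vf c) t` for `NS c` and (`SumFree t`, `NS t`, or `NS t` and any `c`) by induction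
on `t`, the accumulator of a power being `vf (.mul c t)`).
-/

namespace Pool.Agent.TN

open Pool.Agent.TI Pool.Agent.TW Finset

/-- The value of a combination of monomials. -/
private noncomputable def Rep2_lc {K : Type} [CommRing K] (χ : List Bool → Fn → K) :
    ((List Bool →₀ Fn) →₀ ℤ) →ₗ[ℤ] K :=
  Finsupp.linearCombination ℤ fun g => g.prod χ

private theorem Rep2_lc_sum {K : Type} [CommRing K] (χ : List Bool → Fn → K)
    (l : (List Bool →₀ Fn) →₀ ℤ) : Rep2_lc χ l = l.sum fun g c => (c : K) * g.prod χ := by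
  unfold Rep2_lc
  rw [Finsupp.linearCombination_apply]
  refine Finsupp.sum_congr fun g _ => ?_
  rw [zsmul_eq_mul]

private theorem Rep2_he {K : Type} [CommRing K] {S : AddSubgroup Fn} {χ : List Bool → Fn → K}
    (hχ : Chr S χ) {t : Tm} {f : Fn} (ht : Ae {p | p.2 ∈ S} f t) :
    he χ f t = Rep2_lc χ (re f t) := by
  rw [he_re hχ ht, Rep2_lc_sum]

private theorem Rep2_top (t : Tm) (f : Fn) : Ae {p | p.2 ∈ (⊤ : AddSubgroup Fn)} f t := by
  induction t generalizing f with
  | one => trivial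
  | var w => exact AddSubgroup.mem_top f
  | add s t ihs iht => exact ⟨ihs f, iht f⟩
  | mul s t ihs iht => exact ⟨ihs f, iht f⟩
  | pow s t ihs _ => exact ihs (f * vf t)

private theorem Rep2_VVc {t : Tm} (ht : NS t) {c : Tm} (hc : NS c) :
    Ae {p | p.2 ∈ VV} (vf c) t := by
  induction t generalizing c with
  | one => trivial
  | var w => exact vf_mem_VV hc
  | add s t ihs iht => exact ⟨ihs ht.1 hc, iht ht.2 hc⟩
  | mul s t ihs iht => exact ⟨ihs ht.1 hc, iht ht.2 hc⟩
  | pow s t ihs _ =>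
    have h : vf c * vf t = vf (.mul c t) := by
      funext x
      simp [vf, Tm.val]
    show Ae {p | p.2 ∈ VV} (vf c * vf t) s
    rw [h]
    exact ihs ht.2.1 ⟨hc, ht.2.2⟩

private theorem Rep2_one : (1 : Fn) = vf .one := by
  funext x
  simp [vf, Tm.val]

private theorem Rep2_VV {t : Tm} (ht : NS t) : Ae {p | p.2 ∈ VV} 1 t := by
  rw [Rep2_one]
  exact Rep2_VVc ht trivial

/-- The powers of the variables at a point. -/
private noncomputable def Rep2_ch (x : X) : List Bool → Fn → ℚ := fun w f => (x.1 w : ℚ) ^ (f x)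

private theorem Rep2_chr (x : X) : Chr ⊤ (Rep2_ch x) where
  zero := fun w => by simp [Rep2_ch]
  add := fun w f _ g _ => by
    have h : (x.1 w : ℚ) ≠ 0 := by
      have := x.2 w
      positivity
    simp only [Rep2_ch, Pi.add_apply]
    exact zpow_add₀ h _ _

private theorem Rep2_sf (x : X) {t : Tm} (ht : SumFree t) (f : Fn) :
    he (Rep2_ch x) f t = ((t.val x.1 : ℕ) : ℚ) ^ (f x) := by
  induction t generalizing f with
  | one => simp [Tm.val, he]
  | var w => simp [Tm.val, he, Rep2_ch]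
  | add s t _ _ => exact ht.elim
  | mul s t ihs iht =>
    simp only [Tm.val, he]
    rw [ihs ht.1, iht ht.2]
    push_cast
    rw [mul_zpow]
  | pow s t ihs _ =>
    simp only [Tm.val, he]
    rw [ihs ht, Pi.mul_apply, mul_comm (f x), zpow_mul]
    simp only [vf]
    rw [zpow_natCast]
    push_cast
    rfl

private theorem Rep2_vf (x : X) {t : Tm} (ht : NS t) : (vf t x : ℚ) = he (Rep2_ch x) 1 t := by
  induction t with
  | one => simp [vf, Tm.val, he]
  | var w => simp [vf, Tm.val, he, Rep2_ch]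
  | add s t ihs iht =>
    have h1 := ihs ht.1
    have h2 := iht ht.2
    simp only [vf, Tm.val, he] at h1 h2 ⊢
    rw [← h1, ← h2]
    push_cast
    ring
  | mul s t ihs iht =>
    have h1 := ihs ht.1
    have h2 := iht ht.2
    simp only [vf, Tm.val, he] at h1 h2 ⊢
    rw [← h1, ← h2]
    push_cast
    ring
  | pow s t _ _ =>
    simp only [vf, Tm.val, he]
    rw [Rep2_sf x ht.1, one_mul]
    simp only [vf]
    rw [zpow_natCast]
    push_cast
    rfl

private theorem Rep2_vf_lc (x : X) {t : Tm} (ht : NS t) :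
    (vf t x : ℚ) = Rep2_lc (Rep2_ch x) (re 1 t) := by
  rw [Rep2_vf x ht, Rep2_he (Rep2_chr x) (Rep2_top t 1)]

private theorem Rep2_sum {J : Type} (s : Finset J) (t : J → Tm) (ht : ∀ j ∈ s, NS (t j))
    (k : J → ℤ) (x : X) :
    (((∑ j ∈ s, k j • vf (t j)) x : ℤ) : ℚ) =
      Rep2_lc (Rep2_ch x) (∑ j ∈ s, k j • re 1 (t j)) := by
  rw [map_sum, Finset.sum_apply]
  push_cast
  refine Finset.sum_congr rfl fun j hj => ?_
  rw [map_zsmul, ← Rep2_vf_lc x (ht j hj), zsmul_eq_mul]
  simp

theorem re_rel {J : Type} (s : Finset J) (t : J → Tm) (ht : ∀ j ∈ s, NS (t j)) (k : J → ℤ) :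
    ∑ j ∈ s, k j • vf (t j) = 0 ↔ ∑ j ∈ s, k j • re 1 (t j) = 0 := by
  classical
  constructor
  · intro h
    set R : (List Bool →₀ Fn) →₀ ℤ := ∑ j ∈ s, k j • re 1 (t j) with hR
    have hsupp : ∀ g ∈ R.support, ∀ w, g w ∈ VV := by
      intro g hg w
      have h1 : g ∈ s.biUnion fun j => (k j • re 1 (t j)).support :=
        Finsupp.support_finsetSum hg
      obtain ⟨j, hj, hgj⟩ := Finset.mem_biUnion.1 h1
      exact re_mem (Rep2_VV (ht j hj)) g (Finsupp.support_smul hgj) w
    have h2 : ∀ x : X, ∑ g ∈ R.support, (R g : ℚ) * (g.prod fun w f => (x.1 w : ℚ) ^ (f x)) = 0 := by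
      intro x
      have h3 := Rep2_sum s t ht k x
      rw [h, ← hR, Rep2_lc_sum] at h3
      rw [Pi.zero_apply, Int.cast_zero] at h3
      exact h3.symm
    have h4 := lin_ind tame_VV R.support hsupp R h2
    ext1 g
    by_cases hg : g ∈ R.support
    · exact h4 g hg
    · simpa using hg
  · intro h
    funext x
    have h3 := Rep2_sum s t ht k x
    rw [h, map_zero] at h3
    exact_mod_cast h3

/-- A relation between the functions holds for the values. -/
theorem he_rel {K : Type} [CommRing K] {S : AddSubgroup Fn} {χ : List Bool → Fn → K}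
    (hχ : Chr S χ) {J : Type} (s : Finset J) (t : J → Tm) (ht : ∀ j ∈ s, NS (t j))
    (hA : ∀ j ∈ s, Ae {p | p.2 ∈ S} 1 (t j)) (k : J → ℤ) (h : ∑ j ∈ s, k j • vf (t j) = 0) :
    ∑ j ∈ s, (k j : K) * he χ 1 (t j) = 0 := by
  have h1 := congrArg (Rep2_lc χ) ((re_rel s t ht k).1 h)
  rw [map_sum, map_zero] at h1
  rw [← h1]
  refine Finset.sum_congr rfl fun j hj => ?_
  rw [map_zsmul, ← Rep2_he hχ (hA j hj), zsmul_eq_mul]

/-- The linear combinations of values as sums over monomials. -/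
theorem he_sum {K : Type} [CommRing K] {S : AddSubgroup Fn} {χ : List Bool → Fn → K}
    (hχ : Chr S χ) {J : Type} (s : Finset J) (t : J → Tm)
    (hA : ∀ j ∈ s, Ae {p | p.2 ∈ S} 1 (t j)) (θ : J → K) (G : Finset (List Bool →₀ Fn))
    (hG : ∀ j ∈ s, (re 1 (t j)).support ⊆ G) :
    ∑ j ∈ s, θ j * he χ 1 (t j) = ∑ g ∈ G, (∑ j ∈ s, θ j * (re 1 (t j) g : K)) * g.prod χ := by
  have h1 : ∀ j ∈ s, θ j * he χ 1 (t j) = ∑ g ∈ G, θ j * (re 1 (t j) g : K) * g.prod χ := by
    intro j hj
    rw [he_re hχ (hA j hj), Finsupp.sum_of_support_subset _ (hG j hj) _ (by simp),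
      Finset.mul_sum]
    refine Finset.sum_congr rfl fun g _ => ?_
    ring
  rw [Finset.sum_congr rfl h1, Finset.sum_comm]
  refine Finset.sum_congr rfl fun g _ => ?_
  rw [Finset.sum_mul]

end Pool.Agent.TN
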