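import Pool.Agent.H.MP_b2d7dd_lc.TN.Chn
import Pool.Agent.H.MP_b2d7dd_lc.TN.FinC
import Pool.Agent.H.MP_b2d7dd_lc.TW.Rnd

/-!
# Module Rnd: the error probability of one round

The same as TW/Rnd (copy and adapt; `card_primes'` of TW/Rnd can be used).
-/

namespace Pool.Agent.TN

open Pool.Agent.TI (Tm Tok names Valid)
open Pool.Agent.TE (bl)
open Pool.Agent.TW (Fn vf SI irow wfun eN eP vv Qw SS AA cnt)
open Pool.Agent.TW (cnt_append cnt_take cnt_mono bval_pow2 pow2 Rnd_append card_primes' vv_ge)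
open Pool.Agent.H.MP_5be563_lc.PT Finset

private theorem Rnd_bl_take {S L : ℕ} (z : List Bool) :
    bl S (z.take ((L + 1) * S)) L = bl S z L := by
  unfold TE.bl
  rw [List.drop_take, List.take_take]
  congr 1
  have : (L + 1) * S - L * S = S := by
    rw [Nat.add_mul, one_mul, Nat.add_sub_cancel_left]
  omega

private theorem Rnd_bl_append {S L : ℕ} (x y : List Bool) (hx : x.length = L * S)
    (hy : y.length = S) : bl S (x ++ y) L = y := by
  unfold TE.bl
  rw [List.drop_left' hx, List.take_of_length_le (by rw [hy])]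

private theorem Rnd_arith {n L S m C X D : ℕ} (hL : L ≤ n) (hm : n + 1 = L + 1 + m)
    (h1 : C ≤ D * 2 ^ (m * S))
    (h2 : 8 * (n + 1) * D ≤ 8 * (n + 1) * (X * 2 ^ S) + (n + 1) * 2 ^ (L * S + S))
    (h5 : 8 * (n + 1) * X ≤ L * 2 ^ (L * S)) : 4 * C ≤ 2 ^ ((n + 1) * S) := by
  have h6 : 8 * (n + 1) * (X * 2 ^ S) ≤ (n + 1) * 2 ^ (L * S + S) := by
    calc 8 * (n + 1) * (X * 2 ^ S) = 8 * (n + 1) * X * 2 ^ S := by ring
      _ ≤ L * 2 ^ (L * S) * 2 ^ S := Nat.mul_le_mul_right _ h5
      _ = L * 2 ^ (L * S + S) := by rw [pow_add]; ring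
      _ ≤ (n + 1) * 2 ^ (L * S + S) := Nat.mul_le_mul_right _ (by omega)
  have e1 : (n + 1) * S = (L * S + S) + m * S := by rw [hm]; ring
  rw [e1, pow_add]
  generalize 2 ^ (L * S + S) = M at h2 h6
  have h8 : (2 * (n + 1)) * (4 * D) ≤ (2 * (n + 1)) * M := by
    have e2 : (2 * (n + 1)) * (4 * D) = 8 * (n + 1) * D := by ring
    have e3 : (2 * (n + 1)) * M = (n + 1) * M + (n + 1) * M := by ring
    rw [e2, e3]
    exact h2.trans (Nat.add_le_add_right h6 _)
  have h7 : 4 * D ≤ M := Nat.le_of_mul_le_mul_left h8 (Nat.succ_pos _ |> Nat.mul_pos two_pos)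
  calc 4 * C ≤ 4 * (D * 2 ^ (m * S)) := Nat.mul_le_mul_left _ h1
    _ = 4 * D * 2 ^ (m * S) := by ring
    _ ≤ M * 2 ^ (m * S) := Nat.mul_le_mul_right _ h7

theorem test0_cnt {n : ℕ} {s t : Tm} (hs : NS s) (ht : NS t) (hn : s.sz + t.sz ≤ n)
    (hst : ¬ Valid s t) {e : List Bool} (he : 2 ^ vv n ≤ bval e)
    (he2 : bval e < 2 ^ (2 * vv n)) (hp : (bval e + 2).Prime) :
    4 * cnt ((n + 1) * SS n) (fun z => test0 n (s.toks ++ t.toks) e z = true) ≤
      2 ^ ((n + 1) * SS n) := by
  have hTL : (s.toks ++ t.toks).length = s.sz + t.sz := by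
    rw [List.length_append, TI.Tm.length_toks, TI.Tm.length_toks]
  have h5 := chain hs ht hn (le_refl (s.sz + t.sz)) he he2 hp
  have hfin := @final_cnt n s t hs ht hn hst e he hp
  have hcoh := fun z => tabI_coh hs ht hn he (names (s.toks ++ t.toks)) z (s.sz + t.sz) le_rfl
  have hbd := fun z => tabI_bound n e (names (s.toks ++ t.toks)) (cxl (s.toks ++ t.toks))
    (s.toks ++ t.toks) z (s.sz + t.sz)
  generalize hL : s.sz + t.sz = L at *
  generalize hT : s.toks ++ t.toks = T at *
  have hble : ble (pow2 (vv n)) e = true := by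
    rw [ble_iff, bval_pow2]
    exact he
  -- the property of the first bits
  set Q : List Bool → Prop := fun z =>
    fin1 n e (names T) T (tabI n e (names T) (cxl T) T z L) (bl (SS n) z L) = true with hQ
  have hPQ : ∀ z, test0 n T e z = true → Q (z.take ((L + 1) * SS n)) := by
    intro z hz
    unfold test0 at hz
    rw [hble, cond_true, hTL] at hz
    show fin1 n e (names T) T (tabI n e (names T) (cxl T) T (z.take ((L + 1) * SS n)) L)
      (bl (SS n) (z.take ((L + 1) * SS n)) L) = true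
    rw [Rnd_bl_take]
    rcases Nat.lt_or_ge z.length ((L + 1) * SS n) with hlt | hge
    · rw [List.take_of_length_le hlt.le]
      exact hz
    · have e1 : tabI n e (names T) (cxl T) T z L =
          tabI n e (names T) (cxl T) T (z.take ((L + 1) * SS n)) L := by
        conv_lhs => rw [← List.take_append_drop ((L + 1) * SS n) z]
        refine tabI_append n e (names T) (cxl T) T _ _ L ?_
        rw [List.length_take, min_eq_left hge]
        exact Nat.mul_le_mul_right _ (Nat.le_succ _)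
      rw [← e1]
      exact hz
  obtain ⟨m, hm⟩ : ∃ m, n + 1 = L + 1 + m := ⟨n - L, by omega⟩
  have hlen : (n + 1) * SS n = (L + 1) * SS n + m * SS n := by rw [hm, Nat.add_mul]
  have h1 : cnt ((n + 1) * SS n) (fun z => test0 n T e z = true) ≤
      cnt ((L + 1) * SS n) Q * 2 ^ (m * SS n) := by
    rw [hlen, ← cnt_take]
    exact cnt_mono fun z _ hz => hPQ z hz
  -- the first bits
  have hlen2 : (L + 1) * SS n = L * SS n + SS n := by rw [Nat.add_mul, one_mul]
  have h2 : 8 * (n + 1) * cnt (L * SS n + SS n) Q ≤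
      8 * (n + 1) * (cnt (L * SS n)
        (fun z => ¬ Fai (exF s t) L ((tabI n e (names T) (cxl T) T z L).map irow)) * 2 ^ SS n) +
      (n + 1) * 2 ^ (L * SS n + SS n) := by
    refine cnt_append Q _ ?_
    intro x hx hA
    have hF : Fai (exF s t) L ((tabI n e (names T) (cxl T) T x L).map irow) := not_not.1 hA
    have hb := hbd x
    have h3 := hfin (hcoh x) hF hb.2 (hb.1.trans hn)
    have h4 : cnt (SS n) (fun y => Q (x ++ y)) ≤
        cnt (SS n) (fun zz => fin1 n e (names T) T (tabI n e (names T) (cxl T) T x L) zz =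
          true) := by
      refine cnt_mono fun y hy hQy => ?_
      have hQy' : fin1 n e (names T) T (tabI n e (names T) (cxl T) T (x ++ y) L)
        (bl (SS n) (x ++ y) L) = true := hQy
      rw [Rnd_bl_append x y hx hy, tabI_append n e (names T) (cxl T) T x y L hx.ge] at hQy'
      exact hQy'
    calc 8 * (n + 1) * cnt (SS n) (fun y => Q (x ++ y))
        = (n + 1) * (8 * cnt (SS n) (fun y => Q (x ++ y))) := by ring
      _ ≤ (n + 1) * (8 * cnt (SS n)
          (fun zz => fin1 n e (names T) T (tabI n e (names T) (cxl T) T x L) zz = true)) :=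
          Nat.mul_le_mul_left _ (Nat.mul_le_mul_left _ h4)
      _ ≤ (n + 1) * 2 ^ SS n := Nat.mul_le_mul_left _ h3
  rw [hlen2] at h1
  exact Rnd_arith hn hm h1 h2 h5

theorem test1_cnt {n : ℕ} {s t : Tm} (hs : NS s) (ht : NS t) (hn : s.sz + t.sz ≤ n)
    (hst : ¬ Valid s t) :
    2 * (4 * vv n) * cnt (AA n) (fun z => test1 n (s.toks ++ t.toks) z = true) ≤
      (2 * (4 * vv n) - 1) * 2 ^ AA n := by
  have h1 := Rnd_append (a := 2 * vv n) (b := (n + 1) * SS n) (K := 4) (c := 1)
    (fun z => test1 n (s.toks ++ t.toks) z = true)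
    (fun e => 2 ^ vv n ≤ bval e ∧ (bval e + 2).Prime) (by
      rintro x hx ⟨hx1, hx2⟩
      have hx3 : bval x < 2 ^ (2 * vv n) := by
        have := TI.bval_lt x
        rwa [hx] at this
      rw [one_mul]
      refine le_trans (Nat.mul_le_mul_left _ (cnt_mono fun y _ hy => ?_))
        (test0_cnt hs ht hn hst hx1 hx3 hx2)
      have hy' : test0 n (s.toks ++ t.toks) ((x ++ y).take (2 * vv n))
        ((x ++ y).drop (2 * vv n)) = true := hy
      rwa [List.take_left' hx, List.drop_left' hx] at hy')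
  have h2 := card_primes' n
  have hA : AA n = 2 * vv n + (n + 1) * SS n := rfl
  rw [hA]
  have hv : 0 < vv n := lt_of_lt_of_le (by norm_num) (vv_ge n)
  generalize cnt (2 * vv n) (fun e => 2 ^ vv n ≤ bval e ∧ (bval e + 2).Prime) = G at h1 h2
  generalize cnt (2 * vv n + (n + 1) * SS n)
    (fun z => test1 n (s.toks ++ t.toks) z = true) = C at h1
  have h3 : 2 ^ (2 * vv n + (n + 1) * SS n) ≤ 6 * vv n * G * 2 ^ ((n + 1) * SS n) := by
    rw [pow_add]
    exact Nat.mul_le_mul_right _ h2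
  generalize 2 ^ (2 * vv n + (n + 1) * SS n) = M at h1 h3
  generalize 2 ^ ((n + 1) * SS n) = B at h1 h3
  rw [one_mul] at h1
  have h4 : 4 * C + 3 * (G * B) ≤ 4 * M := by omega
  have h5 : 2 * vv n * (4 * C + 3 * (G * B)) ≤ 2 * vv n * (4 * M) := Nat.mul_le_mul_left _ h4
  rw [Nat.sub_mul, one_mul]
  have e1 : 2 * vv n * (4 * C + 3 * (G * B)) = 2 * (4 * vv n) * C + 6 * vv n * G * B := by ring
  have e2 : 2 * vv n * (4 * M) = 2 * (4 * vv n) * M := by ring
  rw [e1, e2] at h5
  omega

end Pool.Agent.TN
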