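import Pool.Agent.H.MP_b2d7dd_lc.TN.Cx
import Pool.Agent.H.MP_b2d7dd_lc.TW.Run
import Pool.Agent.H.MP_b2d7dd_lc.TW.MEl

/-!
# Module Run: the values of all subterms

The table contains the total exponents of the variables, so the machine ignores the exponents: the
value of a power is the value of its base. `run_term`: induction on `u` for all `c` and all states
(`tops.length` is the number of the next token). `run_root`: `T.drop (T.length - m)` (the last `m`
tokens) is `pre' ++ (t.toks ++ T')`, `run_term` for `t`, and the rest of the run only appends to the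
list of values. `hent` = the product of the values of the exponents. `hrow_val`: `cx_spec`,
`run_root` (with `m = i`), `zv_tval`, `chi_ev`.
-/

namespace Pool.Agent.TN

open Pool.Agent.TI (Tm Tok names bmod)
open Pool.Agent.TW (Fn vf SI irow wfun tval zv zv_tval evr rad rmu zv_one zv_rad zv_rmu MEl_getD_map)
open Pool.Agent.H.MP_5be563_lc.PT Finset

/-- One step of the machine. -/
def rstep (e : List Bool) (v c : ℕ) (N : List (List Bool)) (Z : List Bool)
    (tab : List (List SI)) (q : Tok) (s : List (List Bool) × List (List Bool)) :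
    List (List Bool) × List (List Bool) :=
  let u := bif decide (q.1 = 0) then [true]
    else bif decide (q.1 = 4) then tval e v c N Z tab s.2.length q.2
    else bif decide (q.1 = 1) then rad e (s.1.headD [true]) (s.1.tail.headD [true])
    else bif decide (q.1 = 2) then rmu e (s.1.headD [true]) (s.1.tail.headD [true])
    else s.1.headD [true]
  (u :: (bif decide (q.1 = 0) || decide (q.1 = 4) then s.1 else s.1.tail.tail), s.2 ++ [u])

/-- The machine. -/
def mrun (e : List Bool) (v c : ℕ) (N : List (List Bool)) (Z : List Bool)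
    (tab : List (List SI)) (T : List Tok) : List (List Bool) × List (List Bool) :=
  T.foldr (rstep e v c N Z tab) ([], [])

private theorem Run_left (d t : Tm) (l : List Tm) {j : ℕ} (hj : j < t.sz) :
    (exs d t ++ l).getD j .one = (exs d t).getD j .one :=
  List.getD_append _ _ _ _ (by rw [exs_length]; exact hj)

private theorem Run_right (d t d' s : Tm) (l : List Tm) {j : ℕ} (hj : j < s.sz) :
    (exs d t ++ (exs d' s ++ l)).getD (t.sz + j) .one = (exs d' s).getD j .one := by
  rw [List.getD_append_right _ _ _ _ (by rw [exs_length]; omega), exs_length,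
    List.getD_append _ _ _ _ (by rw [exs_length]; omega), Nat.add_sub_cancel_left]

private theorem Run_last {tl : List (List Bool)} {x : List Bool} {k : ℕ} (h : tl.length = k) :
    (tl ++ [x]).getD k [true] = x := by
  subst h
  rw [List.getD_append_right _ _ _ _ le_rfl]
  simp

/-- the statement of `run_term` -/
private def Run_P (e : List Bool) (v c : ℕ) (N : List (List Bool)) (Z : List Bool)
    (tab : List (List SI)) (χ : List Bool → Fn → ZMod (bval e + 2)) (d u : Tm) : Prop :=
  ∀ (st tops : List (List Bool))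
    (_ : ∀ j < u.sz, ∀ w, zv e (tval e v c N Z tab (tops.length + j) w) =
      χ w (vf ((exs d u).getD j .one))),
    ∃ (x : List Bool) (tl : List (List Bool)),
      u.toks.foldr (rstep e v c N Z tab) (st, tops) = (x :: st, tops ++ tl) ∧
      tl.length = u.sz ∧ zv e x = he χ (vf d) u ∧ tl.getD (u.sz - 1) [true] = x

private theorem Run_two {e : List Bool} {v c : ℕ} {N : List (List Bool)} {Z : List Bool}
    {tab : List (List SI)} {χ : List Bool → Fn → ZMod (bval e + 2)} {d d' s t : Tm}
    (ht : Run_P e v c N Z tab χ d t) (hs : Run_P e v c N Z tab χ d' s)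
    (st tops : List (List Bool))
    (h : ∀ j < s.sz + t.sz + 1, ∀ w, zv e (tval e v c N Z tab (tops.length + j) w) =
      χ w (vf ((exs d t ++ exs d' s ++ [Tm.one]).getD j Tm.one))) :
    ∃ (xs xt : List Bool) (tl : List (List Bool)),
      (s.toks ++ t.toks).foldr (rstep e v c N Z tab) (st, tops) =
        (xs :: xt :: st, tops ++ tl) ∧
      tl.length = s.sz + t.sz ∧ zv e xs = he χ (vf d') s ∧ zv e xt = he χ (vf d) t := by
  obtain ⟨xt, tlt, e1, e2, e3, -⟩ := ht st tops (by
    intro j hj w
    rw [h j (by omega) w, List.append_assoc, Run_left d t _ hj])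
  obtain ⟨xs, tls, f1, f2, f3, -⟩ := hs (xt :: st) (tops ++ tlt) (by
    intro j hj w
    rw [List.length_append, e2, add_assoc, h (t.sz + j) (by omega) w, List.append_assoc,
      Run_right d t d' s _ hj])
  refine ⟨xs, xt, tlt ++ tls, ?_, ?_, f3, e3⟩
  · rw [List.foldr_append, e1, f1, List.append_assoc]
  · rw [List.length_append, e2, f2, add_comm]

theorem run_term (e : List Bool) (v c : ℕ) (N : List (List Bool)) (Z : List Bool)
    (tab : List (List SI)) (χ : List Bool → Fn → ZMod (bval e + 2)) (u : Tm) :
    ∀ (d : Tm) (st tops : List (List Bool))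
      (_ : ∀ j < u.sz, ∀ w, zv e (tval e v c N Z tab (tops.length + j) w) =
        χ w (vf ((exs d u).getD j .one))),
      ∃ (x : List Bool) (tl : List (List Bool)),
        u.toks.foldr (rstep e v c N Z tab) (st, tops) = (x :: st, tops ++ tl) ∧
        tl.length = u.sz ∧ zv e x = he χ (vf d) u ∧ tl.getD (u.sz - 1) [true] = x := by
  induction u with
  | one =>
    intro d st tops _
    exact ⟨[true], [[true]], rfl, rfl, zv_one e, rfl⟩
  | var w =>
    intro d st tops h
    refine ⟨tval e v c N Z tab tops.length w, [tval e v c N Z tab tops.length w], rfl, rfl, ?_,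
      rfl⟩
    have h1 := h 0 (Tm.sz_pos _) w
    rw [add_zero] at h1
    exact h1
  | add s t ihs iht =>
    intro d st tops h
    obtain ⟨xs, xt, tl, h1, h2, h3, h4⟩ := Run_two (iht d) (ihs d) st tops h
    refine ⟨rad e xs xt, tl ++ [rad e xs xt], ?_, ?_, ?_, Run_last h2⟩
    · rw [Tm.toks, List.foldr_cons, h1, ← List.append_assoc]
      rfl
    · rw [List.length_append, h2]
      rfl
    · rw [zv_rad, h3, h4]
      rfl
  | mul s t ihs iht =>
    intro d st tops h
    obtain ⟨xs, xt, tl, h1, h2, h3, h4⟩ := Run_two (iht d) (ihs d) st tops h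
    refine ⟨rmu e xs xt, tl ++ [rmu e xs xt], ?_, ?_, ?_, Run_last h2⟩
    · rw [Tm.toks, List.foldr_cons, h1, ← List.append_assoc]
      rfl
    · rw [List.length_append, h2]
      rfl
    · rw [zv_rmu, h3, h4]
      rfl
  | pow s t ihs iht =>
    intro d st tops h
    obtain ⟨xs, xt, tl, h1, h2, h3, h4⟩ := Run_two (iht .one) (ihs (.mul d t)) st tops h
    refine ⟨xs, tl ++ [xs], ?_, ?_, ?_, Run_last h2⟩
    · rw [Tm.toks, List.foldr_cons, h1, ← List.append_assoc]
      rfl
    · rw [List.length_append, h2]
      rfl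
    · rw [h3, vf_mul]
      rfl

private theorem Run_step (e : List Bool) (v c : ℕ) (N : List (List Bool)) (Z : List Bool)
    (tab : List (List SI)) (q : Tok) (s : List (List Bool) × List (List Bool)) :
    ∃ x, (rstep e v c N Z tab q s).2 = s.2 ++ [x] := ⟨_, rfl⟩

private theorem Run_app (e : List Bool) (v c : ℕ) (N : List (List Bool)) (Z : List Bool)
    (tab : List (List SI)) (L : List Tok) (s : List (List Bool) × List (List Bool)) :
    ∃ tl, (L.foldr (rstep e v c N Z tab) s).2 = s.2 ++ tl ∧ tl.length = L.length := by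
  induction L with
  | nil => exact ⟨[], (List.append_nil _).symm, rfl⟩
  | cons q L ih =>
    obtain ⟨tl, h1, h2⟩ := ih
    obtain ⟨x, hx⟩ := Run_step e v c N Z tab q (L.foldr (rstep e v c N Z tab) s)
    refine ⟨tl ++ [x], ?_, ?_⟩
    · rw [List.foldr_cons, hx, h1, List.append_assoc]
    · rw [List.length_append, h2]
      rfl

theorem run_root (e : List Bool) (v c : ℕ) (N : List (List Bool)) (Z : List Bool)
    (tab : List (List SI)) (χ : List Bool → Fn → ZMod (bval e + 2)) {X : List Tm}
    {T : List Tok} {i m : ℕ} {t : Tm} (h : Placed X T i .one t) (hm : i + t.sz ≤ m)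
    (hmT : m ≤ T.length)
    (hχ : ∀ a < m, ∀ w, zv e (tval e v c N Z tab a w) = χ w (vf (X.getD a .one))) :
    zv e ((mrun e v c N Z tab (T.drop (T.length - m))).2.getD (i + t.sz - 1) [true]) =
      he χ 1 t := by
  obtain ⟨⟨pre, T', hT, hT'⟩, hX⟩ := h
  have hlen : T.length = pre.length + (t.sz + i) := by
    rw [hT, List.length_append, List.length_append, Tm.length_toks, hT']
  obtain ⟨k, hk⟩ : ∃ k, k = T.length - m := ⟨_, rfl⟩
  have hkp : k ≤ pre.length := by omega
  rw [← hk, hT, List.drop_append_of_le_length hkp]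
  unfold mrun
  rw [List.foldr_append, List.foldr_append]
  obtain ⟨tl0, h1, h2⟩ := Run_app e v c N Z tab T' ([], [])
  rw [List.nil_append] at h1
  obtain ⟨s0, hs0⟩ : ∃ s0, s0 = T'.foldr (rstep e v c N Z tab) ([], []) := ⟨_, rfl⟩
  rw [← hs0] at h1 ⊢
  have hs2 : s0.2.length = i := by rw [h1, h2, hT']
  obtain ⟨x, tl, e1, e2, e3, e4⟩ := run_term e v c N Z tab χ t .one s0.1 s0.2 (by
    intro j hj w
    rw [hs2, hχ (i + j) (by omega) w, hX j hj])
  have e1' : t.toks.foldr (rstep e v c N Z tab) s0 = (x :: s0.1, s0.2 ++ tl) := e1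
  rw [e1']
  obtain ⟨tl2, f1, -⟩ := Run_app e v c N Z tab (pre.drop k) (x :: s0.1, s0.2 ++ tl)
  have hpos := Tm.sz_pos t
  rw [f1, List.getD_append _ _ _ _ (by rw [List.length_append, hs2, e2]; omega),
    List.getD_append_right _ _ _ _ (by rw [hs2]; omega), hs2]
  have h3 : i + t.sz - 1 - i = t.sz - 1 := by omega
  rw [h3, e4, e3, vf_one]

/-- The product of the values with the given numbers. -/
def hent (e : List Bool) (tops : List (List Bool)) (l : List ℕ) : List Bool :=
  l.foldr (fun r acc => rmu e acc (tops.getD r [true])) [true]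

/-- The hash row for the tokens number `0, ..., i`, from the table for the tokens before `i`. -/
def hrow (e : List Bool) (v c : ℕ) (N : List (List Bool)) (tab : List (List SI))
    (cx : List (List ℕ)) (T : List Tok) (i : ℕ) (Z : List Bool) : List (List Bool) :=
  (List.range (i + 1)).map fun a =>
    hent e (mrun e v c N Z tab (T.drop (T.length - i))).2 (cx.getD a [])

theorem hrow_length (e : List Bool) (v c : ℕ) (N : List (List Bool)) (tab : List (List SI))
    (cx : List (List ℕ)) (T : List Tok) (i : ℕ) (Z : List Bool) :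
    (hrow e v c N tab cx T i Z).length = i + 1 := by
  simp [hrow]

/-- The family of the exponents of an identity. -/
def exF (s t : Tm) (a : ℕ) : Tm := (exs .one t ++ exs .one s).getD a .one

private theorem Run_hent (e : List Bool) (tops : List (List Bool)) (l : List ℕ) :
    zv e (hent e tops l) = (l.map fun r => zv e (tops.getD r [true])).prod := by
  induction l with
  | nil => exact zv_one e
  | cons r l ih =>
    rw [List.map_cons, List.prod_cons, ← ih, mul_comm, ← zv_rmu]
    rfl

private theorem Run_foldl {K : Type} [CommRing K] (χ : List Bool → Fn → K)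
    (ts : List (ℕ × Tm)) (c0 : Tm) :
    he χ 1 (ts.foldl (fun c p => .mul c p.2) c0) =
      he χ 1 c0 * (ts.map fun p => he χ 1 p.2).prod := by
  induction ts generalizing c0 with
  | nil => rw [List.map_nil, List.prod_nil, mul_one, List.foldl_nil]
  | cons p ts ih =>
    rw [List.foldl_cons, ih, List.map_cons, List.prod_cons, ← mul_assoc]
    rfl

theorem hrow_val (e : List Bool) (v c : ℕ) (N : List (List Bool)) (Z : List Bool)
    {tab : List (List SI)} (s t : Tm) {i : ℕ} (hi : i < s.sz + t.sz)
    (hc : Coh (exF s t) i (tab.map irow)) {a : ℕ} (ha : a ≤ i) :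
    evr e (hrow e v c N tab (cxl (s.toks ++ t.toks)) (s.toks ++ t.toks) i Z) a =
      he (chi (wfun e v c N Z) (tab.map irow) (exF s t) i) 1 (exF s t a) := by
  have h1 : evr e (hrow e v c N tab (cxl (s.toks ++ t.toks)) (s.toks ++ t.toks) i Z) a =
      zv e (hent e (mrun e v c N Z tab
        ((s.toks ++ t.toks).drop ((s.toks ++ t.toks).length - i))).2
        ((cxl (s.toks ++ t.toks)).getD a [])) := by
    show zv e ((hrow e v c N tab (cxl (s.toks ++ t.toks)) (s.toks ++ t.toks) i Z).getD a []) = _
    unfold hrow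
    rw [MEl_getD_map _ _ (by omega)]
  obtain ⟨ts, h2, h3, h4⟩ := cx_spec s t (a := a) (by omega)
  have h5 : exF s t a = ts.foldl (fun c p => .mul c p.2) .one := h3
  rw [h1, h2, h5, Run_hent, Run_foldl, List.map_map]
  have h6 : he (chi (wfun e v c N Z) (tab.map irow) (exF s t) i) 1 .one = 1 := rfl
  rw [h6, one_mul]
  congr 1
  refine List.map_congr_left fun p hp => ?_
  obtain ⟨h7, h8⟩ := h4 p hp
  refine run_root e v c N Z tab _ h7 (by omega) ?_ ?_
  · rw [List.length_append, Tm.length_toks, Tm.length_toks]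
    omega
  · intro b hb w
    rw [zv_tval, ← chi_ev (wfun e v c N Z) hc w hb]
    rfl

theorem hrow_rel (e : List Bool) (v c : ℕ) (N N' : List (List Bool)) (Z : List Bool)
    {tab : List (List SI)} {s t : Tm} {n : ℕ} (hF : Fam n N' (s.sz + t.sz) (exF s t)) {i : ℕ}
    (hi : i < s.sz + t.sz) (hc : Coh (exF s t) i (tab.map irow)) (κ : ℕ → ℤ)
    (hκ : ∑ a ∈ range (i + 1), κ a • ev (exF s t) a = 0) :
    ∑ a ∈ range (i + 1), ((κ a : ℤ) : ZMod (bval e + 2)) *
      evr e (hrow e v c N tab (cxl (s.toks ++ t.toks)) (s.toks ++ t.toks) i Z) a = 0 := by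
  rw [← row_rel (wfun e v c N Z) hF hi hc κ hκ]
  refine Finset.sum_congr rfl fun a ha => ?_
  rw [hrow_val e v c N Z s t hi hc (Nat.lt_succ_iff.1 (mem_range.1 ha))]

theorem stack_val (e : List Bool) (v c : ℕ) (N : List (List Bool)) (Z : List Bool)
    {tab : List (List SI)} (s t : Tm) (hc : Coh (exF s t) (s.sz + t.sz) (tab.map irow)) :
    (mrun e v c N Z tab (s.toks ++ t.toks)).1.map (zv e) =
      [he (chi (wfun e v c N Z) (tab.map irow) (exF s t) (s.sz + t.sz)) 1 s,
        he (chi (wfun e v c N Z) (tab.map irow) (exF s t) (s.sz + t.sz)) 1 t] := by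
  obtain ⟨χ, hχ⟩ : ∃ χ, χ = chi (wfun e v c N Z) (tab.map irow) (exF s t) (s.sz + t.sz) :=
    ⟨_, rfl⟩
  have key : ∀ a < s.sz + t.sz, ∀ w, zv e (tval e v c N Z tab a w) = χ w (vf (exF s t a)) := by
    intro a ha w
    rw [zv_tval, hχ, ← chi_ev (wfun e v c N Z) hc w ha]
    rfl
  obtain ⟨xt, tlt, e1, e2, e3, -⟩ := run_term e v c N Z tab χ t .one [] [] (by
    intro j hj w
    rw [List.length_nil, zero_add, key j (by omega) w]
    unfold exF
    rw [Run_left .one t _ hj])
  obtain ⟨xs, tls, f1, -, f3, -⟩ := run_term e v c N Z tab χ s .one [xt] ([] ++ tlt) (by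
    intro j hj w
    rw [List.nil_append, e2, key (t.sz + j) (by omega) w]
    unfold exF
    have h1 := Run_right .one t .one s [] hj
    rw [List.append_nil] at h1
    rw [h1])
  have h5 : (mrun e v c N Z tab (s.toks ++ t.toks)).1 = [xs, xt] := by
    unfold mrun
    rw [List.foldr_append, e1, f1]
  rw [← hχ, h5, List.map_cons, List.map_cons, e3, f3, vf_one]
  rfl

end Pool.Agent.TN
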