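import Pool.Agent.H.MP_b2d7dd_lc.TN.Snd
import Pool.Agent.H.MP_b2d7dd_lc.TN.Cmb

/-!
# Module StgC: a stage rarely fails

The same as TW/StgC (copy and adapt, with the same local irreducible attributes).
-/

namespace Pool.Agent.TN

open Pool.Agent.TI (Tm Tok names Valid)
open Pool.Agent.TE (bl)
open Pool.Agent.TW (Fn vf SI irow wfun eN eP vv Qw SS cnt)
open Pool.Agent.TW (Rr kk Aa cnt_blocks cnt_mono cnt_exists bval_pow2 par_k par_N par_P par_Pr
  par_union)
open Pool.Agent.H.MP_5be563_lc.PT Finset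

private theorem StgC_SS (n : ℕ) : SS n = Rr n * (Qw n * vv n) := rfl

private theorem StgC_Aa (n : ℕ) :
    2 * ((n + 1) * 2 ^ eP n) * ((n + 1) * (n + 1)) + (n + 1) * (n + 1) = Aa n := rfl

private theorem StgC_Qw (n : ℕ) : (n + 1) * (n + 1) = Qw n := rfl

/-- The function on `ℕ` with the given values on `S`. -/
private def StgC_ext {K : Type} [Zero K] (S : Finset ℕ) (ψ : {s // s ∈ S} → K) (s : ℕ) : K :=
  if h : s ∈ S then ψ ⟨s, h⟩ else 0

/-- One hash. -/
private def StgC_Q (n : ℕ) (e : List Bool) (N : List (List Bool)) (tab : List (List SI))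
    (ex : ℕ → Tm) (i : ℕ) (S : Finset ℕ) (θ : ℕ → ZMod (bval e + 2)) (Z : List Bool) : Prop :=
  ∑ a ∈ S, θ a * he (chi (wfun e (vv n) (n + 1) N Z) (tab.map irow) ex i) 1 (ex a) = 0

/-- The number of the strings for one block. -/
private theorem StgC_blk (n : ℕ) (Q : List Bool → Prop) :
    cnt (SS n) (fun zz => ∀ j < Rr n, Q (bl (Qw n * vv n) zz j)) =
      cnt (Qw n * vv n) Q ^ Rr n := by
  rw [StgC_SS]
  exact cnt_blocks Q

attribute [local irreducible] SS Rr Qw vv Pool.Agent.TW.uu eP eN kk Aa cnt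

private theorem StgC_one {n : ℕ} {N : List (List Bool)} {L : ℕ} {ex : ℕ → Tm}
    (hF : Fam n N L ex) {i : ℕ} (hi : i < L) {e : List Bool}
    (he : 2 ^ vv n ≤ bval e) (hp : (bval e + 2).Prime)
    {tab : List (List SI)} (hc : Coh ex i (tab.map irow)) (hf : Fai ex i (tab.map irow))
    (hP : ∀ row ∈ tab.map irow, ∀ a, |row a| ≤ (2 ^ eP n : ℕ)) (hl : tab.length ≤ n)
    {S : Finset ℕ} {D : ℤ} {m : ℕ → ℕ → ℤ} (hB : Bas ex (i + 1) (2 ^ eN n) S D m)
    (θ : ℕ → ZMod (bval e + 2)) (hθ : ∃ s ∈ S, θ s ≠ 0) :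
    2 ^ vv n * cnt (Qw n * vv n) (StgC_Q n e N tab ex i S θ) ≤
      Aa n * (2 ^ vv n) ^ Qw n := by
  have hr : 2 ^ vv n < bval e + 2 := by omega
  have key : (∃ g, ∑ j ∈ S, θ j *
      ((re 1 (ex j) g : ℤ) : ZMod (bval e + 2)) ≠ 0) →
      2 ^ vv n * cnt (Qw n * vv n) (StgC_Q n e N tab ex i S θ) ≤
      Aa n * (2 ^ vv n) ^ Qw n := by
    intro hg
    have h0 := cnt_comb (ex := ex) (L := i) hp hr.le hF.len hc hf hP hl S ex
      (fun j hj => hF.at_atoms hi (Nat.lt_succ_iff.1 (mem_range.1 (hB.sub hj))))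
      (fun j _ => hF.sz j) θ hg
    rw [StgC_Aa, StgC_Qw] at h0
    exact h0
  refine key ?_
  by_contra h1
  push Not at h1
  obtain ⟨s, hs, hs0⟩ := hθ
  refine hs0 (hB.indr (bval e + 2) hp ?_ θ h1 s hs)
  intro h2
  have h3 : |D| < ((bval e + 2 : ℕ) : ℤ) := by
    refine lt_of_le_of_lt hB.Dle ?_
    have h4 : 2 ^ eN n < bval e + 2 := by
      have h5 := par_Pr (n := n) hr
      have h6 : 1 ≤ 2 ^ eP n := Nat.one_le_two_pow
      nlinarith [Nat.one_le_two_pow (n := eN n)]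
    exact_mod_cast h4
  exact hB.D0 (Int.eq_zero_of_abs_lt_dvd h2 h3)

theorem stage_cnt {n : ℕ} {s t : Tm} (hs : NS s) (ht : NS t) (hn : s.sz + t.sz ≤ n) {i : ℕ}
    (hi : i < s.sz + t.sz) {e : List Bool} (he : 2 ^ vv n ≤ bval e)
    (he2 : bval e < 2 ^ (2 * vv n)) (hp : (bval e + 2).Prime) {tab : List (List SI)}
    (hc : Coh (exF s t) i (tab.map irow)) (hf : Fai (exF s t) i (tab.map irow))
    (hP : ∀ row ∈ tab.map irow, ∀ a, |row a| ≤ (2 ^ eP n : ℕ)) (hl : tab.length ≤ n) :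
    8 * (n + 1) * cnt (SS n) (fun zz => ¬ Fai (exF s t) (i + 1)
      ((nxt n e (names (s.toks ++ t.toks)) (cxl (s.toks ++ t.toks)) (s.toks ++ t.toks) i tab
        zz).map irow)) ≤ 2 ^ SS n := by
  classical
  have hfact : Fact (bval e + 2).Prime := ⟨hp⟩
  have hF : Fam n (names (s.toks ++ t.toks)) (s.sz + t.sz) (exF s t) := fam_exs hs ht hn
  set N := names (s.toks ++ t.toks) with hN
  set T := s.toks ++ t.toks with hT
  have hL : i + 1 ≤ n := by omega
  have hr : 2 ^ vv n < bval e + 2 := by omega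
  obtain ⟨S, D, m, hB⟩ := exists_bas (L := i + 1) (m := n + 1) hF.ns hF.sz (NB_le' hL)
  set F : Finset ({a // a ∈ S} → ZMod (bval e + 2)) := Finset.univ.filter fun ψ => ψ ≠ 0 with hFd
  have h1 : cnt (SS n) (fun zz => ¬ Fai (exF s t) (i + 1)
      ((nxt n e N (cxl T) T i tab zz).map irow)) ≤
      cnt (SS n) (fun zz => ∃ ψ ∈ F, ∀ j < Rr n,
        StgC_Q n e N tab (exF s t) i S (StgC_ext S ψ) (bl (Qw n * vv n) zz j)) := by
    refine cnt_mono fun zz _ hz => ?_
    by_contra hcon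
    push Not at hcon
    refine hz ?_
    unfold nxt
    refine fai_ltab (D := D) (S := S) (n := m) ?_ ?_ hp ?_ ?_ ?_ ?_ _ ?_ ?_ ?_
    · rw [bval_pow2]
      exact Nat.one_le_two_pow
    · rw [bval_pow2]
      exact hB
    · exact par_k he2
    · rw [bval_pow2]
      exact par_N hr
    · rw [bval_pow2, bval_pow2]
      exact par_P hL
    · rw [bval_pow2, bval_pow2]
      exact par_Pr hr
    · intro v hv
      obtain ⟨j, -, rfl⟩ := List.mem_map.1 hv
      rw [hrow_length]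
    · intro v hv κ hκ
      obtain ⟨j, -, rfl⟩ := List.mem_map.1 hv
      exact hrow_rel e (vv n) (n + 1) N _ _ hF hi hc κ hκ
    · intro θ hθ1 hθ2
      have hψ : StgC_ext S (fun a => θ a.1) = θ := by
        funext a
        unfold StgC_ext
        split_ifs with ha
        · rfl
        · exact (hθ1 a ha).symm
      by_contra hne
      push Not at hne
      obtain ⟨a, ha⟩ := hne
      have haS : a ∈ S := by
        by_contra h2
        exact ha (hθ1 a h2)
      obtain ⟨j, hj, hj2⟩ := hcon (fun a => θ a.1) (by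
        rw [hFd, Finset.mem_filter]
        refine ⟨Finset.mem_univ _, fun h2 => ha ?_⟩
        exact congrFun h2 ⟨a, haS⟩)
      refine hj2 ?_
      rw [hψ]
      unfold StgC_Q
      have h3 := hθ2 _ (List.mem_map_of_mem (f := fun j =>
        hrow e (vv n) (n + 1) N tab (cxl T) T i (bl (Qw n * vv n) zz j)) (List.mem_range.2 hj))
      refine Eq.trans (Finset.sum_congr rfl fun a ha => ?_) h3
      rw [hT, hrow_val e (vv n) (n + 1) N _ s t hi hc
        (Nat.lt_succ_iff.1 (mem_range.1 (hB.sub ha)))]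
  have h2 := cnt_exists (m := SS n) F (fun ψ zz => ∀ j < Rr n,
        StgC_Q n e N tab (exF s t) i S (StgC_ext S ψ) (bl (Qw n * vv n) zz j))
  have h3 : ∀ ψ ∈ F, (2 ^ vv n) ^ Rr n * cnt (SS n) (fun zz => ∀ j < Rr n,
        StgC_Q n e N tab (exF s t) i S (StgC_ext S ψ) (bl (Qw n * vv n) zz j)) ≤
      Aa n ^ Rr n * 2 ^ SS n := by
    intro ψ hψ
    have h4 : ∃ a ∈ S, StgC_ext S ψ a ≠ 0 := by
      by_contra h5
      push Not at h5
      rw [hFd, Finset.mem_filter] at hψ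
      refine hψ.2 ?_
      funext a
      have h6 := h5 a.1 a.2
      unfold StgC_ext at h6
      rw [dif_pos a.2] at h6
      exact h6
    have h5 := StgC_one hF hi he hp hc hf hP hl hB (StgC_ext S ψ) h4
    have h6 : cnt (SS n) (fun zz => ∀ j < Rr n,
        StgC_Q n e N tab (exF s t) i S (StgC_ext S ψ) (bl (Qw n * vv n) zz j)) =
        cnt (Qw n * vv n) (StgC_Q n e N tab (exF s t) i S (StgC_ext S ψ)) ^ Rr n :=
      StgC_blk n (StgC_Q n e N tab (exF s t) i S (StgC_ext S ψ))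
    rw [h6, ← mul_pow]
    refine (Nat.pow_le_pow_left h5 _).trans (le_of_eq ?_)
    rw [mul_pow]
    congr 1
    rw [StgC_SS, ← pow_mul, ← pow_mul]
    congr 1
    ring
  have h4 : F.card ≤ (bval e + 2) ^ n := by
    refine (Finset.card_le_univ _).trans ?_
    rw [Fintype.card_fun, ZMod.card, Fintype.card_coe]
    refine Nat.pow_le_pow_right (by omega) ?_
    have h5 := Finset.card_le_card hB.sub
    rw [card_range] at h5
    omega
  have h5 := par_union (n := n) (r := bval e + 2) (by omega)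
  have h6 : (2 ^ vv n) ^ Rr n * cnt (SS n) (fun zz => ¬ Fai (exF s t) (i + 1)
      ((nxt n e N (cxl T) T i tab zz).map irow)) ≤
      (bval e + 2) ^ n * (Aa n ^ Rr n * 2 ^ SS n) := by
    refine (Nat.mul_le_mul_left _ (h1.trans h2)).trans ?_
    rw [Finset.mul_sum]
    refine (Finset.sum_le_card_nsmul _ _ _ h3).trans ?_
    rw [smul_eq_mul]
    exact Nat.mul_le_mul_right _ h4
  have h7 : 0 < (2 ^ vv n) ^ Rr n := by positivity
  refine Nat.le_of_mul_le_mul_left ?_ h7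
  calc (2 ^ vv n) ^ Rr n * (8 * (n + 1) * cnt (SS n) (fun zz => ¬ Fai (exF s t) (i + 1)
      ((nxt n e N (cxl T) T i tab zz).map irow))) =
      8 * (n + 1) * ((2 ^ vv n) ^ Rr n * cnt (SS n) (fun zz => ¬ Fai (exF s t) (i + 1)
      ((nxt n e N (cxl T) T i tab zz).map irow))) := by ring
    _ ≤ 8 * (n + 1) * ((bval e + 2) ^ n * (Aa n ^ Rr n * 2 ^ SS n)) := Nat.mul_le_mul_left _ h6
    _ = 8 * (n + 1) * ((bval e + 2) ^ n * Aa n ^ Rr n) * 2 ^ SS n := by ring
    _ ≤ (2 ^ vv n) ^ Rr n * 2 ^ SS n := Nat.mul_le_mul_right _ h5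

end Pool.Agent.TN
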